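import Pool.Agent.H25.L2.Pois

/-! Arcs, and the two `L²` lower bounds for swept measures. -/

set_option autoImplicit false

namespace Pool.Agent.H25.L2

open Complex MeasureTheory Metric Set

/-- integrability on the period -/
def II (g : ℝ → ℝ) : Prop := IntervalIntegrable g volume 0 (2 * Real.pi)

lemma II_of_cont {g : ℝ → ℝ} (h : Continuous g) : II g := h.intervalIntegrable _ _

lemma II.add {g h : ℝ → ℝ} (hg : II g) (hh : II h) : II (fun t => g t + h t) :=
  IntervalIntegrable.add hg hh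

lemma II.sub {g h : ℝ → ℝ} (hg : II g) (hh : II h) : II (fun t => g t - h t) :=
  IntervalIntegrable.sub hg hh

lemma II.const_mul {g : ℝ → ℝ} (c : ℝ) (hg : II g) : II (fun t => c * g t) :=
  IntervalIntegrable.const_mul hg c

lemma II.indicator {g : ℝ → ℝ} (hg : II g) {G : Set ℝ} (hG : MeasurableSet G) :
    II (G.indicator g) := by
  unfold II at hg ⊢
  rw [intervalIntegrable_iff_integrableOn_Ioc_of_le (by positivity)] at hg ⊢
  exact Integrable.indicator hg hG

lemma av_add {g h : ℝ → ℝ} (hg : II g) (hh : II h) :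
    av (fun t => g t + h t) = av g + av h := by
  unfold av
  rw [intervalIntegral.integral_add hg hh, mul_add]

lemma av_sub {g h : ℝ → ℝ} (hg : II g) (hh : II h) :
    av (fun t => g t - h t) = av g - av h := by
  unfold av
  rw [intervalIntegral.integral_sub hg hh, mul_sub]

lemma av_const_mul (c : ℝ) (g : ℝ → ℝ) : av (fun t => c * g t) = c * av g := by
  unfold av
  rw [intervalIntegral.integral_const_mul]; ring

lemma av_mono {g h : ℝ → ℝ} (hg : II g) (hh : II h) (hle : ∀ t, g t ≤ h t) : av g ≤ av h := by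
  unfold av
  apply mul_le_mul_of_nonneg_left _ (by positivity)
  exact intervalIntegral.integral_mono (by positivity) hg hh hle

lemma av_const (c : ℝ) : av (fun _ => c) = c := by
  unfold av
  rw [intervalIntegral.integral_const, smul_eq_mul, sub_zero]
  field_simp

lemma av_sum {ι : Type*} (s : Finset ι) (g : ι → ℝ → ℝ) (hg : ∀ i ∈ s, II (g i)) :
    av (fun t => ∑ i ∈ s, g i t) = ∑ i ∈ s, av (g i) := by
  unfold av
  rw [intervalIntegral.integral_finsetSum hg, Finset.mul_sum]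

lemma II_sum {ι : Type*} (s : Finset ι) (g : ι → ℝ → ℝ) (hg : ∀ i ∈ s, II (g i)) :
    II (fun t => ∑ i ∈ s, g i t) := by
  unfold II
  have := IntervalIntegrable.sum s (f := g) (μ := volume) (a := 0) (b := 2 * Real.pi) hg
  refine this.congr ?_
  intro t _
  simp

/-- arc around `ζ` -/
def arc (ζ : ℂ) (B : ℝ) : Set ℝ := {t | ‖cu t - ζ‖ < B}

lemma arc_open (ζ : ℂ) (B : ℝ) : IsOpen (arc ζ B) := by
  have := cu_continuous
  exact isOpen_lt (by fun_prop) continuous_const

lemma norm_cu_sub (t θ : ℝ) : ‖cu t - cu θ‖ = 2 * |Real.sin ((t - θ) / 2)| := by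
  have h1 : cu t - cu θ = cu θ * (Complex.exp (I * ((t - θ : ℝ) : ℂ)) - 1) := by
    unfold cu
    rw [mul_sub, ← Complex.exp_add, mul_one]
    congr 2
    push_cast; ring
  rw [h1, norm_mul, norm_cu, one_mul, Complex.norm_exp_I_mul_ofReal_sub_one]
  rw [Real.norm_eq_abs, abs_mul, abs_two]

lemma sin_ge {y : ℝ} (h0 : 0 ≤ y) (h1 : y ≤ Real.pi / 6) : 3 / Real.pi * y ≤ Real.sin y := by
  have hpi := Real.pi_pos
  have ha : 0 ≤ 1 - 6 * y / Real.pi := by
    have : 6 * y / Real.pi ≤ 1 := by rw [div_le_one hpi]; linarith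
    linarith
  have hc := strictConcaveOn_sin_Icc.concaveOn.2
    (show (0 : ℝ) ∈ Icc 0 Real.pi from ⟨le_refl _, hpi.le⟩)
    (show Real.pi / 6 ∈ Icc 0 Real.pi from ⟨by positivity, by linarith⟩)
    ha (show 0 ≤ 6 * y / Real.pi by positivity) (by ring)
  simp only [smul_eq_mul, mul_zero, zero_add, Real.sin_zero, Real.sin_pi_div_six] at hc
  have e : 6 * y / Real.pi * (Real.pi / 6) = y := by field_simp
  rw [e] at hc
  calc 3 / Real.pi * y = 6 * y / Real.pi * (1 / 2) := by ring
    _ ≤ _ := hc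

lemma exists_cu {ζ : ℂ} (hζ : ‖ζ‖ = 1) : ∃ θ : ℝ, cu θ = ζ := by
  refine ⟨ζ.arg, ?_⟩
  have := Complex.norm_mul_exp_arg_mul_I ζ
  rw [hζ] at this
  simpa [cu] using this

lemma cu_add_two_pi (t : ℝ) : cu (t + 2 * Real.pi) = cu t := by
  unfold cu
  push_cast
  rw [add_mul, Complex.exp_add]
  rw [show (2 * (Real.pi : ℂ) * I) = 2 * Real.pi * I from rfl, Complex.exp_two_pi_mul_I,
    mul_one]

lemma arc_add_two_pi (ζ : ℂ) (B t : ℝ) : (t + 2 * Real.pi ∈ arc ζ B) ↔ (t ∈ arc ζ B) := by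
  unfold arc; simp only [mem_ofPred_eq, cu_add_two_pi]

lemma av_arc_le {ζ : ℂ} (hζ : ‖ζ‖ = 1) {B : ℝ} (hB : 0 < B) (hB1 : B ≤ 1) :
    av ((arc ζ B).indicator (fun _ => 1)) ≤ B / 3 := by
  obtain ⟨θ, rfl⟩ := exists_cu hζ
  have hper : Function.Periodic ((arc (cu θ) B).indicator (fun _ => (1 : ℝ))) (2 * Real.pi) := by
    intro t
    have h2 := arc_add_two_pi (cu θ) B t
    by_cases h : t ∈ arc (cu θ) B
    · rw [indicator_of_mem h, indicator_of_mem (h2.mpr h)]
    · rw [indicator_of_notMem h, indicator_of_notMem (fun h' => h (h2.mp h'))]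
  unfold av
  have hshift := hper.intervalIntegral_add_eq 0 (θ - Real.pi)
  rw [zero_add] at hshift
  rw [hshift, show θ - Real.pi + 2 * Real.pi = θ + Real.pi by ring]
  have hpi := Real.pi_pos
  have hle : ∫ t in (θ - Real.pi)..(θ + Real.pi), (arc (cu θ) B).indicator (fun _ => (1 : ℝ)) t
      ≤ 2 * Real.pi * B / 3 := by
    have h1 : ∫ t in (θ - Real.pi)..(θ + Real.pi), (arc (cu θ) B).indicator (fun _ => (1 : ℝ)) t
        ≤ ∫ t in (θ - Real.pi)..(θ + Real.pi),
          (Ioo (θ - Real.pi * B / 3) (θ + Real.pi * B / 3)).indicator (fun _ => (1 : ℝ)) t := by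
      apply intervalIntegral.integral_mono_on (by linarith)
      · rw [intervalIntegrable_iff_integrableOn_Ioc_of_le (by linarith)]
        exact Integrable.indicator (integrableOn_const (by simp)) (arc_open _ _).measurableSet
      · rw [intervalIntegrable_iff_integrableOn_Ioc_of_le (by linarith)]
        exact Integrable.indicator (integrableOn_const (by simp)) measurableSet_Ioo
      · intro t ht
        by_cases h : t ∈ arc (cu θ) B
        · rw [indicator_of_mem h]
          have ht' : |t - θ| ≤ Real.pi := by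
            rw [abs_le]; constructor <;> linarith [ht.1, ht.2]
          have h2 : ‖cu t - cu θ‖ < B := h
          rw [norm_cu_sub] at h2
          set y := |t - θ| / 2 with hy
          have hy0 : 0 ≤ y := by positivity
          have hsin : |Real.sin ((t - θ) / 2)| = Real.sin y := by
            have e1 : |Real.sin ((t - θ) / 2)| = |Real.sin (|(t - θ) / 2|)| := by
              rcases abs_choice ((t - θ) / 2) with h | h <;> rw [h]
              rw [Real.sin_neg, abs_neg]
            rw [e1, abs_div, abs_two, ← hy]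
            exact abs_of_nonneg (Real.sin_nonneg_of_nonneg_of_le_pi hy0 (by linarith))
          rw [hsin] at h2
          have hy6 : y ≤ Real.pi / 6 := by
            by_contra hcon
            push Not at hcon
            have : Real.sin (Real.pi / 6) ≤ Real.sin y :=
              Real.sin_le_sin_of_le_of_le_pi_div_two (by linarith) (by linarith) hcon.le
            rw [Real.sin_pi_div_six] at this
            linarith
          have h3 := sin_ge hy0 hy6
          have h4 : |t - θ| < Real.pi * B / 3 := by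
            have h5 : 3 / Real.pi * y < B / 2 := by linarith
            have h6 : 3 / Real.pi * y = 3 * y / Real.pi := by ring
            rw [h6, div_lt_iff₀ hpi] at h5
            have : |t - θ| = 2 * y := by rw [hy]; ring
            rw [this]; linarith
          rw [abs_lt] at h4
          rw [indicator_of_mem (mem_Ioo.mpr ⟨by linarith [h4.1], by linarith [h4.2]⟩)]
        · rw [indicator_of_notMem h]
          exact indicator_nonneg (fun _ _ => zero_le_one) _
    refine h1.trans ?_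
    rw [intervalIntegral.integral_of_le (by linarith), integral_indicator measurableSet_Ioo,
      Measure.restrict_restrict measurableSet_Ioo]
    rw [setIntegral_const, smul_eq_mul, mul_one]
    have h2 : volume.real (Ioo (θ - Real.pi * B / 3) (θ + Real.pi * B / 3)
        ∩ Ioc (θ - Real.pi) (θ + Real.pi)) ≤
        volume.real (Ioo (θ - Real.pi * B / 3) (θ + Real.pi * B / 3)) := by
      exact measureReal_mono inter_subset_left
        (by rw [Real.volume_Ioo]; exact ENNReal.ofReal_ne_top)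
    refine h2.trans ?_
    rw [Real.volume_real_Ioo_of_le (by nlinarith)]
    linarith
  calc (2 * Real.pi)⁻¹ * ∫ t in (θ - Real.pi)..(θ + Real.pi),
        (arc (cu θ) B).indicator (fun _ => (1 : ℝ)) t
      ≤ (2 * Real.pi)⁻¹ * (2 * Real.pi * B / 3) := mul_le_mul_of_nonneg_left hle (by positivity)
    _ = B / 3 := by field_simp

/-- the function `1_{‖e^{it} - ζ‖ ≥ B} / ‖e^{it} - ζ‖²` -/
noncomputable def isq (ζ : ℂ) (B : ℝ) : ℝ → ℝ :=
  (arc ζ B)ᶜ.indicator (fun t => 1 / ‖cu t - ζ‖ ^ 2)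

lemma isq_nonneg (ζ : ℂ) (B t : ℝ) : 0 ≤ isq ζ B t :=
  indicator_nonneg (fun _ _ => by positivity) _

lemma isq_le {ζ : ℂ} {B : ℝ} (hB : 0 < B) (t : ℝ) : isq ζ B t ≤ 1 / B ^ 2 := by
  unfold isq
  by_cases h : t ∈ (arc ζ B)ᶜ
  · rw [indicator_of_mem h]
    have h2 : B ≤ ‖cu t - ζ‖ := by
      by_contra hc; push Not at hc; exact h hc
    exact one_div_le_one_div_of_le (by positivity) (pow_le_pow_left₀ hB.le h2 2)
  · rw [indicator_of_notMem h]; positivity

lemma isq_meas (ζ : ℂ) (B : ℝ) : Measurable (isq ζ B) := by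
  unfold isq
  have := cu_continuous.measurable
  exact Measurable.indicator (by fun_prop) (arc_open ζ B).measurableSet.compl

lemma isq_int (ζ : ℂ) {B : ℝ} (hB : 0 < B) (a b : ℝ) :
    IntervalIntegrable (isq ζ B) volume a b := by
  rw [intervalIntegrable_iff]
  refine Measure.integrableOn_of_bounded (M := 1 / B ^ 2) ?_ ?_ ?_
  · simp
  · exact (isq_meas ζ B).aestronglyMeasurable
  · filter_upwards with t
    rw [Real.norm_of_nonneg (isq_nonneg ζ B t)]
    exact isq_le hB t

lemma av_isq_le {ζ : ℂ} (hζ : ‖ζ‖ = 1) {B : ℝ} (hB : 0 < B) (hB1 : B ≤ 1) :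
    av (isq ζ B) ≤ 1 / (Real.pi * B) := by
  obtain ⟨θ, rfl⟩ := exists_cu hζ
  have hpi := Real.pi_pos
  have hper : Function.Periodic (isq (cu θ) B) (2 * Real.pi) := by
    intro t
    unfold isq
    have h2 := arc_add_two_pi (cu θ) B t
    by_cases h : t ∈ (arc (cu θ) B)ᶜ
    · have h3 : t + 2 * Real.pi ∈ (arc (cu θ) B)ᶜ := fun h' => h (h2.mp h')
      rw [indicator_of_mem h, indicator_of_mem h3, cu_add_two_pi]
    · rw [indicator_of_notMem h, indicator_of_notMem]
      intro h'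
      apply h
      intro h3
      exact h' (h2.mpr h3)
  unfold av
  have hshift := hper.intervalIntegral_add_eq 0 θ
  rw [zero_add] at hshift
  rw [hshift]
  set y₀ := Real.arcsin (B / 2) with hy₀
  have hy0pos : 0 < y₀ := Real.arcsin_pos.mpr (by positivity)
  have hy0le : y₀ < Real.pi / 2 := by
    rw [hy₀, Real.arcsin_lt_pi_div_two]; linarith
  have hsin0 : Real.sin y₀ = B / 2 := Real.sin_arcsin (by linarith) (by linarith)
  set a := θ + 2 * y₀ with ha
  set b := θ + 2 * Real.pi - 2 * y₀ with hb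
  have hab : a ≤ b := by rw [ha, hb]; linarith
  -- positivity of the sine on `[a,b]`
  have hsinpos : ∀ t ∈ Icc a b, B / 2 ≤ Real.sin ((t - θ) / 2) := by
    intro t ht
    have h1 : y₀ ≤ (t - θ) / 2 := by rw [ha] at ht; linarith [ht.1]
    have h2 : (t - θ) / 2 ≤ Real.pi - y₀ := by rw [hb] at ht; linarith [ht.2]
    rcases le_total ((t - θ) / 2) (Real.pi / 2) with h | h
    · rw [← hsin0]
      exact Real.sin_le_sin_of_le_of_le_pi_div_two (by linarith) h h1
    · rw [← hsin0, ← Real.sin_pi_sub ((t - θ) / 2)]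
      exact Real.sin_le_sin_of_le_of_le_pi_div_two (by linarith) (by linarith) (by linarith)
  have hle : ∫ t in θ..(θ + 2 * Real.pi), isq (cu θ) B t
      ≤ ∫ t in a..b, 1 / (4 * Real.sin ((t - θ) / 2) ^ 2) := by
    have s1 : ∫ t in θ..(θ + 2 * Real.pi), isq (cu θ) B t
        = (∫ t in θ..a, isq (cu θ) B t) + (∫ t in a..b, isq (cu θ) B t)
          + ∫ t in b..(θ + 2 * Real.pi), isq (cu θ) B t := by
      rw [intervalIntegral.integral_add_adjacent_intervals (isq_int _ hB _ _) (isq_int _ hB _ _),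
        intervalIntegral.integral_add_adjacent_intervals (isq_int _ hB _ _) (isq_int _ hB _ _)]
    have hz : ∀ t, (t - θ) / 2 < y₀ → 0 ≤ (t - θ) / 2 → isq (cu θ) B t = 0 := by
      intro t h1 h2
      unfold isq
      rw [indicator_of_notMem]
      intro h
      apply h
      show ‖cu t - cu θ‖ < B
      rw [norm_cu_sub, abs_of_nonneg (Real.sin_nonneg_of_nonneg_of_le_pi h2 (by linarith))]
      have := Real.sin_lt_sin_of_lt_of_le_pi_div_two (by linarith) hy0le.le h1
      rw [hsin0] at this; linarith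
    have hz2 : ∀ t, Real.pi - y₀ < (t - θ) / 2 → (t - θ) / 2 ≤ Real.pi →
        isq (cu θ) B t = 0 := by
      intro t h1 h2
      unfold isq
      rw [indicator_of_notMem]
      intro h
      apply h
      show ‖cu t - cu θ‖ < B
      rw [norm_cu_sub, abs_of_nonneg (Real.sin_nonneg_of_nonneg_of_le_pi (by linarith) h2)]
      rw [← Real.sin_pi_sub]
      have := Real.sin_lt_sin_of_lt_of_le_pi_div_two
        (show -(Real.pi / 2) ≤ Real.pi - (t - θ) / 2 by linarith) hy0le.le (by linarith)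
      rw [hsin0] at this; linarith
    have z1 : ∫ t in θ..a, isq (cu θ) B t = 0 := by
      rw [intervalIntegral.integral_of_le (by rw [ha]; linarith)]
      rw [integral_Ioc_eq_integral_Ioo]
      apply setIntegral_eq_zero_of_forall_eq_zero
      intro t ht
      apply hz t _ (by linarith [ht.1])
      rw [ha] at ht; linarith [ht.2]
    have z2 : ∫ t in b..(θ + 2 * Real.pi), isq (cu θ) B t = 0 := by
      rw [intervalIntegral.integral_of_le (by rw [hb]; linarith)]
      apply setIntegral_eq_zero_of_forall_eq_zero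
      intro t ht
      apply hz2 t _ (by linarith [ht.2])
      rw [hb] at ht; linarith [ht.1]
    rw [s1, z1, z2, zero_add, add_zero]
    apply intervalIntegral.integral_mono_on hab (isq_int _ hB _ _)
    · apply ContinuousOn.intervalIntegrable
      rw [uIcc_of_le hab]
      intro t ht
      apply ContinuousAt.continuousWithinAt
      have h1 := hsinpos t ht
      have h2 : 4 * Real.sin ((t - θ) / 2) ^ 2 ≠ 0 := by
        have : 0 < Real.sin ((t - θ) / 2) := by linarith
        positivity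
      fun_prop (disch := assumption)
    · intro t ht
      have h1 := hsinpos t ht
      have h2 : 0 < Real.sin ((t - θ) / 2) := by linarith
      unfold isq
      have hle2 : (arc (cu θ) B)ᶜ.indicator (fun t => 1 / ‖cu t - cu θ‖ ^ 2) t
          ≤ 1 / ‖cu t - cu θ‖ ^ 2 := by
        by_cases h : t ∈ (arc (cu θ) B)ᶜ
        · rw [indicator_of_mem h]
        · rw [indicator_of_notMem h]; positivity
      refine hle2.trans ?_
      rw [norm_cu_sub, abs_of_pos h2]
      apply le_of_eq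
      congr 1
      ring
  have hftc : ∫ t in a..b, 1 / (4 * Real.sin ((t - θ) / 2) ^ 2)
      = Real.cos y₀ / Real.sin y₀ := by
    have hd : ∀ t ∈ uIcc a b, HasDerivAt
        (fun t => -(1 / 2) * (Real.cos ((t - θ) / 2) / Real.sin ((t - θ) / 2)))
        (1 / (4 * Real.sin ((t - θ) / 2) ^ 2)) t := by
      intro t ht
      rw [uIcc_of_le hab] at ht
      have h1 := hsinpos t ht
      have h2 : Real.sin ((t - θ) / 2) ≠ 0 := by
        have : 0 < Real.sin ((t - θ) / 2) := by linarith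
        exact this.ne'
      have hy : HasDerivAt (fun t : ℝ => (t - θ) / 2) (1 / 2) t := by
        have := ((hasDerivAt_id t).sub_const θ).div_const 2
        simpa using this
      have h3 := ((hy.cos).div (hy.sin) h2).const_mul (-(1 / 2))
      refine h3.congr_deriv ?_
      have hsc := Real.sin_sq_add_cos_sq ((t - θ) / 2)
      field_simp
      linarith
    rw [intervalIntegral.integral_eq_sub_of_hasDerivAt hd]
    · have e1 : (a - θ) / 2 = y₀ := by rw [ha]; ring
      have e2 : (b - θ) / 2 = Real.pi - y₀ := by rw [hb]; ring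
      rw [e1, e2, Real.cos_pi_sub, Real.sin_pi_sub]
      ring
    · apply ContinuousOn.intervalIntegrable
      rw [uIcc_of_le hab]
      intro t ht
      apply ContinuousAt.continuousWithinAt
      have h1 := hsinpos t ht
      have h2 : 4 * Real.sin ((t - θ) / 2) ^ 2 ≠ 0 := by
        have : 0 < Real.sin ((t - θ) / 2) := by linarith
        positivity
      fun_prop (disch := assumption)
  have hfin : Real.cos y₀ / Real.sin y₀ ≤ 2 / B := by
    rw [hsin0, div_le_div_iff₀ (by positivity) hB]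
    have := Real.cos_le_one y₀
    nlinarith
  calc (2 * Real.pi)⁻¹ * ∫ t in θ..(θ + 2 * Real.pi), isq (cu θ) B t
      ≤ (2 * Real.pi)⁻¹ * (2 / B) := by
        apply mul_le_mul_of_nonneg_left _ (by positivity)
        exact (hle.trans hftc.le).trans hfin
    _ = 1 / (Real.pi * B) := by field_simp

/-- pointwise bound of the Poisson kernel by `isq` away from the arc -/
lemma pk_le_isq {ζ : ℂ} (hζ : ‖ζ‖ = 1) {ρ B : ℝ} (h0 : 0 < ρ) (h1 : ρ < 1) (hB0 : 0 < B)
    (t : ℝ) (ht : B ≤ ‖cu t - ζ‖) :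
    pk (ρ * ζ) t ≤ (1 - ρ ^ 2) / ρ * isq ζ B t := by
  have hmem : t ∈ (arc ζ B)ᶜ := fun h => absurd h (not_lt.mpr ht)
  have e : ∀ r : ℝ, ‖cu t - r * ζ‖ ^ 2 = 1 - 2 * r * (cu t * (starRingEnd ℂ) ζ).re + r ^ 2 := by
    intro r
    rw [← normSq_eq_norm_sq, normSq_sub]
    simp only [map_mul, conj_ofReal, normSq_ofReal]
    rw [normSq_eq_norm_sq, normSq_eq_norm_sq, norm_cu, hζ]
    have : (cu t * (↑r * (starRingEnd ℂ) ζ)).re = r * (cu t * (starRingEnd ℂ) ζ).re := by
      rw [← mul_assoc, mul_comm (cu t) (r : ℂ), mul_assoc, re_ofReal_mul]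
    rw [this]; ring
  have e1 := e 1
  simp only [ofReal_one, one_mul] at e1
  have key : ‖cu t - ρ * ζ‖ ^ 2 = (1 - ρ) ^ 2 + ρ * ‖cu t - ζ‖ ^ 2 := by
    rw [e ρ, e1]; ring
  unfold pk isq
  rw [indicator_of_mem hmem, key]
  have hn : ‖(ρ : ℂ) * ζ‖ = ρ := by
    rw [norm_mul, hζ, mul_one, norm_real, Real.norm_of_nonneg h0.le]
  rw [hn]
  set D := ‖cu t - ζ‖ ^ 2 with hD
  have hDB : B ^ 2 ≤ D := pow_le_pow_left₀ hB0.le ht 2
  have hD0 : 0 < D := lt_of_lt_of_le (by positivity) hDB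
  have hr1 : 0 < 1 - ρ ^ 2 := by nlinarith
  calc (1 - ρ ^ 2) / ((1 - ρ) ^ 2 + ρ * D) ≤ (1 - ρ ^ 2) / (ρ * D) := by
        apply div_le_div_of_nonneg_left hr1.le (by positivity)
        nlinarith [sq_nonneg (1 - ρ)]
    _ = (1 - ρ ^ 2) / ρ * (1 / D) := by field_simp

section level

variable {m N : ℕ} (ζ : Fin m → ℂ) (Bd : Fin m → ℝ) (I : Finset (Fin N)) (jj : Fin N → Fin m)
  (ρ : Fin N → ℝ)

/-- the swept density -/
noncomputable def sg (t : ℝ) : ℝ := ∑ i ∈ I, pk (ρ i * ζ (jj i)) t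

/-- total mutual energy density -/
noncomputable def SS : ℝ :=
  ∑ i ∈ I, ∑ k ∈ I, pp ((ρ i * ζ (jj i)) * (starRingEnd ℂ) (ρ k * ζ (jj k)))

variable {ζ Bd I jj ρ}

lemma norm_lt {i : Fin N} (hζ : ∀ j, ‖ζ j‖ = 1) (h : 0 < ρ i ∧ ρ i < 1) :
    ‖(ρ i : ℂ) * ζ (jj i)‖ < 1 := by
  rw [norm_mul, hζ, mul_one, norm_real, Real.norm_of_nonneg h.1.le]; exact h.2

lemma sg_continuous (hζ : ∀ j, ‖ζ j‖ = 1) (hρ : ∀ i ∈ I, 0 < ρ i ∧ ρ i < 1) :
    Continuous (sg ζ I jj ρ) := by
  unfold sg
  exact continuous_finsetSum _ fun i hi => pk_continuous (norm_lt hζ (hρ i hi))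

lemma sg_nonneg (hζ : ∀ j, ‖ζ j‖ = 1) (hρ : ∀ i ∈ I, 0 < ρ i ∧ ρ i < 1) (t : ℝ) :
    0 ≤ sg ζ I jj ρ t :=
  Finset.sum_nonneg fun i hi => pk_nonneg (norm_lt hζ (hρ i hi)) t

lemma av_sg (hζ : ∀ j, ‖ζ j‖ = 1) (hρ : ∀ i ∈ I, 0 < ρ i ∧ ρ i < 1) :
    av (sg ζ I jj ρ) = I.card := by
  unfold sg
  rw [av_sum I (fun i => pk (ρ i * ζ (jj i)))
    (fun i hi => II_of_cont (pk_continuous (norm_lt hζ (hρ i hi))))]
  rw [Finset.sum_congr rfl (fun i hi => av_pk (norm_lt hζ (hρ i hi)))]
  simp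

lemma av_sg_sq (hζ : ∀ j, ‖ζ j‖ = 1) (hρ : ∀ i ∈ I, 0 < ρ i ∧ ρ i < 1) :
    av (fun t => sg ζ I jj ρ t ^ 2) = SS ζ I jj ρ := by
  have h1 : (fun t => sg ζ I jj ρ t ^ 2)
      = fun t => ∑ i ∈ I, ∑ k ∈ I, pk (ρ i * ζ (jj i)) t * pk (ρ k * ζ (jj k)) t := by
    ext t
    unfold sg
    rw [pow_two, Finset.sum_mul_sum]
  have hc : ∀ i ∈ I, ∀ k ∈ I,
      II (fun t => pk (ρ i * ζ (jj i)) t * pk (ρ k * ζ (jj k)) t) := fun i hi k hk =>
    II_of_cont ((pk_continuous (norm_lt hζ (hρ i hi))).mul (pk_continuous (norm_lt hζ (hρ k hk))))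
  rw [h1, av_sum I (fun i t => ∑ k ∈ I, pk (ρ i * ζ (jj i)) t * pk (ρ k * ζ (jj k)) t)
    (fun i hi => II_sum I _ (fun k hk => hc i hi k hk))]
  unfold SS
  apply Finset.sum_congr rfl
  intro i hi
  rw [av_sum I (fun k t => pk (ρ i * ζ (jj i)) t * pk (ρ k * ζ (jj k)) t)
    (fun k hk => hc i hi k hk)]
  apply Finset.sum_congr rfl
  intro k hk
  exact av_pk_mul (norm_lt hζ (hρ i hi)) (norm_lt hζ (hρ k hk))

variable (hζ : ∀ j, ‖ζ j‖ = 1) (hB0 : ∀ j, 0 < Bd j) (hB1 : ∀ j, Bd j ≤ 1)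
  (hρ : ∀ i ∈ I, 0 < ρ i ∧ ρ i < 1) {T : ℝ}
  (hT : ∀ i ∈ I, 1 - ρ i ^ 2 ≤ T * (ρ i * (Real.pi * Bd (jj i))))
  {J : Finset (Fin m)} (hJ : ∀ i ∈ I, jj i ∈ J)

/-- union of arcs -/
def GG (ζ : Fin m → ℂ) (Bd : Fin m → ℝ) (J : Finset (Fin m)) : Set ℝ := ⋃ j ∈ J, arc (ζ j) (Bd j)

lemma GG_meas : MeasurableSet (GG ζ Bd J) := by
  unfold GG
  exact (isOpen_biUnion fun j _ => arc_open (ζ j) (Bd j)).measurableSet

include hζ hB0 hB1 in
lemma av_GG_le : av ((GG ζ Bd J).indicator (fun _ => 1)) ≤ ∑ j ∈ J, Bd j / 3 := by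
  have hII : ∀ j, II ((arc (ζ j) (Bd j)).indicator (fun _ => (1 : ℝ))) := fun j =>
    (II_of_cont continuous_const).indicator (arc_open _ _).measurableSet
  calc av ((GG ζ Bd J).indicator (fun _ => 1))
      ≤ av (fun t => ∑ j ∈ J, (arc (ζ j) (Bd j)).indicator (fun _ => 1) t) := by
        apply av_mono ((II_of_cont continuous_const).indicator GG_meas)
          (II_sum J _ (fun j _ => hII j))
        intro t
        have hnn : ∀ j ∈ J, 0 ≤ (arc (ζ j) (Bd j)).indicator (fun _ => (1 : ℝ)) t := fun j _ =>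
          indicator_nonneg (fun _ _ => zero_le_one) _
        by_cases h : t ∈ GG ζ Bd J
        · rw [indicator_of_mem h]
          unfold GG at h
          simp only [mem_iUnion] at h
          obtain ⟨j, hj, hj2⟩ := h
          have := Finset.single_le_sum hnn hj
          rwa [indicator_of_mem hj2] at this
        · rw [indicator_of_notMem h]
          exact Finset.sum_nonneg hnn
    _ = ∑ j ∈ J, av ((arc (ζ j) (Bd j)).indicator (fun _ => 1)) :=
        av_sum J (fun j => (arc (ζ j) (Bd j)).indicator (fun _ => 1)) (fun j _ => hII j)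
    _ ≤ _ := Finset.sum_le_sum fun j _ => av_arc_le (hζ j) (hB0 j) (hB1 j)

include hζ hB0 hB1 hρ hT hJ in
/-- mass of the swept density outside the arcs -/
lemma av_tail_le : av ((GG ζ Bd J)ᶜ.indicator (sg ζ I jj ρ)) ≤ T * I.card := by
  have hpi := Real.pi_pos
  have hcoef : ∀ i ∈ I, 0 ≤ (1 - ρ i ^ 2) / ρ i := by
    intro i hi
    obtain ⟨h1, h2⟩ := hρ i hi
    have : 0 ≤ 1 - ρ i ^ 2 := by nlinarith
    positivity
  calc av ((GG ζ Bd J)ᶜ.indicator (sg ζ I jj ρ))
      ≤ av (fun t => ∑ i ∈ I, (1 - ρ i ^ 2) / ρ i * isq (ζ (jj i)) (Bd (jj i)) t) := by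
        apply av_mono ((II_of_cont (sg_continuous hζ hρ)).indicator GG_meas.compl)
          (II_sum I _ (fun i _ => II.const_mul _ (isq_int _ (hB0 _) _ _)))
        intro t
        by_cases h : t ∈ (GG ζ Bd J)ᶜ
        · rw [indicator_of_mem h]
          unfold sg
          apply Finset.sum_le_sum
          intro i hi
          have hfar : Bd (jj i) ≤ ‖cu t - ζ (jj i)‖ := by
            by_contra hlt
            push Not at hlt
            apply h
            unfold GG
            simp only [mem_iUnion]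
            exact ⟨jj i, hJ i hi, hlt⟩
          exact pk_le_isq (hζ _) (hρ i hi).1 (hρ i hi).2 (hB0 _) t hfar
        · rw [indicator_of_notMem h]
          exact Finset.sum_nonneg fun i hi => mul_nonneg (hcoef i hi) (isq_nonneg _ _ _)
    _ = ∑ i ∈ I, (1 - ρ i ^ 2) / ρ i * av (isq (ζ (jj i)) (Bd (jj i))) := by
        rw [av_sum I (fun i t => (1 - ρ i ^ 2) / ρ i * isq (ζ (jj i)) (Bd (jj i)) t)
          (fun i _ => II.const_mul _ (isq_int _ (hB0 _) _ _))]
        apply Finset.sum_congr rfl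
        intro i _
        rw [av_const_mul]
    _ ≤ ∑ i ∈ I, T := by
        apply Finset.sum_le_sum
        intro i hi
        refine (mul_le_mul_of_nonneg_left (av_isq_le (hζ _) (hB0 _) (hB1 _)) (hcoef i hi)).trans ?_
        have h1 := hρ i hi
        have h2 := hT i hi
        have h3 := hB0 (jj i)
        rw [div_mul_div_comm, mul_one, div_le_iff₀ (by have := h1.1; positivity)]
        exact h2
    _ = T * I.card := by simp [mul_comm]

include hζ hB0 hB1 hρ hT hJ in
/-- bound used outside the unit circle -/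
theorem level_out (hT1 : T < 1) :
    2 * (N : ℝ) * I.card - SS ζ I jj ρ ≤ (N : ℝ) ^ 2 * ((∑ j ∈ J, Bd j / 3) / (1 - T) ^ 2) := by
  have hsc := sg_continuous (jj := jj) hζ hρ
  have hG := GG_meas (ζ := ζ) (Bd := Bd) (J := J)
  have htail := av_tail_le hζ hB0 hB1 hρ hT hJ
  have hG1 := av_GG_le hζ hB0 hB1 (J := J)
  have hav := av_sg (jj := jj) hζ hρ
  have hT' : 0 < 1 - T := by linarith
  set l := (N : ℝ) / (1 - T) with hl
  have hl0 : 0 ≤ l := by positivity
  -- pointwise
  have hpt : ∀ t, 2 * l * (sg ζ I jj ρ t - (GG ζ Bd J)ᶜ.indicator (sg ζ I jj ρ) t)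
      - l ^ 2 * (GG ζ Bd J).indicator (fun _ => 1) t ≤ sg ζ I jj ρ t ^ 2 := by
    intro t
    by_cases h : t ∈ GG ζ Bd J
    · rw [indicator_of_mem h, indicator_of_notMem (by simpa using h)]
      nlinarith [sq_nonneg (sg ζ I jj ρ t - l)]
    · rw [indicator_of_notMem h, indicator_of_mem (by simpa using h)]
      nlinarith [sq_nonneg (sg ζ I jj ρ t)]
  have i1 : II (sg ζ I jj ρ) := II_of_cont hsc
  have i2 : II ((GG ζ Bd J)ᶜ.indicator (sg ζ I jj ρ)) := i1.indicator hG.compl
  have i3 : II ((GG ζ Bd J).indicator (fun _ => (1 : ℝ))) :=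
    (II_of_cont continuous_const).indicator hG
  have := av_mono (((i1.sub i2).const_mul (2 * l)).sub (i3.const_mul (l ^ 2)))
    (II_of_cont (hsc.pow 2)) hpt
  rw [av_sub ((i1.sub i2).const_mul (2 * l)) (i3.const_mul (l ^ 2)), av_const_mul, av_const_mul,
    av_sub i1 i2, hav] at this
  have h2 : av (sg ζ I jj ρ ^ 2) = SS ζ I jj ρ := av_sg_sq hζ hρ
  rw [h2] at this
  have e1 : 2 * l * ((1 - T) * I.card) = 2 * (N : ℝ) * I.card := by
    rw [hl]; field_simp
  have e2 : l ^ 2 * (∑ j ∈ J, Bd j / 3) = (N : ℝ) ^ 2 * ((∑ j ∈ J, Bd j / 3) / (1 - T) ^ 2) := by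
    rw [hl]; field_simp
  have e3 : l ^ 2 * av ((GG ζ Bd J).indicator (fun _ => 1)) ≤ l ^ 2 * (∑ j ∈ J, Bd j / 3) :=
    mul_le_mul_of_nonneg_left hG1 (sq_nonneg _)
  have e4 : 2 * l * ((1 - T) * I.card)
      ≤ 2 * l * ((I.card : ℝ) - av ((GG ζ Bd J)ᶜ.indicator (sg ζ I jj ρ))) := by
    apply mul_le_mul_of_nonneg_left _ (by positivity)
    linarith
  linarith

include hζ hB0 hB1 hρ hT hJ in
/-- bound used inside the unit circle -/
theorem level_in (hT0 : 0 ≤ T) (hTg : T + ∑ j ∈ J, Bd j / 3 ≤ 1) :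
    2 * (N : ℝ) * I.card - SS ζ I jj ρ
      ≤ (N : ℝ) ^ 2 * (1 - (1 - T - ∑ j ∈ J, Bd j / 3) ^ 2) := by
  have hsc := sg_continuous (jj := jj) hζ hρ
  have hG := GG_meas (ζ := ζ) (Bd := Bd) (J := J)
  have htail := av_tail_le hζ hB0 hB1 hρ hT hJ
  have hG1 := av_GG_le hζ hB0 hB1 (J := J)
  have hav := av_sg (jj := jj) hζ hρ
  set g := ∑ j ∈ J, Bd j / 3 with hg
  set l := (N : ℝ) * (1 - T - g) with hl
  have hl0 : 0 ≤ l := mul_nonneg (Nat.cast_nonneg _) (by linarith)
  have hcard : (I.card : ℝ) ≤ N := by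
    have := Finset.card_le_univ I
    simp only [Fintype.card_fin] at this
    exact_mod_cast this
  have hpt : ∀ t, 2 * l * ((N : ℝ) * (1 - (GG ζ Bd J).indicator (fun _ => 1) t)
      - (GG ζ Bd J)ᶜ.indicator (sg ζ I jj ρ) t) - l ^ 2
      ≤ (N : ℝ) ^ 2 - 2 * N * sg ζ I jj ρ t + sg ζ I jj ρ t ^ 2 := by
    intro t
    by_cases h : t ∈ GG ζ Bd J
    · rw [indicator_of_mem h, indicator_of_notMem (by simpa using h)]
      nlinarith [sq_nonneg ((N : ℝ) - sg ζ I jj ρ t), sq_nonneg l]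
    · rw [indicator_of_notMem h, indicator_of_mem (by simpa using h)]
      nlinarith [sq_nonneg ((N : ℝ) - sg ζ I jj ρ t - l)]
  have i1 : II (sg ζ I jj ρ) := II_of_cont hsc
  have i2 : II ((GG ζ Bd J)ᶜ.indicator (sg ζ I jj ρ)) := i1.indicator hG.compl
  have i3 : II ((GG ζ Bd J).indicator (fun _ => (1 : ℝ))) :=
    (II_of_cont continuous_const).indicator hG
  have ic : ∀ c : ℝ, II (fun _ => c) := fun c => II_of_cont continuous_const
  have j1 : II (fun t => (N : ℝ) * (1 - (GG ζ Bd J).indicator (fun _ => 1) t)) :=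
    ((ic 1).sub i3).const_mul _
  have isq : II (fun t => sg ζ I jj ρ t ^ 2) := II_of_cont (hsc.pow 2)
  have := av_mono (((j1.sub i2).const_mul (2 * l)).sub (ic (l ^ 2)))
    (((ic ((N : ℝ) ^ 2)).sub (i1.const_mul (2 * (N : ℝ)))).add isq) hpt
  rw [av_sub ((j1.sub i2).const_mul (2 * l)) (ic (l ^ 2)), av_const_mul, av_sub j1 i2,
    av_const_mul, av_sub (ic 1) i3, av_const, av_const,
    av_add ((ic ((N : ℝ) ^ 2)).sub (i1.const_mul (2 * (N : ℝ)))) isq,
    av_sub (ic ((N : ℝ) ^ 2)) (i1.const_mul (2 * (N : ℝ))), av_const, av_const_mul, hav,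
    av_sg_sq hζ hρ] at this
  have e1 : (N : ℝ) * (1 - g) - T * I.card ≤ (N : ℝ) * (1 - av ((GG ζ Bd J).indicator
      (fun _ => 1))) - av ((GG ζ Bd J)ᶜ.indicator (sg ζ I jj ρ)) := by
    have : (N : ℝ) * (1 - g) ≤ (N : ℝ) * (1 - av ((GG ζ Bd J).indicator (fun _ => 1))) :=
      mul_le_mul_of_nonneg_left (by linarith) (Nat.cast_nonneg _)
    linarith
  have e2 : l ≤ (N : ℝ) * (1 - g) - T * I.card := by
    have : T * I.card ≤ T * N := mul_le_mul_of_nonneg_left hcard hT0
    rw [hl]; linarith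
  have e3 : 2 * l * l ≤ 2 * l * ((N : ℝ) * (1 - av ((GG ζ Bd J).indicator
      (fun _ => 1))) - av ((GG ζ Bd J)ᶜ.indicator (sg ζ I jj ρ))) :=
    mul_le_mul_of_nonneg_left (e2.trans e1) (by positivity)
  have e4 : (N : ℝ) ^ 2 * (1 - (1 - T - g) ^ 2) = (N : ℝ) ^ 2 - l ^ 2 := by rw [hl]; ring
  rw [e4]
  nlinarith

end level

end Pool.Agent.H25.L2
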