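import Mathlib

/-! Taylor coefficients of `∏ (1 - a_j X)^{1/2}`. -/

set_option autoImplicit false

namespace Pool.Agent.H25.L2

open Complex MeasureTheory Metric Set

/-- Taylor series at `0` -/
noncomputable def Tay (f : ℂ → ℂ) : PowerSeries ℂ :=
  PowerSeries.mk fun k => iteratedDeriv k f 0 / (k.factorial : ℂ)

lemma Tay_mul {f g : ℂ → ℂ} (hf : AnalyticAt ℂ f 0) (hg : AnalyticAt ℂ g 0) :
    Tay (f * g) = Tay f * Tay g := by
  ext n
  unfold Tay
  rw [PowerSeries.coeff_mk, PowerSeries.coeff_mul,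
    iteratedDeriv_mul hf.contDiffAt hg.contDiffAt]
  simp only [PowerSeries.coeff_mk, Finset.Nat.sum_antidiagonal_eq_sum_range_succ_mk,
    Nat.succ_eq_add_one, Finset.sum_div]
  refine Finset.sum_congr rfl fun i hi => ?_
  rw [Nat.cast_choose _ (by grind)]
  field_simp [Nat.factorial_ne_zero]

lemma iteratedDeriv_lin (a : ℂ) (n : ℕ) :
    iteratedDeriv n (fun X : ℂ => 1 - a * X) 0 = if n = 0 then 1 else if n = 1 then -a else 0 := by
  have h1 : deriv (fun X : ℂ => 1 - a * X) = fun _ => -a := by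
    ext X
    have := ((hasDerivAt_id X).const_mul a).const_sub 1
    simpa using this.deriv
  rcases n with _ | _ | n
  · simp
  · rw [iteratedDeriv_one, h1]; simp
  · rw [iteratedDeriv_succ', h1, iteratedDeriv_succ']
    simp

lemma Tay_lin (a : ℂ) : Tay (fun X : ℂ => 1 - a * X) = 1 - PowerSeries.C a * PowerSeries.X := by
  ext n
  unfold Tay
  rw [PowerSeries.coeff_mk, iteratedDeriv_lin]
  rcases n with _ | _ | n
  · simp
  · simp
  · simp [PowerSeries.coeff_one]

section

variable {m : ℕ} (a : Fin m → ℂ)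

/-- domain of the principal branch -/
def Om : Set ℂ := {X | ∀ j, 1 - a j * X ∈ slitPlane}

/-- `∏ (1 - a_j X)^{1/2}` -/
noncomputable def sqf (X : ℂ) : ℂ := ∏ j, (1 - a j * X) ^ (((2 : ℕ) : ℂ)⁻¹)

lemma Om_open : IsOpen (Om a) := by
  have : Om a = ⋂ j, {X | 1 - a j * X ∈ slitPlane} := by
    ext X; simp [Om]
  rw [this]
  exact isOpen_iInter_of_finite fun j => isOpen_slitPlane.preimage (by fun_prop)

lemma zero_mem_Om : (0 : ℂ) ∈ Om a := by
  intro j; simp [one_mem_slitPlane]

lemma sqf_diff : DifferentiableOn ℂ (sqf a) (Om a) := by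
  intro X hX
  apply DifferentiableAt.differentiableWithinAt
  unfold sqf
  apply DifferentiableAt.fun_finsetProd
  intro j _
  exact DifferentiableAt.cpow_const (by fun_prop) (hX j)

lemma sqf_sq (X : ℂ) : sqf a X ^ 2 = ∏ j, (1 - a j * X) := by
  unfold sqf
  rw [← Finset.prod_pow]
  apply Finset.prod_congr rfl
  intro j _
  exact Complex.cpow_nat_inv_pow _ two_ne_zero

lemma sqf_analytic : AnalyticAt ℂ (sqf a) 0 :=
  (sqf_diff a).analyticAt ((Om_open a).mem_nhds (zero_mem_Om a))

lemma Tay_prod (s : Finset (Fin m)) : Tay (fun X => ∏ j ∈ s, (1 - a j * X))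
    = ∏ j ∈ s, (1 - PowerSeries.C (a j) * PowerSeries.X) := by
  classical
  induction s using Finset.induction_on with
  | empty =>
    simp only [Finset.prod_empty]
    have h := Tay_lin 0
    simp at h
    exact h
  | insert j s hj ih =>
    simp only [Finset.prod_insert hj]
    rw [← ih, ← Tay_lin (a j)]
    have h1 : AnalyticAt ℂ (fun X : ℂ => 1 - a j * X) 0 := by fun_prop
    have h2 : AnalyticAt ℂ (fun X : ℂ => ∏ j ∈ s, (1 - a j * X)) 0 := by
      apply Finset.analyticAt_fun_prod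
      intro i _
      fun_prop
    exact Tay_mul h1 h2

lemma Tay_sqf_sq : Tay (sqf a) ^ 2 = ∏ j, (1 - PowerSeries.C (a j) * PowerSeries.X) := by
  rw [pow_two, ← Tay_mul (sqf_analytic a) (sqf_analytic a), ← Tay_prod]
  congr 1
  ext X
  rw [Pi.mul_apply, ← pow_two, sqf_sq]

lemma Tay_sqf_zero : PowerSeries.constantCoeff (Tay (sqf a)) = 1 := by
  rw [← PowerSeries.coeff_zero_eq_constantCoeff_apply]
  unfold Tay
  rw [PowerSeries.coeff_mk]
  simp [sqf]

/-- uniqueness of the formal square root -/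
lemma eq_Tay_of_sq {F : PowerSeries ℂ} (hF0 : PowerSeries.constantCoeff F = 1)
    (hF : F ^ 2 = ∏ j, (1 - PowerSeries.C (a j) * PowerSeries.X)) : F = Tay (sqf a) := by
  have h1 : F ^ 2 = Tay (sqf a) ^ 2 := by rw [hF, Tay_sqf_sq]
  rcases sq_eq_sq_iff_eq_or_eq_neg.mp h1 with h | h
  · exact h
  · exfalso
    have := congrArg PowerSeries.constantCoeff h
    rw [map_neg, hF0, Tay_sqf_zero] at this
    norm_num at this

/-- Cauchy's formula on a small circle in logarithmic coordinates -/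
lemma cauchy_log {S : ℝ} (hS : ∀ X : ℂ, ‖X‖ ≤ Real.exp (-S) → X ∈ Om a) (n : ℕ) :
    ∫ θ in (0)..(2 * Real.pi), sqf a (Complex.exp (-((S : ℂ) + θ * I)))
        * Complex.exp ((S : ℂ) + θ * I) ^ n
      = 2 * Real.pi * (iteratedDeriv n (sqf a) 0 / (n.factorial : ℂ)) := by
  set R := Real.exp (-S) with hR
  have hR0 : 0 < R := Real.exp_pos _
  have hd : DifferentiableOn ℂ (sqf a) (closedBall 0 R) := by
    apply (sqf_diff a).mono
    intro X hX
    exact hS X (by simpa using hX)
  have hdc : DiffContOnCl ℂ (sqf a) (ball 0 R) := by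
    apply DifferentiableOn.diffContOnCl
    rw [closure_ball 0 hR0.ne']; exact hd
  have hC := hdc.circleIntegral_one_div_sub_center_pow_smul hR0 n
  rw [circleIntegral] at hC
  simp only [sub_zero, smul_eq_mul, deriv_circleMap] at hC
  have h1 : ∀ θ : ℝ, circleMap 0 R θ * I * (1 / circleMap 0 R θ ^ (n + 1) * sqf a (circleMap 0 R θ))
      = I * (sqf a (circleMap 0 R θ) * (circleMap 0 R θ)⁻¹ ^ n) := by
    intro θ
    have hne : circleMap 0 R θ ≠ 0 := circleMap_ne_center hR0.ne'
    rw [inv_pow, pow_succ]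
    field_simp
  simp only [h1] at hC
  rw [intervalIntegral.integral_const_mul] at hC
  have h2 : ∫ θ in (0)..(2 * Real.pi), sqf a (circleMap 0 R θ) * (circleMap 0 R θ)⁻¹ ^ n
      = 2 * Real.pi * (iteratedDeriv n (sqf a) 0 / (n.factorial : ℂ)) := by
    have hI : (I : ℂ) ≠ 0 := I_ne_zero
    apply mul_left_cancel₀ hI
    rw [hC]; ring
  rw [← h2]
  have h3 := intervalIntegral.integral_comp_sub_left
    (fun θ => sqf a (circleMap 0 R θ) * (circleMap 0 R θ)⁻¹ ^ n) (2 * Real.pi)
    (a := 0) (b := 2 * Real.pi)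
  rw [sub_self, sub_zero] at h3
  rw [← h3]
  apply intervalIntegral.integral_congr
  intro θ _
  simp only
  have e1 : circleMap 0 R (2 * Real.pi - θ) = Complex.exp (-((S : ℂ) + θ * I)) := by
    rw [circleMap_zero, hR, Complex.ofReal_exp, ← Complex.exp_add]
    have : ((-S : ℝ) : ℂ) + ((2 * Real.pi - θ : ℝ) : ℂ) * I
        = -((S : ℂ) + θ * I) + 2 * Real.pi * I := by push_cast; ring
    rw [this, Complex.exp_add, Complex.exp_two_pi_mul_I, mul_one]
  rw [e1, ← Complex.exp_neg, neg_neg]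

end

end Pool.Agent.H25.L2
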