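import Pool.Agent.H25.L2.Hedge3

/-! A smooth star-shaped curve around the hedgehog, close to it. -/

set_option autoImplicit false

namespace Pool.Agent.H25.L2

open Complex MeasureTheory Metric Set

/-- cosine of the angle between `e^{iθ}` and `ζ` -/
noncomputable def cj (ζ : ℂ) (θ : ℝ) : ℝ := Real.cos θ * ζ.re + Real.sin θ * ζ.im

lemma cj_eq (ζ : ℂ) (θ : ℝ) : cj ζ θ = (cu θ * (starRingEnd ℂ) ζ).re := by
  unfold cj cu
  rw [mul_re, conj_re, conj_im, exp_ofReal_mul_I_re, exp_ofReal_mul_I_im]; ring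

lemma norm_cu_sub_sq {ζ : ℂ} (hζ : ‖ζ‖ = 1) (θ : ℝ) : ‖cu θ - ζ‖ ^ 2 = 2 * (1 - cj ζ θ) := by
  rw [← normSq_eq_norm_sq, normSq_sub, normSq_eq_norm_sq, normSq_eq_norm_sq, norm_cu, hζ,
    ← cj_eq]; ring

lemma cj_le {ζ : ℂ} (hζ : ‖ζ‖ = 1) (θ : ℝ) : cj ζ θ ≤ 1 := by
  have := norm_cu_sub_sq hζ θ
  nlinarith [sq_nonneg ‖cu θ - ζ‖]

section

variable {m : ℕ} (ζ : Fin m → ℂ) (h : Fin m → ℝ) (T δ : ℝ)

/-- the smooth maximum -/
noncomputable def Wc (θ : ℝ) : ℝ :=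
  ∑ j, Real.exp (T * Real.log (Real.exp (h j) + δ) - T ^ 2 * (1 - cj (ζ j) θ))

/-- logarithm of the radial function -/
noncomputable def phc (θ : ℝ) : ℝ := Real.log (Wc ζ h T δ θ) / T

variable {ζ h T δ}

lemma Wc_pos (hm : 0 < m) (θ : ℝ) : 0 < Wc ζ h T δ θ := by
  unfold Wc
  have : Nonempty (Fin m) := ⟨⟨0, hm⟩⟩
  exact Finset.sum_pos (fun j _ => Real.exp_pos _) Finset.univ_nonempty

lemma phc_contDiff (hm : 0 < m) : ContDiff ℝ 1 (phc ζ h T δ) := by
  unfold phc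
  apply ContDiff.div_const
  apply ContDiff.log
  · unfold Wc cj
    fun_prop
  · intro θ; exact (Wc_pos hm θ).ne'

lemma phc_per : phc ζ h T δ (2 * Real.pi) = phc ζ h T δ 0 := by
  unfold phc Wc cj
  simp

/-- lower bound on a spike -/
lemma lt_phc (hT : 0 < T) (hδ : 0 < δ) {j : Fin m} {θ : ℝ} (hζ : ‖ζ j‖ = 1) (hc : cu θ = ζ j) :
    h j < phc ζ h T δ θ := by
  have hcj : cj (ζ j) θ = 1 := by
    have := norm_cu_sub_sq hζ θ
    rw [hc, sub_self, norm_zero] at this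
    linarith
  have hpos : 0 < Real.exp (h j) + δ := by positivity
  have hterm : Real.exp (T * Real.log (Real.exp (h j) + δ)) ≤ Wc ζ h T δ θ := by
    unfold Wc
    have := Finset.single_le_sum (f := fun j => Real.exp (T * Real.log (Real.exp (h j) + δ)
      - T ^ 2 * (1 - cj (ζ j) θ))) (fun j _ => (Real.exp_pos _).le) (Finset.mem_univ j)
    simp only [hcj, sub_self, mul_zero, sub_zero] at this
    exact this
  have h1 := Real.log_le_log (Real.exp_pos _) hterm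
  rw [Real.log_exp] at h1
  have h2 : h j < Real.log (Real.exp (h j) + δ) := by
    rw [Real.lt_log_iff_exp_lt hpos]; linarith
  unfold phc
  rw [lt_div_iff₀ hT]
  have h3 : h j * T < Real.log (Real.exp (h j) + δ) * T := mul_lt_mul_of_pos_right h2 hT
  linarith

/-- upper bound by the largest term -/
lemma exp_phc_le (hm : 0 < m) (hT : 0 < T) (hδ : 0 < δ) (θ : ℝ) : ∃ j,
    Real.exp (phc ζ h T δ θ) ≤ Real.exp (Real.log m / T)
      * ((Real.exp (h j) + δ) * Real.exp (-(T * (1 - cj (ζ j) θ)))) := by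
  have : Nonempty (Fin m) := ⟨⟨0, hm⟩⟩
  set g : Fin m → ℝ := fun j => Real.exp (T * Real.log (Real.exp (h j) + δ)
    - T ^ 2 * (1 - cj (ζ j) θ)) with hg
  obtain ⟨j, _, hj⟩ := Finset.exists_max_image Finset.univ g Finset.univ_nonempty
  refine ⟨j, ?_⟩
  have hm' : (0 : ℝ) < m := by exact_mod_cast hm
  have hpos : 0 < Real.exp (h j) + δ := by positivity
  have hW : Wc ζ h T δ θ ≤ m * g j := by
    have : Wc ζ h T δ θ = ∑ j, g j := rfl
    rw [this]
    refine (Finset.sum_le_card_nsmul Finset.univ g (g j) hj).trans ?_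
    simp
  have hgpos : 0 < g j := Real.exp_pos _
  have h1 := Real.log_le_log (Wc_pos hm θ) hW
  rw [Real.log_mul hm'.ne' hgpos.ne'] at h1
  have h2 : Real.log (g j) = T * Real.log (Real.exp (h j) + δ) - T ^ 2 * (1 - cj (ζ j) θ) :=
    Real.log_exp _
  rw [h2] at h1
  have h3 : phc ζ h T δ θ ≤ Real.log m / T + Real.log (Real.exp (h j) + δ)
      + -(T * (1 - cj (ζ j) θ)) := by
    unfold phc
    rw [div_le_iff₀ hT]
    have : (Real.log m / T + Real.log (Real.exp (h j) + δ) + -(T * (1 - cj (ζ j) θ))) * T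
        = Real.log m + (T * Real.log (Real.exp (h j) + δ) - T ^ 2 * (1 - cj (ζ j) θ)) := by
      field_simp
      ring
    rw [this]; exact h1
  calc Real.exp (phc ζ h T δ θ) ≤ Real.exp (Real.log m / T + Real.log (Real.exp (h j) + δ)
      + -(T * (1 - cj (ζ j) θ))) := Real.exp_le_exp.mpr h3
    _ = _ := by
      rw [Real.exp_add, Real.exp_add, Real.exp_log hpos]; ring

lemma exp_mul_norm_le {v T : ℝ} (hT : 0 < T) (hv : 0 ≤ v) :
    Real.exp (-(T * v)) * Real.sqrt (2 * v) ≤ 1 / Real.sqrt T := by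
  have hs : 0 < Real.sqrt T := Real.sqrt_pos.mpr hT
  rw [le_div_iff₀ hs, Real.exp_neg, mul_assoc, ← Real.sqrt_mul (by positivity),
    inv_mul_le_iff₀ (Real.exp_pos _), mul_one]
  have h1 : Real.sqrt (2 * v * T) ≤ 1 + T * v := by
    apply Real.sqrt_le_iff.mpr
    constructor
    · positivity
    · nlinarith [sq_nonneg (T * v), mul_nonneg hT.le hv]
  linarith [Real.add_one_le_exp (T * v)]

end

/-- existence of the curve -/
theorem exists_curve {m : ℕ} (hm : 0 < m) {ζ : Fin m → ℂ} (hζ : ∀ j, ‖ζ j‖ = 1) (h : Fin m → ℝ)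
    {ε : ℝ} (hε : 0 < ε) :
    ∃ φ : ℝ → ℝ, ContDiff ℝ 1 φ ∧ φ (2 * Real.pi) = φ 0 ∧
      (∀ θ : ℝ, Complex.exp ((φ θ : ℂ) + θ * I) ∈ thickening ε (hedge ζ h)) ∧
      ∀ (θ : ℝ) (j : Fin m), cu θ = ζ j → h j < φ θ := by
  set R : ℝ := ∑ j, Real.exp (h j) with hR
  have hR0 : 0 ≤ R := Finset.sum_nonneg fun j _ => (Real.exp_pos _).le
  have hRj : ∀ j, Real.exp (h j) ≤ R := fun j =>
    Finset.single_le_sum (fun j _ => (Real.exp_pos _).le) (Finset.mem_univ j)
  set δ := min 1 (ε / 4) with hδ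
  have hδ0 : 0 < δ := lt_min one_pos (by positivity)
  have hδ1 : δ ≤ 1 := min_le_left _ _
  have hδ2 : δ ≤ ε / 4 := min_le_right _ _
  -- choice of `T`
  obtain ⟨T, hT0, hT⟩ : ∃ T : ℝ, 0 < T ∧ (Real.exp (Real.log m / T) - 1) * (R + 1)
      + Real.exp (Real.log m / T) * (R + 1) * (1 / Real.sqrt T) < ε / 2 := by
    have h1 : Filter.Tendsto (fun T : ℝ => Real.exp (Real.log m / T)) Filter.atTop
        (nhds 1) := by
      have h2 : Filter.Tendsto (fun T : ℝ => Real.log m / T) Filter.atTop (nhds 0) :=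
        Filter.Tendsto.div_atTop tendsto_const_nhds Filter.tendsto_id
      have h3 := (Real.continuous_exp.tendsto 0).comp h2
      rw [Real.exp_zero] at h3
      exact h3
    have h4 : Filter.Tendsto (fun T : ℝ => 1 / Real.sqrt T) Filter.atTop (nhds 0) :=
      Filter.Tendsto.div_atTop tendsto_const_nhds Real.tendsto_sqrt_atTop
    have h5 : Filter.Tendsto (fun T : ℝ => (Real.exp (Real.log m / T) - 1) * (R + 1)
        + Real.exp (Real.log m / T) * (R + 1) * (1 / Real.sqrt T)) Filter.atTop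
        (nhds ((1 - 1) * (R + 1) + 1 * (R + 1) * 0)) :=
      ((h1.sub_const 1).mul_const (R + 1)).add ((h1.mul_const (R + 1)).mul h4)
    have h6 : (1 - 1) * (R + 1) + 1 * (R + 1) * 0 = 0 := by ring
    rw [h6] at h5
    have h7 := (h5.eventually (gt_mem_nhds (show (0 : ℝ) < ε / 2 by positivity))).and
      (Filter.eventually_gt_atTop (0 : ℝ))
    obtain ⟨T, hT⟩ := h7.exists
    exact ⟨T, hT.2, hT.1⟩
  refine ⟨phc ζ h T δ, phc_contDiff hm, phc_per, ?_, fun θ j hc => lt_phc hT0 hδ0 (hζ j) hc⟩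
  intro θ
  obtain ⟨j, hj⟩ := exp_phc_le (ζ := ζ) (h := h) hm hT0 hδ0 θ
  set ρ := Real.exp (phc ζ h T δ θ) with hρ
  have hρ0 : 0 < ρ := Real.exp_pos _
  set κ := Real.exp (Real.log m / T) with hκ
  have hκ0 : 0 < κ := Real.exp_pos _
  have hκ1 : 1 ≤ κ := by
    rw [hκ, ← Real.exp_zero]
    apply Real.exp_le_exp.mpr
    apply div_nonneg _ hT0.le
    exact Real.log_nonneg (by exact_mod_cast hm)
  set E := Real.exp (h j) with hE
  have hE0 : 0 < E := Real.exp_pos _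
  have hw : Complex.exp ((phc ζ h T δ θ : ℂ) + θ * I) = ρ * cu θ := by
    rw [Complex.exp_add, hρ, Complex.ofReal_exp]; rfl
  rw [hw, mem_thickening_iff]
  refine ⟨(min ρ E : ℝ) * ζ j, ⟨j, min ρ E, le_min hρ0.le hE0.le, min_le_right _ _, rfl⟩, ?_⟩
  rw [dist_eq_norm]
  have hsplit : (ρ : ℂ) * cu θ - ((min ρ E : ℝ) : ℂ) * ζ j
      = ((ρ - min ρ E : ℝ) : ℂ) * ζ j + (ρ : ℂ) * (cu θ - ζ j) := by
    push_cast; ring
  rw [hsplit]
  refine lt_of_le_of_lt (norm_add_le _ _) ?_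
  have hmin : 0 ≤ ρ - min ρ E := by linarith [min_le_left ρ E]
  rw [norm_mul, norm_mul, hζ, mul_one, norm_real, norm_real, Real.norm_of_nonneg hmin,
    Real.norm_of_nonneg hρ0.le]
  set v := 1 - cj (ζ j) θ with hv
  have hv0 : 0 ≤ v := by linarith [cj_le (hζ j) θ]
  have hnorm : ‖cu θ - ζ j‖ = Real.sqrt (2 * v) := by
    rw [← norm_cu_sub_sq (hζ j) θ, Real.sqrt_sq (norm_nonneg _)]
  have hexp1 : Real.exp (-(T * v)) ≤ 1 := by
    rw [← Real.exp_zero]; exact Real.exp_le_exp.mpr (by nlinarith [mul_nonneg hT0.le hv0])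
  have hEδ : E + δ ≤ R + 1 := by linarith [hRj j]
  have hρle : ρ ≤ κ * (E + δ) := by
    refine hj.trans ?_
    apply mul_le_mul_of_nonneg_left _ hκ0.le
    calc (E + δ) * Real.exp (-(T * v)) ≤ (E + δ) * 1 :=
        mul_le_mul_of_nonneg_left hexp1 (by positivity)
      _ = E + δ := mul_one _
  have hfirst : ρ - min ρ E ≤ (κ - 1) * (R + 1) + δ := by
    rcases le_total ρ E with hle | hle
    · rw [min_eq_left hle, sub_self]
      have : 0 ≤ (κ - 1) * (R + 1) := mul_nonneg (by linarith) (by linarith)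
      linarith
    · rw [min_eq_right hle]
      have : (κ - 1) * (E + δ) ≤ (κ - 1) * (R + 1) :=
        mul_le_mul_of_nonneg_left hEδ (by linarith)
      linarith
  have hsecond : ρ * ‖cu θ - ζ j‖ ≤ κ * (R + 1) * (1 / Real.sqrt T) := by
    rw [hnorm]
    calc ρ * Real.sqrt (2 * v)
        ≤ κ * ((E + δ) * Real.exp (-(T * v))) * Real.sqrt (2 * v) :=
          mul_le_mul_of_nonneg_right hj (Real.sqrt_nonneg _)
      _ = κ * (E + δ) * (Real.exp (-(T * v)) * Real.sqrt (2 * v)) := by ring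
      _ ≤ κ * (E + δ) * (1 / Real.sqrt T) :=
          mul_le_mul_of_nonneg_left (exp_mul_norm_le hT0 hv0) (by positivity)
      _ ≤ κ * (R + 1) * (1 / Real.sqrt T) := by
          apply mul_le_mul_of_nonneg_right _ (by positivity)
          exact mul_le_mul_of_nonneg_left hEδ hκ0.le
  linarith

/-- the hedgehog is compact -/
lemma hedge_compact {m : ℕ} (ζ : Fin m → ℂ) (h : Fin m → ℝ) : IsCompact (hedge ζ h) := by
  have : hedge ζ h = ⋃ j : Fin m, (fun t : ℝ => (t : ℂ) * ζ j) '' Icc 0 (Real.exp (h j)) := by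
    ext z
    simp only [hedge, mem_iUnion, mem_image, mem_Icc]
    constructor
    · rintro ⟨j, t, h0, h1, rfl⟩; exact ⟨j, t, ⟨h0, h1⟩, rfl⟩
    · rintro ⟨j, t, ⟨h0, h1⟩, rfl⟩; exact ⟨j, t, h0, h1, rfl⟩
  rw [this]
  exact isCompact_iUnion fun j => isCompact_Icc.image (by fun_prop)

/-- thickening of the hedgehog keeps the Vandermonde products `< 1` -/
theorem exists_thick {m : ℕ} (hm : 2 ≤ m) {ζ : Fin m → ℂ} (hζ : ∀ j, ‖ζ j‖ = 1) {h : Fin m → ℝ}
    (hh : ∀ j, 0 ≤ h j) (hS : ∑ j, h j ^ 2 ≤ 1 / (40 * m)) :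
    ∃ N : ℕ, ∃ ε : ℝ, 0 < ε ∧
      ∀ z : Fin N → ℂ, (∀ i, z i ∈ thickening ε (hedge ζ h)) → VV z < 1 := by
  obtain ⟨N, hN⟩ := hedge_VV hm hζ hh hS
  have hK : IsCompact (Set.pi (univ : Set (Fin N)) fun _ => hedge ζ h) :=
    isCompact_univ_pi fun _ => hedge_compact ζ h
  have hO : IsOpen {z : Fin N → ℂ | VV z < 1} := isOpen_lt (VV_continuous N) continuous_const
  have hsub : (Set.pi (univ : Set (Fin N)) fun _ => hedge ζ h) ⊆ {z : Fin N → ℂ | VV z < 1} := by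
    intro z hz
    have h1 := hN z (fun i => hz i (mem_univ i))
    have h2 : Real.exp (-1) < 1 := by
      rw [← Real.exp_zero]; exact Real.exp_lt_exp.mpr (by norm_num)
    exact lt_of_le_of_lt h1 h2
  obtain ⟨ε, hε, hthick⟩ := hK.exists_thickening_subset_open hO hsub
  refine ⟨N, ε, hε, fun z hz => ?_⟩
  apply hthick
  rw [mem_thickening_iff]
  choose k hk hdist using fun i => mem_thickening_iff.mp (hz i)
  exact ⟨k, fun i _ => hk i, (dist_pi_lt_iff hε).mpr hdist⟩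

end Pool.Agent.H25.L2
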