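import Pool.Agent.H25.L2.Hedge3

/-! From small Vandermonde products to a monic polynomial of small norm, and to small Hankel
determinants. -/

set_option autoImplicit false

namespace Pool.Agent.H25.L2

open Complex MeasureTheory Metric Set Polynomial

lemma VV_eq_ite {N : ℕ} (z : Fin N → ℂ) :
    VV z = ∏ i, ∏ k, (if k = i then 1 else ‖z i - z k‖) := by
  unfold VV
  apply Finset.prod_congr rfl
  intro i _
  rw [← Finset.mul_prod_erase Finset.univ (fun k => if k = i then (1 : ℝ) else ‖z i - z k‖)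
    (Finset.mem_univ i)]
  rw [if_pos rfl, one_mul]
  apply Finset.prod_congr rfl
  intro k hk
  rw [if_neg (Finset.ne_of_mem_erase hk)]

lemma VV_snoc {N : ℕ} (z : Fin N → ℂ) (w : ℂ) :
    VV (Fin.snoc z w : Fin (N + 1) → ℂ) = VV z * (∏ i, ‖w - z i‖) ^ 2 := by
  rw [VV_eq_ite, VV_eq_ite, Fin.prod_univ_castSucc]
  have h1 : ∀ i : Fin N, ∏ k : Fin (N + 1), (if k = Fin.castSucc i then (1 : ℝ) else
      ‖(Fin.snoc z w : Fin (N + 1) → ℂ) (Fin.castSucc i) - (Fin.snoc z w : Fin (N + 1) → ℂ) k‖)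
      = (∏ k : Fin N, (if k = i then 1 else ‖z i - z k‖)) * ‖w - z i‖ := by
    intro i
    rw [Fin.prod_univ_castSucc]
    congr 1
    · apply Finset.prod_congr rfl
      intro k _
      simp only [Fin.snoc_castSucc, Fin.castSucc_inj]
    · rw [if_neg (Fin.castSucc_lt_last i).ne']
      simp only [Fin.snoc_castSucc, Fin.snoc_last]
      rw [norm_sub_rev]
  have h2 : ∏ k : Fin (N + 1), (if k = Fin.last N then (1 : ℝ) else
      ‖(Fin.snoc z w : Fin (N + 1) → ℂ) (Fin.last N) - (Fin.snoc z w : Fin (N + 1) → ℂ) k‖)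
      = ∏ i, ‖w - z i‖ := by
    rw [Fin.prod_univ_castSucc, if_pos rfl, mul_one]
    apply Finset.prod_congr rfl
    intro k _
    rw [if_neg (Fin.castSucc_lt_last k).ne]
    simp only [Fin.snoc_castSucc, Fin.snoc_last]
  rw [Finset.prod_congr rfl (fun i _ => h1 i), h2, Finset.prod_mul_distrib]
  ring

/-- a monic polynomial with norm `< 1` -/
theorem exists_monic_small {Γ : Set ℂ} (hΓ : IsCompact Γ) (hne : Γ.Nonempty) {N : ℕ}
    (hV : ∀ z : Fin N → ℂ, (∀ i, z i ∈ Γ) → VV z < 1) :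
    ∃ p : ℂ[X], p.Monic ∧ 0 < p.natDegree ∧ ∃ ρ : ℝ, 0 ≤ ρ ∧ ρ < 1 ∧ ∀ z ∈ Γ, ‖p.eval z‖ ≤ ρ := by
  -- maximisers
  have hmax : ∀ k : ℕ, ∃ z : Fin k → ℂ, (∀ i, z i ∈ Γ) ∧
      ∀ w : Fin k → ℂ, (∀ i, w i ∈ Γ) → VV w ≤ VV z := by
    intro k
    have hK : IsCompact (Set.pi (univ : Set (Fin k)) fun _ => Γ) := isCompact_univ_pi fun _ => hΓ
    obtain ⟨c, hc⟩ := hne
    obtain ⟨z, hz, hz2⟩ := hK.exists_isMaxOn ⟨fun _ => c, fun _ _ => hc⟩
      (VV_continuous k).continuousOn
    exact ⟨z, fun i => hz i (mem_univ i), fun w hw => hz2 (fun i _ => hw i)⟩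
  choose z hz hzmax using hmax
  set M : ℕ → ℝ := fun k => VV (z k) with hM
  have hM0 : M 0 = 1 := by simp [hM, VV]
  have hMN : M N < 1 := hV (z N) (hz N)
  -- a drop
  obtain ⟨k, hk⟩ : ∃ k, M (k + 1) < M k := by
    by_contra hcon
    push Not at hcon
    have : ∀ k, M 0 ≤ M k := by
      intro k
      induction k with
      | zero => exact le_rfl
      | succ k ih => exact ih.trans (hcon k)
    have := this N
    rw [hM0] at this
    linarith
  have hMk1 : 0 ≤ M (k + 1) := VV_nonneg _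
  have hMk : 0 < M k := lt_of_le_of_lt hMk1 hk
  set p : ℂ[X] := ∏ i, (X - C (z k i)) with hp
  have hpm : p.Monic := monic_prod_of_monic _ _ fun i _ => monic_X_sub_C _
  have heval : ∀ w, ‖p.eval w‖ = ∏ i, ‖w - z k i‖ := by
    intro w
    rw [hp, eval_prod, norm_prod]
    simp
  have hbound : ∀ w ∈ Γ, ‖p.eval w‖ ^ 2 ≤ M (k + 1) / M k := by
    intro w hw
    rw [le_div_iff₀ hMk, heval, mul_comm]
    have := hzmax (k + 1) (Fin.snoc (z k) w) (by
      intro i
      refine Fin.lastCases ?_ (fun j => ?_) i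
      · rw [Fin.snoc_last]; exact hw
      · rw [Fin.snoc_castSucc]; exact hz k j)
    rw [VV_snoc] at this
    exact this
  have hratio : M (k + 1) / M k < 1 := (div_lt_one hMk).mpr hk
  have hratio0 : 0 ≤ M (k + 1) / M k := div_nonneg hMk1 hMk.le
  refine ⟨p, hpm, ?_, Real.sqrt (M (k + 1) / M k), Real.sqrt_nonneg _, ?_, ?_⟩
  · by_contra h0
    have h0' : p.natDegree = 0 := by omega
    obtain ⟨c, hc⟩ := hne
    have h1 := hbound c hc
    rw [hpm.natDegree_eq_zero.mp h0'] at h1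
    simp at h1
    linarith
  · rw [Real.sqrt_lt' one_pos, one_pow]; exact hratio
  · intro w hw
    exact Real.le_sqrt_of_sq_le (hbound w hw)

/-- linear functional with moments `b` -/
noncomputable def Lf (b : ℕ → ℂ) : ℂ[X] →ₗ[ℂ] ℂ :=
  Polynomial.lsum (fun k => b k • LinearMap.id)

lemma Lf_apply (b : ℕ → ℂ) (g : ℂ[X]) : Lf b g = g.sum fun k c => b k * c := by
  unfold Lf
  rw [Polynomial.lsum_apply]
  rfl

lemma Lf_monomial (b : ℕ → ℂ) (k : ℕ) (c : ℂ) : Lf b (C c * X ^ k) = c * b k := by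
  rw [Lf_apply, C_mul_X_pow_eq_monomial, sum_monomial_index _ _ (by simp), mul_comm]

/-- change of basis in a Hankel determinant -/
lemma hankel_basis (b : ℕ → ℂ) (q : ℕ → ℂ[X]) (hq : ∀ i, (q i).Monic)
    (hd : ∀ i, (q i).natDegree = i) (N : ℕ) :
    (Matrix.of fun i j : Fin N => b ((i : ℕ) + j)).det
      = (Matrix.of fun i j : Fin N => Lf b (q i * q j)).det := by
  set A : Matrix (Fin N) (Fin N) ℂ := Matrix.of fun i k => (q i).coeff k with hA
  have hdet : A.det = 1 := by
    rw [Matrix.det_of_isLowerTriangular]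
    · apply Finset.prod_eq_one
      intro i _
      simp only [hA, Matrix.of_apply]
      have := (hq i).coeff_natDegree
      rwa [hd] at this
    · intro i j hij
      simp only [hA, Matrix.of_apply]
      apply coeff_eq_zero_of_natDegree_lt
      rw [hd]
      exact hij
  have hmul : (Matrix.of fun i j : Fin N => Lf b (q i * q j))
      = A * (Matrix.of fun i j : Fin N => b ((i : ℕ) + j)) * A.transpose := by
    ext i j
    rw [Matrix.of_apply, Matrix.mul_apply]
    simp only [Matrix.mul_apply, Matrix.transpose_apply, hA, Matrix.of_apply]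
    have hexp : ∀ l : Fin N, q l = ∑ k : Fin N, C ((q l).coeff k) * X ^ (k : ℕ) := by
      intro l
      conv_lhs => rw [as_sum_range_C_mul_X_pow' (q l) (show (q l).natDegree < N by
        rw [hd]; exact l.2)]
      rw [Finset.sum_range]
    conv_lhs => rw [hexp i, hexp j]
    rw [Finset.sum_mul_sum, map_sum]
    simp_rw [map_sum]
    have hterm : ∀ k l : Fin N, Lf b (C ((q i).coeff k) * X ^ (k : ℕ)
        * (C ((q j).coeff l) * X ^ (l : ℕ)))
        = (q i).coeff k * b ((k : ℕ) + l) * (q j).coeff l := by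
      intro k l
      have e : C ((q i).coeff k) * X ^ (k : ℕ) * (C ((q j).coeff l) * X ^ (l : ℕ))
          = C ((q i).coeff k * (q j).coeff l) * X ^ ((k : ℕ) + l) := by
        rw [C_mul, pow_add]; ring
      rw [e, Lf_monomial]; ring
    simp_rw [hterm]
    rw [Finset.sum_comm]
    apply Finset.sum_congr rfl
    intro l _
    rw [Finset.sum_mul]
  rw [hmul, Matrix.det_mul, Matrix.det_mul, Matrix.det_transpose, hdet]
  ring

end Pool.Agent.H25.L2
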