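import Mathlib

/-! Deformation of the contour in logarithmic coordinates. -/

set_option autoImplicit false

namespace Pool.Agent.H25.L2

open Complex MeasureTheory Metric Set

/-- the deformation -/
noncomputable def Zf (φ : ℝ → ℝ) (S t θ : ℝ) : ℂ := (((1 - t) * φ θ + t * S : ℝ) : ℂ) + θ * I

/-- common derivative -/
noncomputable def Ef (G : ℂ → ℂ) (φ φ' : ℝ → ℝ) (S t θ : ℝ) : ℂ :=
  deriv G (Zf φ S t θ) * ((S - φ θ : ℝ) : ℂ) * ((((1 - t) * φ' θ : ℝ) : ℂ) + I)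
    + G (Zf φ S t θ) * (-(φ' θ : ℝ) : ℂ)

variable {G : ℂ → ℂ} {D : Set ℂ} {φ φ' : ℝ → ℝ} {S : ℝ}

lemma Zf_mem (hup : ∀ z ∈ D, ∀ t : ℝ, 0 ≤ t → z + t ∈ D) (hS : ∀ θ, φ θ ≤ S)
    (hmem : ∀ θ : ℝ, (φ θ : ℂ) + θ * I ∈ D) {t : ℝ} (ht : 0 ≤ t) (θ : ℝ) :
    Zf φ S t θ ∈ D := by
  have h1 := hup _ (hmem θ) (t * (S - φ θ)) (mul_nonneg ht (by linarith [hS θ]))
  have h2 : Zf φ S t θ = (φ θ : ℂ) + θ * I + ((t * (S - φ θ) : ℝ) : ℂ) := by
    unfold Zf; push_cast; ring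
  rw [h2]; exact h1

lemma hasDerivAt_t (hG : ∀ z ∈ D, HasDerivAt G (deriv G z) z) {t θ : ℝ} (hZ : Zf φ S t θ ∈ D) :
    HasDerivAt (fun t => G (Zf φ S t θ) * ((((1 - t) * φ' θ : ℝ) : ℂ) + I))
      (Ef G φ φ' S t θ) t := by
  have hz : HasDerivAt (fun t => Zf φ S t θ) ((S - φ θ : ℝ) : ℂ) t := by
    unfold Zf
    have h1 : HasDerivAt (fun t : ℝ => (1 - t) * φ θ + t * S) (S - φ θ) t := by
      have h2 := (((hasDerivAt_id t).const_sub 1).mul_const (φ θ)).add
        ((hasDerivAt_id t).mul_const S)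
      refine h2.congr_deriv ?_
      ring
    exact h1.ofReal_comp.add_const _
  have hg : HasDerivAt (fun t => G (Zf φ S t θ)) (deriv G (Zf φ S t θ) * ((S - φ θ : ℝ) : ℂ)) t :=
    (hG _ hZ).comp t hz
  have hl : HasDerivAt (fun t : ℝ => (((1 - t) * φ' θ : ℝ) : ℂ) + I) (-(φ' θ : ℝ) : ℂ) t := by
    have h1 : HasDerivAt (fun t : ℝ => (1 - t) * φ' θ) (-(φ' θ)) t := by
      have h2 := ((hasDerivAt_id t).const_sub 1).mul_const (φ' θ)
      refine h2.congr_deriv ?_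
      ring
    have h3 := h1.ofReal_comp.add_const I
    refine h3.congr_deriv ?_
    push_cast; ring
  exact hg.mul hl

lemma hasDerivAt_θ (hG : ∀ z ∈ D, HasDerivAt G (deriv G z) z)
    (hφ : ∀ θ, HasDerivAt φ (φ' θ) θ) {t θ : ℝ} (hZ : Zf φ S t θ ∈ D) :
    HasDerivAt (fun θ => G (Zf φ S t θ) * ((S - φ θ : ℝ) : ℂ)) (Ef G φ φ' S t θ) θ := by
  have hz : HasDerivAt (fun θ => Zf φ S t θ) ((((1 - t) * φ' θ : ℝ) : ℂ) + I) θ := by
    unfold Zf
    have h1 : HasDerivAt (fun θ : ℝ => (1 - t) * φ θ + t * S) ((1 - t) * φ' θ) θ :=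
      ((hφ θ).const_mul (1 - t)).add_const _
    have h2 : HasDerivAt (fun θ : ℝ => (θ : ℂ) * I) I θ := by
      have := (hasDerivAt_id θ).ofReal_comp.mul_const I
      simpa using this
    exact h1.ofReal_comp.add h2
  have hg : HasDerivAt (fun θ => G (Zf φ S t θ))
      (deriv G (Zf φ S t θ) * ((((1 - t) * φ' θ : ℝ) : ℂ) + I)) θ := (hG _ hZ).comp θ hz
  have hl : HasDerivAt (fun θ : ℝ => ((S - φ θ : ℝ) : ℂ)) (-(φ' θ : ℝ) : ℂ) θ := by
    have h3 := ((hφ θ).const_sub S).ofReal_comp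
    refine h3.congr_deriv ?_
    push_cast; ring
  have h4 := hg.mul hl
  refine h4.congr_deriv ?_
  unfold Ef
  ring

theorem homotopy (hD : IsOpen D) (hup : ∀ z ∈ D, ∀ t : ℝ, 0 ≤ t → z + t ∈ D)
    (hG : DifferentiableOn ℂ G D) (hper : ∀ z, G (z + 2 * Real.pi * I) = G z)
    (hφ : ∀ θ, HasDerivAt φ (φ' θ) θ) (hφ' : Continuous φ') (hφper : φ (2 * Real.pi) = φ 0)
    (hS : ∀ θ, φ θ ≤ S) (hmem : ∀ θ : ℝ, (φ θ : ℂ) + θ * I ∈ D) :
    ∫ θ in (0)..(2 * Real.pi), G ((φ θ : ℂ) + θ * I) * ((φ' θ : ℂ) + I)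
      = ∫ θ in (0)..(2 * Real.pi), G ((S : ℂ) + θ * I) * I := by
  have hGd : ∀ z ∈ D, HasDerivAt G (deriv G z) z := fun z hz =>
    (hG.differentiableAt (hD.mem_nhds hz)).hasDerivAt
  have hφc : Continuous φ := continuous_iff_continuousAt.mpr fun θ => (hφ θ).continuousAt
  have hZc : Continuous (fun p : ℝ × ℝ => Zf φ S p.1 p.2) := by
    unfold Zf; fun_prop
  have hGc : ContinuousOn G D := hG.continuousOn
  have hG'c : ContinuousOn (deriv G) D := (hG.deriv hD).continuousOn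
  -- continuity of the common derivative
  have hEc : ContinuousOn (fun p : ℝ × ℝ => Ef G φ φ' S p.1 p.2) (Ici 0 ×ˢ univ) := by
    have hmaps : MapsTo (fun p : ℝ × ℝ => Zf φ S p.1 p.2) (Ici 0 ×ˢ univ) D := by
      rintro ⟨t, θ⟩ ⟨ht, _⟩
      exact Zf_mem hup hS hmem ht θ
    have h1 := hGc.comp hZc.continuousOn hmaps
    have h2 := hG'c.comp hZc.continuousOn hmaps
    unfold Ef
    simp only [Function.comp_def] at h1 h2
    refine ContinuousOn.add (ContinuousOn.mul (h2.mul ?_) ?_) (h1.mul ?_)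
    · apply Continuous.continuousOn; fun_prop
    · apply Continuous.continuousOn; fun_prop
    · apply Continuous.continuousOn; fun_prop
  have hEint : IntegrableOn (Function.uncurry (Ef G φ φ' S))
      (uIoc 0 1 ×ˢ uIoc 0 (2 * Real.pi)) := by
    have hcomp : IsCompact ((Icc (0 : ℝ) 1) ×ˢ (Icc 0 (2 * Real.pi))) :=
      isCompact_Icc.prod isCompact_Icc
    have h1 : IntegrableOn (Function.uncurry (Ef G φ φ' S))
        ((Icc (0 : ℝ) 1) ×ˢ (Icc 0 (2 * Real.pi))) := by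
      apply ContinuousOn.integrableOn_compact hcomp
      apply hEc.mono
      rintro ⟨t, θ⟩ ⟨ht, _⟩
      exact ⟨ht.1, mem_univ _⟩
    apply h1.mono_set
    rw [uIoc_of_le zero_le_one, uIoc_of_le (by positivity)]
    exact prod_mono Ioc_subset_Icc_self Ioc_subset_Icc_self
  have hswap := intervalIntegral_intervalIntegral_swap hEint
  -- inner integral in `θ`
  have hleft : ∀ t ∈ Icc (0 : ℝ) 1, ∫ θ in (0)..(2 * Real.pi), Ef G φ φ' S t θ = 0 := by
    intro t ht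
    rw [intervalIntegral.integral_eq_sub_of_hasDerivAt
      (f := fun θ => G (Zf φ S t θ) * ((S - φ θ : ℝ) : ℂ))]
    · have e : Zf φ S t (2 * Real.pi) = Zf φ S t 0 + 2 * Real.pi * I := by
        unfold Zf; rw [hφper]; push_cast; ring
      rw [e, hper, hφper]; ring
    · intro θ _
      exact hasDerivAt_θ hGd hφ (Zf_mem hup hS hmem ht.1 θ)
    · apply ContinuousOn.intervalIntegrable
      have : (Ef G φ φ' S t)
          = (fun p : ℝ × ℝ => Ef G φ φ' S p.1 p.2) ∘ (fun θ => (t, θ)) := rfl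
      rw [this]
      apply hEc.comp (by fun_prop)
      intro θ _
      exact ⟨ht.1, mem_univ _⟩
  have hright : ∀ θ : ℝ, ∫ t in (0)..1, Ef G φ φ' S t θ
      = G ((S : ℂ) + θ * I) * I - G ((φ θ : ℂ) + θ * I) * ((φ' θ : ℂ) + I) := by
    intro θ
    rw [intervalIntegral.integral_eq_sub_of_hasDerivAt
      (f := fun t => G (Zf φ S t θ) * ((((1 - t) * φ' θ : ℝ) : ℂ) + I))]
    · have e1 : Zf φ S 1 θ = (S : ℂ) + θ * I := by unfold Zf; push_cast; ring
      have e0 : Zf φ S 0 θ = (φ θ : ℂ) + θ * I := by unfold Zf; push_cast; ring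
      rw [e1, e0]; push_cast; ring
    · intro t ht
      rw [uIcc_of_le zero_le_one] at ht
      exact hasDerivAt_t hGd (Zf_mem hup hS hmem ht.1 θ)
    · apply ContinuousOn.intervalIntegrable
      rw [uIcc_of_le zero_le_one]
      have : (fun t => Ef G φ φ' S t θ)
          = (fun p : ℝ × ℝ => Ef G φ φ' S p.1 p.2) ∘ (fun t => (t, θ)) := rfl
      rw [this]
      apply hEc.comp (by fun_prop)
      intro t ht
      exact ⟨ht.1, mem_univ _⟩
  have h0 : ∫ t in (0 : ℝ)..1, ∫ θ in (0)..(2 * Real.pi), Ef G φ φ' S t θ = 0 := by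
    rw [intervalIntegral.integral_congr (g := fun _ => 0)]
    · simp
    · intro t ht
      rw [uIcc_of_le zero_le_one] at ht
      exact hleft t ht
  rw [h0] at hswap
  simp only [hright] at hswap
  have hc1 : Continuous (fun θ : ℝ => G ((S : ℂ) + θ * I) * I) := by
    have hm : ∀ θ : ℝ, (S : ℂ) + θ * I ∈ D := by
      intro θ
      have := Zf_mem hup hS hmem zero_le_one θ
      have e1 : Zf φ S 1 θ = (S : ℂ) + θ * I := by unfold Zf; push_cast; ring
      rwa [e1] at this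
    have : Continuous (fun θ : ℝ => G ((S : ℂ) + θ * I)) :=
      hGc.comp_continuous (by fun_prop) hm
    exact this.mul continuous_const
  have hc2 : Continuous (fun θ : ℝ => G ((φ θ : ℂ) + θ * I) * ((φ' θ : ℂ) + I)) := by
    have : Continuous (fun θ : ℝ => G ((φ θ : ℂ) + θ * I)) :=
      hGc.comp_continuous (by fun_prop) hmem
    exact this.mul (by fun_prop)
  rw [intervalIntegral.integral_sub (hc1.intervalIntegrable _ _) (hc2.intervalIntegrable _ _)]
    at hswap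
  exact (sub_eq_zero.mp hswap.symm).symm

end Pool.Agent.H25.L2
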