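import Pool.Agent.H25.L2.Coef
import Pool.Agent.H25.L2.Homot
import Pool.Agent.H25.L2.Curve
import Pool.Agent.H25.L2.Fekete

/-! The functional with moments the Taylor coefficients of `∏ (1 - a_j X)^{1/2}` is bounded by
the sup norm on a curve close to the hedgehog. -/

set_option autoImplicit false

namespace Pool.Agent.H25.L2

open Complex MeasureTheory Metric Set Polynomial

lemma not_slit {w : ℂ} (h : 1 - w ∉ slitPlane) : 1 ≤ w.re ∧ w.im = 0 := by
  rw [mem_slitPlane_iff] at h
  push Not at h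
  obtain ⟨h1, h2⟩ := h
  simp at h1 h2
  exact ⟨by linarith, by linarith⟩

lemma slit_of {w : ℂ} (h : ¬ (1 ≤ w.re ∧ w.im = 0)) : 1 - w ∈ slitPlane := by
  by_contra hcon
  exact h (not_slit hcon)

section

variable {m : ℕ} (a : Fin m → ℂ)

/-- domain in logarithmic coordinates -/
def Dl : Set ℂ := {z | Complex.exp (-z) ∈ Om a}

lemma Dl_open : IsOpen (Dl a) := (Om_open a).preimage (by fun_prop)

lemma Dl_up : ∀ z ∈ Dl a, ∀ t : ℝ, 0 ≤ t → z + t ∈ Dl a := by
  intro z hz t ht j
  have h1 := hz j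
  by_contra hcon
  obtain ⟨h2, h3⟩ := not_slit hcon
  have e : a j * Complex.exp (-(z + t)) = a j * Complex.exp (-z) * ((Real.exp (-t) : ℝ) : ℂ) := by
    rw [Complex.ofReal_exp, mul_assoc, ← Complex.exp_add]
    congr 2; push_cast; ring
  rw [e] at h2 h3
  rw [Complex.re_mul_ofReal] at h2
  rw [Complex.im_mul_ofReal] at h3
  have h4 : (a j * Complex.exp (-z)).im = 0 := by
    rcases mul_eq_zero.mp h3 with h | h
    · exact h
    · exact absurd h (Real.exp_pos _).ne'
  have h5 : Real.exp (-t) ≤ 1 := Real.exp_le_one_iff.mpr (by linarith)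
  have h6 : 1 ≤ (a j * Complex.exp (-z)).re := by
    have h7 : 0 < Real.exp (-t) := Real.exp_pos _
    by_contra hlt
    push Not at hlt
    nlinarith
  have h8 : (1 - a j * Complex.exp (-z)).re ≤ 0 := by simp at h6 ⊢; linarith
  have h9 : (1 - a j * Complex.exp (-z)).im = 0 := by simp at h4 ⊢; linarith
  rw [mem_slitPlane_iff] at h1
  rcases h1 with h | h
  · linarith
  · exact h h9

/-- the integrand -/
noncomputable def Gf (g : ℂ[X]) (z : ℂ) : ℂ :=
  sqf a (Complex.exp (-z)) * Complex.exp z * g.eval (Complex.exp z)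

lemma Gf_diff (g : ℂ[X]) : DifferentiableOn ℂ (Gf a g) (Dl a) := by
  intro z hz
  apply DifferentiableAt.differentiableWithinAt
  unfold Gf
  have h1 : DifferentiableAt ℂ (sqf a) (Complex.exp (-z)) :=
    (sqf_diff a).differentiableAt ((Om_open a).mem_nhds hz)
  have h2 : DifferentiableAt ℂ (fun z => sqf a (Complex.exp (-z))) z :=
    DifferentiableAt.comp (f := fun z => Complex.exp (-z)) z h1 (by fun_prop)
  have h3 : DifferentiableAt ℂ (fun z => g.eval (Complex.exp z)) z :=
    (g.differentiable _).comp z (by fun_prop)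
  exact (h2.mul (by fun_prop)).mul h3

lemma Gf_per (g : ℂ[X]) (z : ℂ) : Gf a g (z + 2 * Real.pi * I) = Gf a g z := by
  unfold Gf
  have h1 : Complex.exp (z + 2 * Real.pi * I) = Complex.exp z := by
    rw [Complex.exp_add, Complex.exp_two_pi_mul_I, mul_one]
  have h2 : Complex.exp (-(z + 2 * Real.pi * I)) = Complex.exp (-z) := by
    rw [Complex.exp_neg, h1, ← Complex.exp_neg]
  rw [h1, h2]

/-- the functional as an integral over a big circle -/
lemma Lf_eq {S : ℝ} (hS : ∀ X : ℂ, ‖X‖ ≤ Real.exp (-S) → X ∈ Om a) (g : ℂ[X]) :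
    ∫ θ in (0)..(2 * Real.pi), Gf a g ((S : ℂ) + θ * I) =
      2 * Real.pi * Lf (fun k => PowerSeries.coeff (k + 1) (Tay (sqf a))) g := by
  have hcont : Continuous fun θ : ℝ => sqf a (Complex.exp (-((S : ℂ) + θ * I))) := by
    rw [continuous_iff_continuousAt]
    intro θ
    have hmem : Complex.exp (-((S : ℂ) + θ * I)) ∈ Om a := by
      apply hS
      rw [Complex.norm_exp]
      simp
    have h1 : ContinuousAt (sqf a) (Complex.exp (-((S : ℂ) + θ * I))) :=
      ((sqf_diff a).differentiableAt ((Om_open a).mem_nhds hmem)).continuousAt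
    exact ContinuousAt.comp (f := fun θ : ℝ => Complex.exp (-((S : ℂ) + θ * I))) h1 (by fun_prop)
  induction g using Polynomial.induction_on' with
  | add p q hp hq =>
    rw [map_add, mul_add, ← hp, ← hq, ← intervalIntegral.integral_add]
    · apply intervalIntegral.integral_congr
      intro θ _
      simp only [Gf, eval_add]
      ring
    · apply Continuous.intervalIntegrable
      unfold Gf
      have : Continuous fun θ : ℝ => p.eval (Complex.exp ((S : ℂ) + θ * I)) :=
        p.continuous.comp (by fun_prop)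
      exact (hcont.mul (by fun_prop)).mul this
    · apply Continuous.intervalIntegrable
      unfold Gf
      have : Continuous fun θ : ℝ => q.eval (Complex.exp ((S : ℂ) + θ * I)) :=
        q.continuous.comp (by fun_prop)
      exact (hcont.mul (by fun_prop)).mul this
  | monomial n c =>
    rw [← C_mul_X_pow_eq_monomial, Lf_monomial]
    have h := cauchy_log a hS (n + 1)
    have e1 : PowerSeries.coeff (n + 1) (Tay (sqf a))
        = iteratedDeriv (n + 1) (sqf a) 0 / ((n + 1).factorial : ℂ) := by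
      unfold Tay; rw [PowerSeries.coeff_mk]
    rw [e1]
    have e2 : (2 * Real.pi : ℂ) * (c * (iteratedDeriv (n + 1) (sqf a) 0 / ((n + 1).factorial : ℂ)))
        = c * (2 * Real.pi * (iteratedDeriv (n + 1) (sqf a) 0 / ((n + 1).factorial : ℂ))) := by
      ring
    rw [e2, ← h, ← intervalIntegral.integral_const_mul]
    apply intervalIntegral.integral_congr
    intro θ _
    simp only [Gf, eval_mul, eval_C, eval_pow, eval_X]
    ring

end

/-- the contour bound -/
theorem contour {m : ℕ} (hm : 0 < m) {ζ : Fin m → ℂ} (hζ : ∀ j, ‖ζ j‖ = 1) {h : Fin m → ℝ}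
    (hh : ∀ j, 0 ≤ h j) {ε : ℝ} (hε : 0 < ε) {r : Fin m → ℝ} (hr0 : ∀ j, 0 ≤ r j)
    (hr : ∀ j, r j ≤ Real.exp (h j)) :
    ∃ Γ : Set ℂ, IsCompact Γ ∧ Γ.Nonempty ∧ Γ ⊆ thickening ε (hedge ζ h) ∧ ∃ C₀ : ℝ, 0 ≤ C₀ ∧
      ∀ (g : ℂ[X]) (M : ℝ), 0 ≤ M → (∀ z ∈ Γ, ‖g.eval z‖ ≤ M) →
        ‖Lf (fun k => PowerSeries.coeff (k + 1) (Tay (sqf fun j => (r j : ℂ) * ζ j))) g‖
          ≤ C₀ * M := by
  obtain ⟨φ, hφ, hφper, hφth, hφlt⟩ := exists_curve hm hζ h hε
  set a : Fin m → ℂ := fun j => (r j : ℂ) * ζ j with ha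
  set Z : ℝ → ℂ := fun θ => (φ θ : ℂ) + θ * I with hZ
  have hφc : Continuous φ := hφ.continuous
  have hφd : ∀ θ, HasDerivAt φ (deriv φ θ) θ := fun θ =>
    ((hφ.differentiable one_ne_zero) θ).hasDerivAt
  have hφ'c : Continuous (deriv φ) := hφ.continuous_deriv le_rfl
  have hZc : Continuous Z := by
    rw [hZ]
    exact (Complex.continuous_ofReal.comp hφc).add (by fun_prop)
  -- membership
  have hmem : ∀ θ : ℝ, Z θ ∈ Dl a := by
    intro θ j
    apply slit_of
    rintro ⟨h1, h2⟩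
    set w := a j * Complex.exp (-Z θ) with hw
    have hwr : w = ((w.re : ℝ) : ℂ) := by
      apply Complex.ext
      · simp
      · simpa using h2
    have hwn : ‖w‖ = w.re := by
      have h0 := congrArg norm hwr
      rw [Complex.norm_real, Real.norm_of_nonneg (by linarith)] at h0
      exact h0
    have hwe : w = ((r j * Real.exp (-φ θ) : ℝ) : ℂ) * (ζ j * (cu θ)⁻¹) := by
      rw [hw, ha, hZ]
      simp only [cu]
      rw [← Complex.exp_neg, Complex.ofReal_mul, Complex.ofReal_exp, neg_add, Complex.exp_add]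
      push_cast
      ring
    have hun : ‖ζ j * (cu θ)⁻¹‖ = 1 := by
      rw [norm_mul, norm_inv, hζ, norm_cu]; simp
    have hrn : 0 ≤ r j * Real.exp (-φ θ) := mul_nonneg (hr0 j) (Real.exp_pos _).le
    have hwn2 : ‖w‖ = r j * Real.exp (-φ θ) := by
      rw [hwe, norm_mul, hun, Complex.norm_real, Real.norm_of_nonneg hrn, mul_one]
    have hone : ζ j * (cu θ)⁻¹ = 1 := by
      have e1 : ((r j * Real.exp (-φ θ) : ℝ) : ℂ) * (ζ j * (cu θ)⁻¹)
          = ((r j * Real.exp (-φ θ) : ℝ) : ℂ) * 1 := by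
        rw [← hwe, mul_one, ← hwn2, hwn]; exact hwr
      apply mul_left_cancel₀ _ e1
      rw [← hwn2, hwn]
      intro h0
      rw [Complex.ofReal_eq_zero] at h0
      linarith
    have hcu : cu θ = ζ j := by
      have hne : cu θ ≠ 0 := by
        intro h0
        have := norm_cu θ
        rw [h0] at this; simp at this
      field_simp at hone
      exact hone.symm
    have hlt := hφlt θ j hcu
    have h3 : r j * Real.exp (-φ θ) < 1 := by
      have h4 : r j < Real.exp (φ θ) := lt_of_le_of_lt (hr j) (Real.exp_lt_exp.mpr hlt)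
      rw [Real.exp_neg, ← div_eq_mul_inv, div_lt_one (Real.exp_pos _)]
      exact h4
    linarith
  -- bound for `φ`
  obtain ⟨S₁, hS₁⟩ : ∃ S₁ : ℝ, ∀ θ, φ θ ≤ S₁ := by
    have hb : Bornology.IsBounded (thickening ε (hedge ζ h)) :=
      (hedge_compact ζ h).isBounded.thickening
    obtain ⟨R, hR⟩ := hb.exists_norm_le
    refine ⟨R, fun θ => ?_⟩
    have h1 := hR _ (hφth θ)
    rw [Complex.norm_exp] at h1
    simp at h1
    linarith [Real.add_one_le_exp (φ θ)]
  set S₂ : ℝ := ∑ j, h j + 1 with hS₂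
  set S := max S₁ S₂ with hSdef
  have hS : ∀ θ, φ θ ≤ S := fun θ => (hS₁ θ).trans (le_max_left _ _)
  have hSOm : ∀ X : ℂ, ‖X‖ ≤ Real.exp (-S) → X ∈ Om a := by
    intro X hX j
    apply slit_of
    rintro ⟨h1, _⟩
    have h2 : ‖a j * X‖ < 1 := by
      rw [norm_mul, ha]
      simp only
      rw [norm_mul, hζ, mul_one, Complex.norm_real, Real.norm_of_nonneg (hr0 j)]
      have h3 : h j ≤ ∑ j, h j := Finset.single_le_sum (fun j _ => hh j) (Finset.mem_univ j)
      have h4 : h j < S := lt_of_lt_of_le (by rw [hS₂]; linarith) (le_max_right S₁ S₂)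
      calc r j * ‖X‖ ≤ Real.exp (h j) * Real.exp (-S) :=
            mul_le_mul (hr j) hX (norm_nonneg _) (Real.exp_pos _).le
        _ = Real.exp (h j - S) := by rw [← Real.exp_add]; ring_nf
        _ < 1 := by rw [Real.exp_lt_one_iff]; linarith
    have h5 := (Complex.re_le_norm (a j * X))
    linarith
  -- the set
  refine ⟨(fun θ => Complex.exp (Z θ)) '' Icc 0 (2 * Real.pi), ?_, ?_, ?_, ?_⟩
  · exact isCompact_Icc.image (by fun_prop)
  · exact ⟨_, 0, ⟨le_rfl, by positivity⟩, rfl⟩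
  · rintro _ ⟨θ, _, rfl⟩; exact hφth θ
  -- the weight
  have hKc : Continuous fun θ : ℝ => sqf a (Complex.exp (-Z θ)) * Complex.exp (Z θ)
      * (((deriv φ θ : ℝ) : ℂ) + I) := by
    have h1 : Continuous fun θ : ℝ => sqf a (Complex.exp (-Z θ)) := by
      rw [continuous_iff_continuousAt]
      intro θ
      have h1 : ContinuousAt (sqf a) (Complex.exp (-Z θ)) :=
        ((sqf_diff a).differentiableAt ((Om_open a).mem_nhds (hmem θ))).continuousAt
      exact ContinuousAt.comp (f := fun θ : ℝ => Complex.exp (-Z θ)) h1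
        (by fun_prop)
    exact (h1.mul (by fun_prop)).mul ((Complex.continuous_ofReal.comp hφ'c).add continuous_const)
  obtain ⟨B, hB⟩ := (isCompact_Icc (a := (0 : ℝ)) (b := 2 * Real.pi)).exists_bound_of_continuousOn
    hKc.continuousOn
  have hB0 : 0 ≤ B := (norm_nonneg _).trans (hB 0 ⟨le_rfl, by positivity⟩)
  refine ⟨B, hB0, fun g M hM hg => ?_⟩
  have hhom := homotopy (D := Dl a) (G := Gf a g) (φ := φ) (φ' := deriv φ) (S := S) (Dl_open a)
    (Dl_up a) (Gf_diff a g) (Gf_per a g) hφd hφ'c hφper hS hmem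
  rw [intervalIntegral.integral_mul_const, Lf_eq a hSOm g] at hhom
  have hbound : ‖∫ θ in (0)..(2 * Real.pi), Gf a g ((φ θ : ℂ) + θ * I) * (((deriv φ θ : ℝ) : ℂ) + I)‖
      ≤ (B * M) * |2 * Real.pi - 0| := by
    apply intervalIntegral.norm_integral_le_of_norm_le_const
    intro θ hθ
    rw [uIoc_of_le (by positivity)] at hθ
    have hθ' : θ ∈ Icc (0 : ℝ) (2 * Real.pi) := ⟨hθ.1.le, hθ.2⟩
    have e : Gf a g ((φ θ : ℂ) + θ * I) * (((deriv φ θ : ℝ) : ℂ) + I)
        = (sqf a (Complex.exp (-Z θ)) * Complex.exp (Z θ) * (((deriv φ θ : ℝ) : ℂ) + I))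
          * g.eval (Complex.exp (Z θ)) := by
      rw [hZ]; simp only [Gf]; ring
    rw [e, norm_mul]
    exact mul_le_mul (hB θ hθ') (hg _ ⟨θ, hθ', rfl⟩) (norm_nonneg _) hB0
  rw [hhom, norm_mul, norm_mul, norm_mul] at hbound
  simp only [Complex.norm_I, mul_one, sub_zero] at hbound
  have hpi : (0 : ℝ) < 2 * Real.pi := by positivity
  rw [abs_of_pos hpi] at hbound
  have e2 : ‖(2 : ℂ)‖ * ‖(Real.pi : ℂ)‖ = 2 * Real.pi := by
    rw [Complex.norm_real, Real.norm_of_nonneg Real.pi_pos.le]; simp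
  rw [e2] at hbound
  exact le_of_mul_le_mul_left (hbound.trans (le_of_eq (by ring))) hpi

end Pool.Agent.H25.L2
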