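import Pool.Agent.H25.L2.Rat

/-! The main inequality when the squares of the roots are distinct and differ from the fourth
powers. -/

set_option autoImplicit false

namespace Pool.Agent.H25.L2

open Complex MeasureTheory Metric Set Polynomial

lemma coe_prod_list (l : List ℂ) (g : ℂ → ℂ) :
    ((((l : Multiset ℂ).map (fun a => (1 - C (g a) * X : ℂ[X]))).prod : ℂ[X]) : PowerSeries ℂ)
      = ∏ i : Fin l.length, (1 - PowerSeries.C (g (l.get i)) * PowerSeries.X) := by
  rw [Multiset.map_coe, Multiset.prod_coe]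
  have h1 : ∀ l' : List ℂ[X], ((l'.prod : ℂ[X]) : PowerSeries ℂ)
      = (l'.map (fun p : ℂ[X] => (p : PowerSeries ℂ))).prod := by
    intro l'
    induction l' with
    | nil => simp
    | cons a t ih => simp [ih]
  rw [h1, List.map_map, ← List.prod_ofFn]
  congr 1
  apply List.ext_getElem
  · simp
  · intro i h1 h2
    simp

lemma sum_list (l : List ℂ) (g : ℂ → ℝ) :
    ((l : Multiset ℂ).map g).sum = ∑ i : Fin l.length, g (l.get i) := by
  rw [Multiset.map_coe, Multiset.sum_coe, ← List.sum_ofFn]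
  congr 1
  apply List.ext_getElem
  · simp
  · intro i h1 h2
    simp

theorem core {f : ℤ[X]} (hf : f.Monic) (hn : 0 < f.natDegree)
    (h0 : ∀ a ∈ (f.map (Int.castRingHom ℂ)).roots, a ≠ 0)
    (hnd : ((f.map (Int.castRingHom ℂ)).roots.map (fun a => a ^ 2)).Nodup)
    (hco : ∀ a ∈ (f.map (Int.castRingHom ℂ)).roots, ∀ b ∈ (f.map (Int.castRingHom ℂ)).roots,
      a ^ 2 ≠ b ^ 4) :
    1 / (1600 * (f.natDegree : ℝ))
      < ((f.map (Int.castRingHom ℂ)).roots.map fun a => (Real.posLog ‖a‖) ^ 2).sum := by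
  by_contra hcon
  push Not at hcon
  obtain ⟨F, hF0, hF⟩ := exists_F f hf
  have hcard : Multiset.card (f.map (Int.castRingHom ℂ)).roots = f.natDegree := by
    rw [← (IsAlgClosed.splits _).natDegree_eq_card_roots, hf.natDegree_map]
  set s := (f.map (Int.castRingHom ℂ)).roots with hs
  obtain ⟨l, hl⟩ := Quot.exists_rep s
  have hl' : s = (l : Multiset ℂ) := hl.symm
  rw [hl'] at hcard
  rw [Multiset.coe_card] at hcard
  set n := l.length with hnl
  have hα0 : ∀ i : Fin n, l.get i ≠ 0 := by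
    intro i
    apply h0
    rw [hl', Multiset.mem_coe]
    exact List.get_mem l i
  set a : Fin (n + n) → ℂ := Fin.append (fun i => (l.get i) ^ 2) (fun i => (l.get i) ^ 4) with ha
  have ha0 : ∀ j, a j ≠ 0 := by
    intro j
    induction j using Fin.addCases with
    | left i => rw [ha, Fin.append_left]; exact pow_ne_zero _ (hα0 i)
    | right i => rw [ha, Fin.append_right]; exact pow_ne_zero _ (hα0 i)
  have hsum : ∑ j, (Real.posLog ‖a j‖) ^ 2 ≤ 1 / (40 * ((n + n : ℕ) : ℝ)) := by
    rw [Fin.sum_univ_add]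
    simp only [ha, Fin.append_left, Fin.append_right, norm_pow, Real.posLog_pow]
    rw [← Finset.sum_add_distrib]
    have e1 : ∀ i : Fin n, ((2 : ℕ) * Real.posLog ‖l.get i‖) ^ 2
        + ((4 : ℕ) * Real.posLog ‖l.get i‖) ^ 2 = 20 * (Real.posLog ‖l.get i‖) ^ 2 := by
      intro i; push_cast; ring
    simp only [e1]
    rw [← Finset.mul_sum]
    rw [hl', sum_list, ← hcard] at hcon
    have hn' : (0 : ℝ) < n := by rw [hcard]; exact_mod_cast hn
    calc 20 * ∑ i : Fin n, (Real.posLog ‖l.get i‖) ^ 2 ≤ 20 * (1 / (1600 * (n : ℝ))) := by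
          apply mul_le_mul_of_nonneg_left hcon (by norm_num)
      _ = _ := by push_cast; field_simp; norm_num
  have hFa : (F.map (Int.castRingHom ℂ)) ^ 2
      = ∏ j, (1 - PowerSeries.C (a j) * PowerSeries.X) := by
    rw [hF, Fin.prod_univ_add]
    simp only [ha, Fin.append_left, Fin.append_right]
    rw [Polynomial.coe_mul, hl', coe_prod_list l (fun a => a ^ 2), coe_prod_list l (fun a => a ^ 4)]
  obtain ⟨U, B, hU, hUB⟩ := exists_poly (by omega) a ha0 hsum F hF0 hFa
  obtain ⟨hp2, hr2⟩ := roots_prod_one_sub s (fun a => a ^ 2) fun b hb => pow_ne_zero _ (h0 b hb)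
  obtain ⟨hp4, hr4⟩ := roots_prod_one_sub s (fun a => a ^ 4) fun b hb => pow_ne_zero _ (h0 b hb)
  have hUP : U ^ 2 * ((s.map (fun a => 1 - C (a ^ 2) * X)).prod
      * (s.map (fun a => 1 - C (a ^ 4) * X)).prod) = B ^ 2 := by
    apply Polynomial.coe_injective
    rw [Polynomial.coe_mul, ← hF, Polynomial.coe_pow, Polynomial.coe_pow, ← hUB, mul_pow]
  -- a root
  have hpos : 0 < Multiset.card s := by rw [hl', Multiset.coe_card]; omega
  obtain ⟨α, hα⟩ := Multiset.card_pos_iff_exists_mem.mp hpos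
  have hev := even_count hU (mul_ne_zero hp2 hp4) hUP ((α ^ 2)⁻¹)
  rw [roots_mul (mul_ne_zero hp2 hp4), hr2, hr4, Multiset.count_add] at hev
  have hc1 : Multiset.count ((α ^ 2)⁻¹) (s.map fun a => (a ^ 2)⁻¹) = 1 := by
    apply Multiset.count_eq_one_of_mem
    · have := hnd.map (inv_injective (G := ℂ))
      rwa [Multiset.map_map] at this
    · exact Multiset.mem_map_of_mem (fun a => (a ^ 2)⁻¹) hα
  have hc2 : Multiset.count ((α ^ 2)⁻¹) (s.map fun a => (a ^ 4)⁻¹) = 0 := by
    rw [Multiset.count_eq_zero]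
    intro hmem
    obtain ⟨b, hb, hb2⟩ := Multiset.mem_map.mp hmem
    exact hco α hα b hb (inv_injective hb2).symm
  rw [hc1, hc2] at hev
  exact absurd hev (by decide)

end Pool.Agent.H25.L2
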