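import Pool.Agent.H25.L2.Arc

/-! Integration over the levels: the energy inequality for hedgehogs. -/

set_option autoImplicit false

namespace Pool.Agent.H25.L2

open Complex MeasureTheory Metric Set

/-- `ψ c r = ½ log (1 - 2 r c + r²)` -/
noncomputable def psi (c r : ℝ) : ℝ := Real.log (1 - 2 * r * c + r ^ 2) / 2

/-- real form of the mutual density -/
noncomputable def pr (c r : ℝ) : ℝ := (1 - r ^ 2) / (1 - 2 * r * c + r ^ 2)

lemma den_pos {c r : ℝ} (hc : c ≤ 1) (hr0 : 0 ≤ r) (hr : r < 1) : 0 < 1 - 2 * r * c + r ^ 2 := by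
  nlinarith [mul_le_mul_of_nonneg_left hc hr0, sq_nonneg (1 - r), mul_pos (sub_pos.mpr hr) (sub_pos.mpr hr)]

lemma pp_eq_pr {u : ℂ} (hu : ‖u‖ = 1) {r : ℝ} : pp ((r : ℂ) * u) = pr u.re r := by
  unfold pp pr
  have h1 : ‖(r : ℂ) * u‖ ^ 2 = r ^ 2 := by
    rw [norm_mul, hu, mul_one, norm_real, Real.norm_eq_abs, sq_abs]
  have h2 : ‖1 - (r : ℂ) * u‖ ^ 2 = 1 - 2 * r * u.re + r ^ 2 := by
    rw [← normSq_eq_norm_sq, normSq_sub]
    rw [normSq_eq_norm_sq ((r : ℂ) * u), h1]
    simp
    ring
  rw [h1, h2]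

/-- derivative of `s ↦ ψ(c, e^{2s-a})` -/
lemma hasDerivAt_psi {c a : ℝ} (hc : c ≤ 1) {s : ℝ} (hs : 2 * s < a) :
    HasDerivAt (fun s => psi c (Real.exp (2 * s - a))) (1 - pr c (Real.exp (2 * s - a))) s := by
  have hr : Real.exp (2 * s - a) < 1 := by
    rw [← Real.exp_zero]; exact Real.exp_lt_exp.mpr (by linarith)
  have hr0 := Real.exp_pos (2 * s - a)
  have hd := den_pos hc hr0.le hr
  have h1 : HasDerivAt (fun s => Real.exp (2 * s - a)) (Real.exp (2 * s - a) * 2) s := by
    have : HasDerivAt (fun s : ℝ => 2 * s - a) 2 s := by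
      have := ((hasDerivAt_id s).const_mul 2).sub_const a
      simpa using this
    exact this.exp
  have h2 : HasDerivAt (fun s => 1 - 2 * Real.exp (2 * s - a) * c + Real.exp (2 * s - a) ^ 2)
      (-(2 * (Real.exp (2 * s - a) * 2) * c)
        + 2 * Real.exp (2 * s - a) * (Real.exp (2 * s - a) * 2)) s := by
    have h3 := ((h1.const_mul 2).mul_const c).const_sub 1
    have h4 := h1.pow 2
    have h5 := h3.add h4
    refine h5.congr_deriv ?_
    norm_num
  have h3 := (h2.log hd.ne').div_const 2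
  unfold psi
  refine h3.congr_deriv ?_
  unfold pr
  field_simp
  ring

lemma int_pr {c a A b : ℝ} (hc : c ≤ 1) (hAb : A ≤ b) (hb : 2 * b < a) :
    ∫ s in A..b, pr c (Real.exp (2 * s - a))
      = (b - A) - psi c (Real.exp (2 * b - a)) + psi c (Real.exp (2 * A - a)) := by
  have hcont : ContinuousOn (fun s => pr c (Real.exp (2 * s - a))) (uIcc A b) := by
    intro s hs
    rw [uIcc_of_le hAb] at hs
    apply ContinuousAt.continuousWithinAt
    have hr : Real.exp (2 * s - a) < 1 := by
      rw [← Real.exp_zero]; exact Real.exp_lt_exp.mpr (by linarith [hs.2])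
    have hd := (den_pos hc (Real.exp_pos (2 * s - a)).le hr).ne'
    unfold pr
    fun_prop (disch := assumption)
  have h1 : ∫ s in A..b, (1 - pr c (Real.exp (2 * s - a)))
      = psi c (Real.exp (2 * b - a)) - psi c (Real.exp (2 * A - a)) := by
    apply intervalIntegral.integral_eq_sub_of_hasDerivAt
      (f := fun s => psi c (Real.exp (2 * s - a)))
    · intro s hs
      rw [uIcc_of_le hAb] at hs
      exact hasDerivAt_psi hc (by linarith [hs.2])
    · exact (continuousOn_const.sub hcont).intervalIntegrable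
  rw [intervalIntegral.integral_sub intervalIntegrable_const hcont.intervalIntegrable] at h1
  simp only [intervalIntegral.integral_const, smul_eq_mul, mul_one] at h1
  linarith

/-- integrability of a truncated continuous function -/
lemma ite_int {f : ℝ → ℝ} (hf : Continuous f) (c A B : ℝ) :
    IntervalIntegrable (fun s => if s < c then f s else 0) volume A B := by
  have h1 : (fun s => if s < c then f s else 0) = (Iio c).indicator f := by
    ext s; simp [indicator_apply]
  rw [h1, intervalIntegrable_iff]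
  have h2 := (hf.intervalIntegrable (μ := volume) A B)
  rw [intervalIntegrable_iff] at h2
  exact h2.indicator measurableSet_Iio

lemma int_ite {f : ℝ → ℝ} (hf : Continuous f) {c A B : ℝ} (hA : A ≤ c) (hB : c ≤ B) :
    ∫ s in A..B, (if s < c then f s else 0) = ∫ s in A..c, f s := by
  rw [← intervalIntegral.integral_add_adjacent_intervals (ite_int hf c A c) (ite_int hf c c B)]
  have h2 : ∫ s in c..B, (if s < c then f s else 0) = 0 := by
    rw [intervalIntegral.integral_congr (g := fun _ => 0)]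
    · simp
    · intro s hs
      rw [uIcc_of_le hB] at hs
      simp only
      rw [if_neg (not_lt.mpr hs.1)]
  have h1 : ∫ s in A..c, (if s < c then f s else 0) = ∫ s in A..c, f s := by
    apply intervalIntegral.integral_congr_ae
    have : ∀ᵐ s : ℝ ∂volume, s ≠ c := Measure.ae_ne volume c
    filter_upwards [this] with s hs hs2
    rw [uIoc_of_le hA] at hs2
    rw [if_pos (lt_of_le_of_ne hs2.2 hs)]
  rw [h1, h2, add_zero]

/-- comparison of the true kernel with the regularised one -/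
lemma kernel_cmp {c ρ q : ℝ} (hc : |c| ≤ 1) (hρ0 : 0 ≤ ρ) (hρ1 : ρ ≤ 1) (hq0 : 0 < q)
    (hq1 : q < 1) :
    (1 - 2 * ρ * c + ρ ^ 2) * (1 + q) ^ 2 ≤ 4 * (1 - 2 * (ρ * q) * c + (ρ * q) ^ 2) := by
  obtain ⟨hc1, hc2⟩ := abs_le.mp hc
  have h1 : 4 * (1 - 2 * (ρ * q) * c + (ρ * q) ^ 2) - (1 - 2 * ρ * c + ρ ^ 2) * (1 + q) ^ 2
      = (1 - q) * ((3 + q) + 2 * ρ * c * (1 - q) - ρ ^ 2 * (1 + 3 * q)) := by ring
  have h2 : 0 ≤ (3 + q) + 2 * ρ * c * (1 - q) - ρ ^ 2 * (1 + 3 * q) := by
    have h3 : -(ρ * (1 - q)) ≤ ρ * c * (1 - q) := by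
      have : 0 ≤ ρ * (1 - q) := mul_nonneg hρ0 (by linarith)
      nlinarith
    have h4 : 0 ≤ (1 - ρ) * ((3 + q) + (1 + 3 * q) * ρ) := by
      apply mul_nonneg (by linarith); nlinarith
    nlinarith
  have h3 : 0 ≤ (1 - q) * ((3 + q) + 2 * ρ * c * (1 - q) - ρ ^ 2 * (1 + 3 * q)) :=
    mul_nonneg (by linarith) h2
  linarith

/-- `log ‖z - z'‖` against the regularised kernel -/
lemma log_norm_sub_le {u u' : ℂ} (hu : ‖u‖ = 1) (hu' : ‖u'‖ = 1) {x x' ε : ℝ} (hε : 0 < ε)
    (hne : (Real.exp x : ℂ) * u ≠ (Real.exp x' : ℂ) * u') :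
    Real.log ‖(Real.exp x : ℂ) * u - (Real.exp x' : ℂ) * u'‖
      ≤ max x x' + psi (u * (starRingEnd ℂ) u').re
          (Real.exp (2 * min x x' - (x + x' + 2 * ε)))
        + Real.log (2 / (1 + Real.exp (-(2 * ε)))) := by
  set c := (u * (starRingEnd ℂ) u').re with hc
  have hcabs : |c| ≤ 1 := by
    refine (Complex.abs_re_le_norm _).trans ?_
    rw [norm_mul, RCLike.norm_conj, hu, hu', mul_one]
  set q := Real.exp (-(2 * ε)) with hq
  have hq0 : 0 < q := Real.exp_pos _
  have hq1 : q < 1 := by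
    rw [hq, ← Real.exp_zero]; exact Real.exp_lt_exp.mpr (by linarith)
  set ρ := Real.exp (-|x - x'|) with hρ
  have hρ0 : 0 < ρ := Real.exp_pos _
  have hρ1 : ρ ≤ 1 := by
    rw [hρ, ← Real.exp_zero]; exact Real.exp_le_exp.mpr (by linarith [abs_nonneg (x - x')])
  have hn : ‖(Real.exp x : ℂ) * u - (Real.exp x' : ℂ) * u'‖ ^ 2
      = Real.exp (2 * max x x') * (1 - 2 * ρ * c + ρ ^ 2) := by
    rw [← normSq_eq_norm_sq, normSq_sub]
    rw [normSq_eq_norm_sq, normSq_eq_norm_sq, norm_mul, norm_mul, hu, hu', norm_real, norm_real,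
      Real.norm_of_nonneg (Real.exp_pos x).le, Real.norm_of_nonneg (Real.exp_pos x').le]
    have : ((Real.exp x : ℂ) * u * (starRingEnd ℂ) ((Real.exp x' : ℂ) * u')).re
        = Real.exp x * Real.exp x' * c := by
      rw [map_mul, conj_ofReal, hc]
      have e : (Real.exp x : ℂ) * u * ((Real.exp x' : ℂ) * (starRingEnd ℂ) u')
          = ((Real.exp x * Real.exp x' : ℝ) : ℂ) * (u * (starRingEnd ℂ) u') := by
        push_cast; ring
      rw [e, re_ofReal_mul]
    rw [this]
    rcases le_total x x' with h | h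
    · rw [max_eq_right h, hρ, abs_of_nonpos (by linarith)]
      have e1 : Real.exp x = Real.exp x' * Real.exp (-(-(x - x'))) := by
        rw [← Real.exp_add]; congr 1; ring
      have e2 : Real.exp (2 * x') = Real.exp x' * Real.exp x' := by
        rw [← Real.exp_add]; congr 1; ring
      rw [e2, e1]; ring
    · rw [max_eq_left h, hρ, abs_of_nonneg (by linarith)]
      have e1 : Real.exp x' = Real.exp x * Real.exp (-(x - x')) := by
        rw [← Real.exp_add]; congr 1; ring
      have e2 : Real.exp (2 * x) = Real.exp x * Real.exp x := by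
        rw [← Real.exp_add]; congr 1; ring
      rw [e2, e1]; ring
  have hexp : Real.exp (2 * min x x' - (x + x' + 2 * ε)) = ρ * q := by
    rw [hρ, hq, ← Real.exp_add]
    congr 1
    rcases le_total x x' with h | h
    · rw [min_eq_left h, abs_of_nonpos (by linarith)]; ring
    · rw [min_eq_right h, abs_of_nonneg (by linarith)]; ring
  rw [hexp]
  have hpos : 0 < ‖(Real.exp x : ℂ) * u - (Real.exp x' : ℂ) * u'‖ :=
    norm_pos_iff.mpr (sub_ne_zero.mpr hne)
  have hd : 0 < 1 - 2 * (ρ * q) * c + (ρ * q) ^ 2 :=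
    den_pos (le_trans (le_abs_self c) hcabs) (by positivity) (by nlinarith)
  have hle : ‖(Real.exp x : ℂ) * u - (Real.exp x' : ℂ) * u'‖ ^ 2
      ≤ Real.exp (2 * max x x') * ((1 - 2 * (ρ * q) * c + (ρ * q) ^ 2) * (2 / (1 + q)) ^ 2) := by
    rw [hn]
    apply mul_le_mul_of_nonneg_left _ (Real.exp_pos _).le
    have := kernel_cmp hcabs hρ0.le hρ1 hq0 hq1
    rw [div_pow, ← mul_div_assoc, le_div_iff₀ (by positivity)]
    linarith
  have hlog := Real.log_le_log (by positivity) hle
  rw [Real.log_pow, Real.log_mul (Real.exp_pos _).ne' (by positivity), Real.log_exp,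
    Real.log_mul hd.ne' (by positivity), Real.log_pow] at hlog
  simp only [Nat.cast_ofNat] at hlog
  unfold psi
  linarith

end Pool.Agent.H25.L2
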