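import Mathlib

/-! Graeffe transform of a monic integer polynomial and the congruence mod `4`. -/

set_option autoImplicit false

namespace Pool.Agent.H25.L2

open Polynomial

/-- Graeffe transform: `gr f (X²) = (-1)^n f(X) f(-X)` -/
noncomputable def gr (f : ℤ[X]) : ℤ[X] :=
  contract 2 (C ((-1) ^ f.natDegree) * (f * f.comp (-X)))

lemma comp_neg_coeff {R : Type*} [CommRing R] (f : R[X]) (n : ℕ) :
    (f.comp (-X)).coeff n = (-1) ^ n * f.coeff n := by
  have : (-X : R[X]) = C (-1) * X := by simp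
  rw [this, comp_C_mul_X_coeff]; ring

lemma comp_neg_neg {R : Type*} [CommRing R] (f : R[X]) : (f.comp (-X)).comp (-X) = f := by
  rw [comp_assoc]; simp

lemma coeff_odd_of_even {f : ℤ[X]} (h : f.comp (-X) = f) {n : ℕ} (hn : ¬ 2 ∣ n) :
    f.coeff n = 0 := by
  have h1 := comp_neg_coeff f n
  rw [h] at h1
  have hodd : Odd n := by rwa [← Nat.not_even_iff_odd, even_iff_two_dvd]
  rw [hodd.neg_one_pow] at h1
  linarith

lemma expand_gr (f : ℤ[X]) :
    expand ℤ 2 (gr f) = C ((-1) ^ f.natDegree) * (f * f.comp (-X)) := by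
  have hev : (C ((-1 : ℤ) ^ f.natDegree) * (f * f.comp (-X))).comp (-X)
      = C ((-1 : ℤ) ^ f.natDegree) * (f * f.comp (-X)) := by
    rw [mul_comp, mul_comp, comp_neg_neg, C_comp, mul_comm f]
  ext n
  rw [coeff_expand (by norm_num)]
  split_ifs with h
  · unfold gr
    rw [coeff_contract (by norm_num), Nat.div_mul_cancel h]
  · exact (coeff_odd_of_even hev h).symm

/-- roots of the Graeffe transform -/
lemma gr_map (f : ℤ[X]) (hf : f.Monic) :
    (gr f).map (Int.castRingHom ℂ)
      = ((f.map (Int.castRingHom ℂ)).roots.map (fun a => X - C (a ^ 2))).prod := by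
  apply expand_injective (n := 2) (by norm_num)
  rw [← map_expand, expand_gr]
  have hs : (f.map (Int.castRingHom ℂ)).Splits := IsAlgClosed.splits _
  have hfm : (f.map (Int.castRingHom ℂ)).Monic := hf.map _
  have hprod := hs.eq_prod_roots_of_monic hfm
  set s := (f.map (Int.castRingHom ℂ)).roots with hsdef
  have hcard : Multiset.card s = f.natDegree := by
    rw [hsdef, ← hs.natDegree_eq_card_roots, hf.natDegree_map]
  have hcomp : ((f.comp (-X)).map (Int.castRingHom ℂ))
      = (s.map (fun a => -X - C a)).prod := by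
    rw [map_comp, hprod, multiset_prod_comp]
    simp
  rw [Polynomial.map_mul, Polynomial.map_mul, hcomp, hprod]
  have hexp : expand ℂ 2 ((s.map (fun a => X - C (a ^ 2))).prod)
      = (s.map (fun a => (X - C a) * (X + C a))).prod := by
    rw [map_multiset_prod, Multiset.map_map]
    congr 1
    apply Multiset.map_congr rfl
    intro a _
    simp only [Function.comp_apply, map_sub, expand_X, expand_C, map_pow]
    ring
  rw [hexp, Multiset.prod_map_mul]
  have hneg : (s.map (fun a => -X - C a)).prod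
      = C ((-1) ^ f.natDegree) * (s.map (fun a => (X + C a : ℂ[X]))).prod := by
    rw [← hcard]
    have h1 : ∀ a : ℂ, (-X - C a : ℂ[X]) = C (-1) * (X + C a) := by
      intro a; simp; ring
    simp only [h1]
    rw [Multiset.prod_map_mul]
    simp
  rw [hneg]
  have h1 : (C ((-1 : ℤ) ^ f.natDegree)).map (Int.castRingHom ℂ)
      = (C ((-1 : ℂ) ^ f.natDegree) : ℂ[X]) := by simp
  rw [h1]
  have h2 : (C ((-1 : ℂ) ^ f.natDegree) : ℂ[X]) * C ((-1 : ℂ) ^ f.natDegree) = 1 := by
    rw [← C_mul, ← mul_pow]; simp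
  linear_combination ((s.map (fun a => (X - C a : ℂ[X]))).prod *
    (s.map (fun a => (X + C a : ℂ[X]))).prod) * h2

lemma gr_monic (f : ℤ[X]) (hf : f.Monic) : (gr f).Monic := by
  have h : ((gr f).map (Int.castRingHom ℂ)).Monic := by
    rw [gr_map f hf]
    apply monic_multiset_prod_of_monic
    intro a _; exact monic_X_sub_C _
  exact Polynomial.monic_of_injective (RingHom.injective_int (Int.castRingHom ℂ)) h

lemma gr_natDegree (f : ℤ[X]) (hf : f.Monic) : (gr f).natDegree = f.natDegree := by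
  have h : ((gr f).map (Int.castRingHom ℂ)).natDegree = (gr f).natDegree :=
    (gr_monic f hf).natDegree_map _
  rw [← h, gr_map f hf, natDegree_multiset_prod_of_monic]
  · simp only [Multiset.map_map, Function.comp_def, natDegree_X_sub_C, Multiset.map_const',
      Multiset.sum_replicate, smul_eq_mul, mul_one]
    rw [← (IsAlgClosed.splits (f.map (Int.castRingHom ℂ))).natDegree_eq_card_roots,
      hf.natDegree_map]
  · intro p hp
    obtain ⟨a, _, rfl⟩ := Multiset.mem_map.mp hp
    exact monic_X_sub_C _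

lemma roots_gr (f : ℤ[X]) (hf : f.Monic) :
    ((gr f).map (Int.castRingHom ℂ)).roots
      = (f.map (Int.castRingHom ℂ)).roots.map (fun a => a ^ 2) := by
  rw [gr_map f hf]
  have : ((f.map (Int.castRingHom ℂ)).roots.map (fun a => X - C (a ^ 2))).prod
      = (((f.map (Int.castRingHom ℂ)).roots.map (fun a => a ^ 2)).map
        (fun a => X - C a)).prod := by
    rw [Multiset.map_map]; rfl
  rw [this, roots_multiset_prod_X_sub_C]

/-- `gr f ≡ f` modulo `2` -/
lemma two_dvd_gr_sub (f : ℤ[X]) : C (2 : ℤ) ∣ gr f - f := by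
  have hmod : (gr f).map (Int.castRingHom (ZMod 2)) = f.map (Int.castRingHom (ZMod 2)) := by
    apply expand_injective (n := 2) (by norm_num)
    rw [← map_expand, expand_gr, ZMod.expand_card]
    rw [Polynomial.map_mul, Polynomial.map_mul]
    have h1 : (f.comp (-X)).map (Int.castRingHom (ZMod 2))
        = f.map (Int.castRingHom (ZMod 2)) := by
      rw [map_comp]
      have : ((-X : ℤ[X]).map (Int.castRingHom (ZMod 2))) = X := by
        rw [Polynomial.map_neg, map_X]
        have h2 : (2 : (ZMod 2)[X]) = 0 := by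
          have : (2 : (ZMod 2)[X]) = C (2 : ZMod 2) := (C_ofNat 2).symm
          rw [this, show (2 : ZMod 2) = 0 from rfl, C_0]
        linear_combination -(X : (ZMod 2)[X]) * h2
      rw [this, comp_X]
    have h3 : (C ((-1 : ℤ) ^ f.natDegree)).map (Int.castRingHom (ZMod 2)) = 1 := by
      rw [map_C]
      have : (Int.castRingHom (ZMod 2)) ((-1) ^ f.natDegree) = 1 := by
        rw [map_pow, map_neg, map_one, show (-1 : ZMod 2) = 1 from rfl, one_pow]
      rw [this, C_1]
    rw [h1, h3]; ring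
  rw [C_dvd_iff_dvd_coeff]
  intro i
  have h := congrArg (fun p => p.coeff i) hmod
  simp only [coeff_map, eq_intCast] at h
  rw [coeff_sub]
  have := (ZMod.intCast_eq_intCast_iff_dvd_sub (f.coeff i) ((gr f).coeff i) 2).mp h.symm
  exact_mod_cast this

lemma dvd_of_expand {c : ℤ} {p : ℤ[X]} (h : C c ∣ expand ℤ 2 p) : C c ∣ p := by
  rw [C_dvd_iff_dvd_coeff] at h ⊢
  intro i
  have := h (i * 2)
  rwa [coeff_expand_mul (by norm_num)] at this

lemma two_dvd_add_comp_neg (u : ℤ[X]) : C (2 : ℤ) ∣ u + u.comp (-X) := by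
  rw [C_dvd_iff_dvd_coeff]
  intro i
  rw [coeff_add, comp_neg_coeff]
  rcases neg_one_pow_eq_or ℤ i with h | h <;> rw [h]
  · exact ⟨u.coeff i, by ring⟩
  · simp

/-- `gr (gr f) ≡ gr f` modulo `4` -/
theorem four_dvd_gr_gr_sub (f : ℤ[X]) (hf : f.Monic) : C (4 : ℤ) ∣ gr (gr f) - gr f := by
  obtain ⟨k, hk⟩ := two_dvd_gr_sub f
  have hg : gr f = f + C 2 * k := by rw [← hk]; ring
  apply dvd_of_expand
  rw [map_sub, expand_gr, expand_gr f, gr_natDegree f hf]
  have hexpand : gr f * (gr f).comp (-X)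
      = f * f.comp (-X) + C 2 * (f * k.comp (-X) + (f * k.comp (-X)).comp (-X))
        + C 4 * (k * k.comp (-X)) := by
    rw [hg]
    simp only [add_comp, mul_comp, C_comp, comp_neg_neg]
    have : (C (4 : ℤ) : ℤ[X]) = C 2 * C 2 := by rw [← C_mul]; norm_num
    rw [this]; ring
  rw [hexpand]
  obtain ⟨l, hl⟩ := two_dvd_add_comp_neg (f * k.comp (-X))
  rw [hl]
  refine ⟨C ((-1) ^ f.natDegree) * (l + k * k.comp (-X)), ?_⟩
  have : (C (4 : ℤ) : ℤ[X]) = C 2 * C 2 := by rw [← C_mul]; norm_num
  rw [this]; ring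

end Pool.Agent.H25.L2
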