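import Pool.Agent.H25.L2.Fekete

/-! Hankel determinants of functionals bounded on a set with a small monic polynomial. -/

set_option autoImplicit false

namespace Pool.Agent.H25.L2

open Complex MeasureTheory Metric Set Polynomial

lemma norm_det_le {N : ℕ} (M : Matrix (Fin N) (Fin N) ℂ) {K : ℝ} (s : ℕ → ℝ)
    (hM : ∀ i j, ‖M i j‖ ≤ K * (s i * s j)) :
    ‖M.det‖ ≤ ∏ i ∈ Finset.range N, (((i : ℝ) + 1) * (K * s i ^ 2)) := by
  rw [Matrix.det_apply]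
  have h1 : ∀ σ : Equiv.Perm (Fin N), ‖Equiv.Perm.sign σ • ∏ i, M (σ i) i‖
      ≤ ∏ i : Fin N, (K * s i ^ 2) := by
    intro σ
    have e1 : ‖Equiv.Perm.sign σ • ∏ i, M (σ i) i‖ = ∏ i, ‖M (σ i) i‖ := by
      rcases Int.units_eq_one_or (Equiv.Perm.sign σ) with h | h <;> rw [h] <;> simp
    rw [e1]
    calc ∏ i, ‖M (σ i) i‖ ≤ ∏ i : Fin N, (K * (s (σ i) * s i)) :=
        Finset.prod_le_prod (fun i _ => norm_nonneg _) fun i _ => hM _ _
      _ = ∏ i : Fin N, (K * s i ^ 2) := by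
        simp only [Finset.prod_mul_distrib]
        rw [Equiv.prod_comp σ (fun i => s i)]
        simp only [pow_two, Finset.prod_mul_distrib]
  calc ‖∑ σ : Equiv.Perm (Fin N), Equiv.Perm.sign σ • ∏ i, M (σ i) i‖
      ≤ ∑ σ : Equiv.Perm (Fin N), ∏ i : Fin N, (K * s i ^ 2) :=
        norm_sum_le_of_le _ fun σ _ => h1 σ
    _ = (N.factorial : ℝ) * ∏ i : Fin N, (K * s i ^ 2) := by
        rw [Finset.sum_const, Finset.card_univ, Fintype.card_perm, Fintype.card_fin, nsmul_eq_mul]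
    _ = _ := by
        rw [← Finset.prod_range (fun i => K * s i ^ 2),
          Finset.prod_mul_distrib (f := fun i : ℕ => (i : ℝ) + 1)]
        congr 1
        rw [← Finset.prod_range_add_one_eq_factorial]
        push_cast
        rfl

lemma prod_tendsto_zero {u : ℕ → ℝ} (h0 : ∀ i, 0 ≤ u i)
    (hu : Filter.Tendsto u Filter.atTop (nhds 0)) :
    ∃ N₀, ∀ N, N₀ ≤ N → ∏ i ∈ Finset.range N, u i < 1 := by
  obtain ⟨i₀, hi₀⟩ := Filter.eventually_atTop.mp (hu.eventually (gt_mem_nhds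
    (show (0 : ℝ) < 1 / 2 by norm_num)))
  set P := ∏ i ∈ Finset.range i₀, u i with hP
  have hP0 : 0 ≤ P := Finset.prod_nonneg fun i _ => h0 i
  obtain ⟨k₀, hk₀⟩ : ∃ k : ℕ, (1 / 2 : ℝ) ^ k < 1 / (P + 1) :=
    exists_pow_lt_of_lt_one (by positivity) (by norm_num)
  refine ⟨i₀ + k₀, fun N hN => ?_⟩
  obtain ⟨k, rfl⟩ := Nat.exists_eq_add_of_le (show i₀ ≤ N by omega)
  rw [Finset.prod_range_add]
  have h1 : ∏ x ∈ Finset.range k, u (i₀ + x) ≤ (1 / 2) ^ k := by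
    calc ∏ x ∈ Finset.range k, u (i₀ + x) ≤ ∏ _x ∈ Finset.range k, (1 / 2 : ℝ) :=
        Finset.prod_le_prod (fun i _ => h0 _) fun i _ => (hi₀ _ (by omega)).le
      _ = _ := by simp
  have h2 : (1 / 2 : ℝ) ^ k ≤ (1 / 2) ^ k₀ :=
    pow_le_pow_of_le_one (by norm_num) (by norm_num) (by omega)
  calc P * ∏ x ∈ Finset.range k, u (i₀ + x) ≤ P * (1 / (P + 1)) :=
        mul_le_mul_of_nonneg_left (by linarith) hP0
    _ < 1 := by rw [mul_one_div, div_lt_one (by positivity)]; linarith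

lemma u_tendsto {d : ℕ} (hd : 0 < d) {K ρ : ℝ} (hρ0 : 0 ≤ ρ) (hρ1 : ρ < 1) (hK : 0 ≤ K) :
    Filter.Tendsto (fun i : ℕ => ((i : ℝ) + 1) * (K * (ρ ^ (i / d)) ^ 2)) Filter.atTop
      (nhds 0) := by
  have h1 : Filter.Tendsto (fun k : ℕ => (d : ℝ) * K * (((k : ℝ) * (ρ ^ 2) ^ k) + (ρ ^ 2) ^ k))
      Filter.atTop (nhds 0) := by
    have hr1 : ρ ^ 2 < 1 := by nlinarith
    have a := tendsto_self_mul_const_pow_of_lt_one (sq_nonneg ρ) hr1
    have b := tendsto_pow_atTop_nhds_zero_of_lt_one (sq_nonneg ρ) hr1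
    have c := (a.add b).const_mul ((d : ℝ) * K)
    simpa using c
  have h2 : Filter.Tendsto (fun i : ℕ => i / d) Filter.atTop Filter.atTop :=
    Nat.tendsto_div_const_atTop hd.ne'
  have h3 := h1.comp h2
  refine squeeze_zero (fun i => by positivity) (fun i => ?_) h3
  simp only [Function.comp_apply]
  have h4 : (i : ℝ) + 1 ≤ d * (((i / d : ℕ) : ℝ) + 1) := by
    have := Nat.lt_mul_div_succ i hd
    exact_mod_cast this
  have h5 : (ρ ^ (i / d)) ^ 2 = (ρ ^ 2) ^ (i / d) := by rw [← pow_mul, ← pow_mul, mul_comm]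
  rw [h5]
  have h6 : 0 ≤ K * (ρ ^ 2) ^ (i / d) := by positivity
  calc ((i : ℝ) + 1) * (K * (ρ ^ 2) ^ (i / d))
      ≤ (d * (((i / d : ℕ) : ℝ) + 1)) * (K * (ρ ^ 2) ^ (i / d)) :=
        mul_le_mul_of_nonneg_right h4 h6
    _ = _ := by ring

theorem hankel_small {Γ : Set ℂ} {p : ℂ[X]} (hp : p.Monic) (hd : 0 < p.natDegree) {ρ : ℝ}
    (hρ0 : 0 ≤ ρ) (hρ1 : ρ < 1) (hpΓ : ∀ z ∈ Γ, ‖p.eval z‖ ≤ ρ) {R : ℝ} (hR1 : 1 ≤ R)
    (hR : ∀ z ∈ Γ, ‖z‖ ≤ R) (b : ℕ → ℂ) {C₀ : ℝ} (hC : 0 ≤ C₀)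
    (hL : ∀ (g : ℂ[X]) (M : ℝ), 0 ≤ M → (∀ z ∈ Γ, ‖g.eval z‖ ≤ M) → ‖Lf b g‖ ≤ C₀ * M) :
    ∃ N₀, ∀ N, N₀ ≤ N → ‖(Matrix.of fun i j : Fin N => b ((i : ℕ) + j)).det‖ < 1 := by
  set d := p.natDegree with hdd
  set q : ℕ → ℂ[X] := fun i => p ^ (i / d) * X ^ (i % d) with hq
  have hqm : ∀ i, (q i).Monic := fun i => (hp.pow _).mul (monic_X_pow _)
  have hqd : ∀ i, (q i).natDegree = i := by
    intro i
    rw [hq]
    simp only
    rw [(hp.pow _).natDegree_mul (monic_X_pow _), hp.natDegree_pow, natDegree_X_pow, ← hdd,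
      mul_comm]
    exact Nat.div_add_mod i d
  have hqΓ : ∀ i, ∀ z ∈ Γ, ‖(q i).eval z‖ ≤ ρ ^ (i / d) * R ^ d := by
    intro i z hz
    rw [hq]
    simp only [eval_mul, eval_pow, eval_X, norm_mul, norm_pow]
    apply mul_le_mul (pow_le_pow_left₀ (norm_nonneg _) (hpΓ z hz) _) _ (by positivity)
      (by positivity)
    calc ‖z‖ ^ (i % d) ≤ R ^ (i % d) := pow_le_pow_left₀ (norm_nonneg _) (hR z hz) _
      _ ≤ R ^ d := pow_le_pow_right₀ hR1 (Nat.mod_lt _ hd).le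
  set K := C₀ * (R ^ d) ^ 2 with hK
  have hK0 : 0 ≤ K := by positivity
  have hentry : ∀ i j : ℕ, ‖Lf b (q i * q j)‖ ≤ K * (ρ ^ (i / d) * ρ ^ (j / d)) := by
    intro i j
    have := hL (q i * q j) ((ρ ^ (i / d) * R ^ d) * (ρ ^ (j / d) * R ^ d)) (by positivity) (by
      intro z hz
      rw [eval_mul, norm_mul]
      exact mul_le_mul (hqΓ i z hz) (hqΓ j z hz) (norm_nonneg _) (by positivity))
    refine this.trans (le_of_eq ?_)
    rw [hK]; ring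
  obtain ⟨N₀, hN₀⟩ := prod_tendsto_zero (u := fun i : ℕ => ((i : ℝ) + 1) *
    (K * (ρ ^ (i / d)) ^ 2)) (fun i => by positivity) (u_tendsto hd hρ0 hρ1 hK0)
  refine ⟨N₀, fun N hN => ?_⟩
  rw [hankel_basis b q hqm hqd N]
  refine lt_of_le_of_lt ?_ (hN₀ N hN)
  exact norm_det_le _ (fun i => ρ ^ (i / d)) fun i j => hentry i j

end Pool.Agent.H25.L2
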