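import Pool.Agent.H25.L2.Energy

/-! The energy inequality for points on a hedgehog. -/

set_option autoImplicit false

namespace Pool.Agent.H25.L2

open Complex MeasureTheory Metric Set

section

variable {m N : ℕ} (ζ : Fin m → ℂ) (jj : Fin N → Fin m) (x : Fin N → ℝ) (ε : ℝ)

/-- cosine of the angle -/
noncomputable def cc (i k : Fin N) : ℝ := (ζ (jj i) * (starRingEnd ℂ) (ζ (jj k))).re

/-- mutual density at level `s` -/
noncomputable def Fk (i k : Fin N) (s : ℝ) : ℝ :=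
  if s < min (x i) (x k) then pr (cc ζ jj i k) (Real.exp (2 * s - (x i + x k + 2 * ε))) else 0

/-- indicator -/
noncomputable def on1 (i : Fin N) (s : ℝ) : ℝ := if s < x i then 1 else 0

/-- points above level `s` -/
noncomputable def Iset (s : ℝ) : Finset (Fin N) := Finset.univ.filter (fun i => s < x i)

/-- Poisson radius -/
noncomputable def rr (s : ℝ) (i : Fin N) : ℝ := Real.exp (s - x i - ε)

variable {ζ jj x ε}

lemma cc_le (hζ : ∀ j, ‖ζ j‖ = 1) (i k : Fin N) : cc ζ jj i k ≤ 1 := by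
  unfold cc
  refine (Complex.re_le_norm _).trans ?_
  rw [norm_mul, RCLike.norm_conj, hζ, hζ, mul_one]

lemma cc_self (hζ : ∀ j, ‖ζ j‖ = 1) (i : Fin N) : cc ζ jj i i = 1 := by
  unfold cc
  rw [Complex.mul_conj, normSq_eq_norm_sq, hζ]; simp

lemma SS_eq (hζ : ∀ j, ‖ζ j‖ = 1) (s : ℝ) :
    SS ζ (Iset x s) jj (rr x ε s) = ∑ i, ∑ k, Fk ζ jj x ε i k s := by
  unfold SS Iset
  rw [Finset.sum_filter]
  apply Finset.sum_congr rfl
  intro i _
  by_cases hi : s < x i
  · rw [if_pos hi, Finset.sum_filter]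
    apply Finset.sum_congr rfl
    intro k _
    unfold Fk
    by_cases hk : s < x k
    · rw [if_pos hk, if_pos (lt_min hi hk)]
      have e1 : (rr x ε s i : ℂ) * ζ (jj i) * (starRingEnd ℂ) ((rr x ε s k : ℂ) * ζ (jj k))
          = ((rr x ε s i * rr x ε s k : ℝ) : ℂ) * (ζ (jj i) * (starRingEnd ℂ) (ζ (jj k))) := by
        rw [map_mul, conj_ofReal]; push_cast; ring
      have e2 : ‖ζ (jj i) * (starRingEnd ℂ) (ζ (jj k))‖ = 1 := by
        rw [norm_mul, RCLike.norm_conj, hζ, hζ, mul_one]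
      rw [e1, pp_eq_pr e2]
      unfold cc rr
      rw [← Real.exp_add]
      congr 2
      ring
    · rw [if_neg hk, if_neg (fun h => hk (lt_of_lt_of_le h (min_le_right _ _)))]
  · rw [if_neg hi]
    symm
    apply Finset.sum_eq_zero
    intro k _
    unfold Fk
    rw [if_neg (fun h => hi (lt_of_lt_of_le h (min_le_left _ _)))]

lemma card_eq (s : ℝ) : ((Iset x s).card : ℝ) = ∑ i, on1 x i s := by
  unfold Iset on1
  rw [Finset.sum_boole]

lemma Fk_cont (hζ : ∀ j, ‖ζ j‖ = 1) (hε : 0 < ε) (i k : Fin N) :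
    Continuous (fun s => pr (cc ζ jj i k)
      (Real.exp (2 * min s (min (x i) (x k)) - (x i + x k + 2 * ε)))) := by
  have hd : ∀ s : ℝ, 1 - 2 * Real.exp (2 * min s (min (x i) (x k)) - (x i + x k + 2 * ε))
      * cc ζ jj i k + Real.exp (2 * min s (min (x i) (x k)) - (x i + x k + 2 * ε)) ^ 2 ≠ 0 := by
    intro s
    apply ne_of_gt
    apply den_pos (cc_le hζ i k) (Real.exp_pos _).le
    rw [← Real.exp_zero]
    apply Real.exp_lt_exp.mpr
    have h1 := min_le_right s (min (x i) (x k))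
    have h2 := min_le_left (x i) (x k)
    have h3 := min_le_right (x i) (x k)
    linarith
  unfold pr
  exact Continuous.div (by fun_prop) (by fun_prop) hd

lemma Fk_eq (i k : Fin N) : Fk ζ jj x ε i k = fun s => if s < min (x i) (x k) then
    pr (cc ζ jj i k) (Real.exp (2 * min s (min (x i) (x k)) - (x i + x k + 2 * ε))) else 0 := by
  ext s
  unfold Fk
  by_cases h : s < min (x i) (x k)
  · rw [if_pos h, if_pos h, min_eq_left h.le]
  · rw [if_neg h, if_neg h]

lemma Fk_ii (hζ : ∀ j, ‖ζ j‖ = 1) (hε : 0 < ε) (i k : Fin N) (A B : ℝ) :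
    IntervalIntegrable (Fk ζ jj x ε i k) volume A B := by
  rw [Fk_eq]
  exact ite_int (Fk_cont hζ hε i k) _ _ _

lemma on1_ii (i : Fin N) (A B : ℝ) : IntervalIntegrable (on1 x i) volume A B :=
  ite_int continuous_const _ _ _

lemma int_on1 {i : Fin N} {A H : ℝ} (hA : A ≤ x i) (hH : x i ≤ H) :
    ∫ s in A..H, on1 x i s = x i - A := by
  unfold on1
  rw [int_ite continuous_const hA hH]
  simp

lemma int_Fk (hζ : ∀ j, ‖ζ j‖ = 1) (hε : 0 < ε) {i k : Fin N} {A H : ℝ}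
    (hA : A ≤ min (x i) (x k)) (hH : min (x i) (x k) ≤ H) :
    ∫ s in A..H, Fk ζ jj x ε i k s = (min (x i) (x k) - A)
      - psi (cc ζ jj i k) (Real.exp (2 * min (x i) (x k) - (x i + x k + 2 * ε)))
      + psi (cc ζ jj i k) (Real.exp (2 * A - (x i + x k + 2 * ε))) := by
  rw [Fk_eq, int_ite (Fk_cont hζ hε i k) hA hH]
  have h1 : ∫ s in A..(min (x i) (x k)), pr (cc ζ jj i k)
      (Real.exp (2 * min s (min (x i) (x k)) - (x i + x k + 2 * ε)))
      = ∫ s in A..(min (x i) (x k)), pr (cc ζ jj i k)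
      (Real.exp (2 * s - (x i + x k + 2 * ε))) := by
    apply intervalIntegral.integral_congr
    intro s hs
    rw [uIcc_of_le hA] at hs
    simp only
    rw [min_eq_left hs.2]
  rw [h1]
  apply int_pr (cc_le hζ i k) hA
  have h2 := min_le_left (x i) (x k)
  have h3 := min_le_right (x i) (x k)
  linarith

/-- the trivial level bound -/
lemma SS_ge (hζ : ∀ j, ‖ζ j‖ = 1) {I : Finset (Fin N)} {ρ : Fin N → ℝ}
    (hρ : ∀ i ∈ I, 0 < ρ i ∧ ρ i < 1) : (I.card : ℝ) ^ 2 ≤ SS ζ I jj ρ := by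
  have hsc := sg_continuous (jj := jj) hζ hρ
  have hav := av_sg (jj := jj) hζ hρ
  have ic : ∀ c : ℝ, II (fun _ => c) := fun c => II_of_cont continuous_const
  have i1 : II (sg ζ I jj ρ) := II_of_cont hsc
  have hpt : ∀ t, 2 * (I.card : ℝ) * sg ζ I jj ρ t - (I.card : ℝ) ^ 2
      ≤ sg ζ I jj ρ t ^ 2 := by
    intro t; nlinarith [sq_nonneg (sg ζ I jj ρ t - I.card)]
  have := av_mono ((i1.const_mul (2 * (I.card : ℝ))).sub (ic ((I.card : ℝ) ^ 2)))
    (II_of_cont (hsc.pow 2)) hpt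
  rw [av_sub (i1.const_mul (2 * (I.card : ℝ))) (ic ((I.card : ℝ) ^ 2)), av_const_mul, av_const,
    hav] at this
  have h2 : av (sg ζ I jj ρ ^ 2) = SS ζ I jj ρ := av_sg_sq hζ hρ
  rw [h2] at this
  nlinarith

lemma rr_mem {s : ℝ} (hε : 0 < ε) : ∀ i ∈ Iset x s, 0 < rr x ε s i ∧ rr x ε s i < 1 := by
  intro i hi
  unfold Iset at hi
  simp only [Finset.mem_filter, Finset.mem_univ, true_and] at hi
  refine ⟨Real.exp_pos _, ?_⟩
  unfold rr
  rw [← Real.exp_zero]; exact Real.exp_lt_exp.mpr (by linarith)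

/-- sum over pairs -/
lemma pair_sum (s : ℝ) (hζ : ∀ j, ‖ζ j‖ = 1) :
    ∑ i, ∑ k, (on1 x i s + on1 x k s - Fk ζ jj x ε i k s)
      = 2 * (N : ℝ) * (Iset x s).card - SS ζ (Iset x s) jj (rr x ε s) := by
  rw [SS_eq hζ, card_eq]
  simp only [Finset.sum_sub_distrib, Finset.sum_add_distrib, Finset.sum_const, Finset.card_univ,
    Fintype.card_fin, nsmul_eq_mul]
  rw [← Finset.mul_sum]; ring

lemma psi_le {c r : ℝ} (hc : |c| ≤ 1) (hr0 : 0 ≤ r) (hr1 : r < 1) : psi c r ≤ r := by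
  obtain ⟨hc1, hc2⟩ := abs_le.mp hc
  have hd := den_pos hc2 hr0 hr1
  have h1 : 1 - 2 * r * c + r ^ 2 ≤ (1 + r) ^ 2 := by nlinarith
  have h2 := Real.log_le_log hd h1
  rw [Real.log_pow] at h2
  have h3 := Real.log_le_sub_one_of_pos (show 0 < 1 + r by linarith)
  unfold psi
  simp only [Nat.cast_ofNat] at h2
  linarith

end

end Pool.Agent.H25.L2
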