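import Pool.Agent.H25.L2.Hedge

/-! The integrated energy inequality. -/

set_option autoImplicit false

namespace Pool.Agent.H25.L2

open Complex MeasureTheory Metric Set

section

variable {m N : ℕ} {ζ : Fin m → ℂ} {jj : Fin N → Fin m} {x : Fin N → ℝ} {ε κ : ℝ}
  {h Bi Bo : Fin m → ℝ} {Ti To : ℝ}

/-- regularised pair energy -/
noncomputable def PE (ζ : Fin m → ℂ) (jj : Fin N → Fin m) (x : Fin N → ℝ) (ε : ℝ)
    (i k : Fin N) : ℝ :=
  max (x i) (x k) + psi (cc ζ jj i k) (Real.exp (2 * min (x i) (x k) - (x i + x k + 2 * ε)))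

lemma PE_eq (hζ : ∀ j, ‖ζ j‖ = 1) (hε : 0 < ε) {i k : Fin N} {A H : ℝ}
    (hAi : A ≤ x i) (hAk : A ≤ x k) (hHi : x i ≤ H) (hHk : x k ≤ H) :
    PE ζ jj x ε i k = (∫ s in A..H, (on1 x i s + on1 x k s - Fk ζ jj x ε i k s)) + A
      + psi (cc ζ jj i k) (Real.exp (2 * A - (x i + x k + 2 * ε))) := by
  rw [intervalIntegral.integral_sub ((on1_ii i A H).add (on1_ii k A H)) (Fk_ii hζ hε i k A H),
    intervalIntegral.integral_add (on1_ii i A H) (on1_ii k A H), int_on1 hAi hHi,
    int_on1 hAk hHk, int_Fk hζ hε (le_min hAi hAk) ((min_le_left _ _).trans hHi)]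
  unfold PE
  have := min_add_max (x i) (x k)
  linarith

/-- excess function -/
noncomputable def DD (ζ : Fin m → ℂ) (jj : Fin N → Fin m) (x : Fin N → ℝ) (ε : ℝ) (s : ℝ) : ℝ :=
  ∑ i, (Fk ζ jj x ε i i s - on1 x i s)

/-- the level function -/
noncomputable def WW (ζ : Fin m → ℂ) (jj : Fin N → Fin m) (x : Fin N → ℝ) (ε : ℝ) (s : ℝ) : ℝ :=
  2 * (N : ℝ) * (Iset x s).card - SS ζ (Iset x s) jj (rr x ε s) - (Iset x s).card

lemma off_diag_sum (g : Fin N → Fin N → ℝ) :
    ∑ i, ∑ k ∈ Finset.univ.erase i, g i k = (∑ i, ∑ k, g i k) - ∑ i, g i i := by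
  rw [← Finset.sum_sub_distrib]
  apply Finset.sum_congr rfl
  intro i _
  rw [← Finset.add_sum_erase Finset.univ (g i) (Finset.mem_univ i)]
  ring

lemma theta_eq (hζ : ∀ j, ‖ζ j‖ = 1) (s : ℝ) :
    ∑ i, ∑ k ∈ Finset.univ.erase i, (on1 x i s + on1 x k s - Fk ζ jj x ε i k s)
      = WW ζ jj x ε s + DD ζ jj x ε s := by
  rw [off_diag_sum, pair_sum s hζ]
  unfold WW DD
  rw [card_eq]
  simp only [Finset.sum_sub_distrib, Finset.sum_add_distrib]
  ring

lemma DD_ii (hζ : ∀ j, ‖ζ j‖ = 1) (hε : 0 < ε) (A B : ℝ) :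
    IntervalIntegrable (DD ζ jj x ε) volume A B := by
  unfold DD
  have := IntervalIntegrable.sum Finset.univ (f := fun i s => Fk ζ jj x ε i i s - on1 x i s)
    (μ := volume) (a := A) (b := B) (fun i _ => (Fk_ii hζ hε i i A B).sub (on1_ii i A B))
  refine this.congr ?_
  intro t _
  simp

lemma WW_ii (hζ : ∀ j, ‖ζ j‖ = 1) (hε : 0 < ε) (A B : ℝ) :
    IntervalIntegrable (WW ζ jj x ε) volume A B := by
  have h1 : WW ζ jj x ε = fun s => (∑ i, ∑ k ∈ Finset.univ.erase i,
      (on1 x i s + on1 x k s - Fk ζ jj x ε i k s)) - DD ζ jj x ε s := by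
    ext s; rw [theta_eq hζ s]; ring
  rw [h1]
  apply IntervalIntegrable.sub _ (DD_ii hζ hε A B)
  have := IntervalIntegrable.sum Finset.univ
    (f := fun i s => ∑ k ∈ Finset.univ.erase i, (on1 x i s + on1 x k s - Fk ζ jj x ε i k s))
    (μ := volume) (a := A) (b := B) (fun i _ => by
      have h2 := IntervalIntegrable.sum (Finset.univ.erase i)
        (f := fun k s => (on1 x i s + on1 x k s - Fk ζ jj x ε i k s))
        (μ := volume) (a := A) (b := B)
        (fun k _ => ((on1_ii i A B).add (on1_ii k A B)).sub (Fk_ii hζ hε i k A B))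
      refine h2.congr ?_
      intro t _
      simp)
  refine this.congr ?_
  intro t _
  simp

lemma int_DD (hζ : ∀ j, ‖ζ j‖ = 1) (hε : 0 < ε) {A H : ℝ} (hA : ∀ i, A ≤ x i)
    (hH : ∀ i, x i ≤ H) :
    ∫ s in A..H, DD ζ jj x ε s ≤ (N : ℝ) * (-Real.log (1 - Real.exp (-(2 * ε)))) := by
  unfold DD
  rw [intervalIntegral.integral_finsetSum
    (fun i _ => (Fk_ii hζ hε i i A H).sub (on1_ii i A H))]
  have hpsi : ∀ r : ℝ, 0 ≤ r → r < 1 → psi 1 r = Real.log (1 - r) := by
    intro r _ hr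
    unfold psi
    rw [show 1 - 2 * r * 1 + r ^ 2 = (1 - r) ^ 2 by ring, Real.log_pow]
    push_cast; ring
  have : ∀ i ∈ (Finset.univ : Finset (Fin N)),
      ∫ s in A..H, (Fk ζ jj x ε i i s - on1 x i s) ≤ -Real.log (1 - Real.exp (-(2 * ε))) := by
    intro i _
    rw [intervalIntegral.integral_sub (Fk_ii hζ hε i i A H) (on1_ii i A H),
      int_on1 (hA i) (hH i), int_Fk hζ hε (le_min (hA i) (hA i)) ((min_le_left _ _).trans (hH i)),
      cc_self hζ, min_self]
    have e1 : 2 * x i - (x i + x i + 2 * ε) = -(2 * ε) := by ring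
    rw [e1, hpsi _ (Real.exp_pos _).le (by
      rw [← Real.exp_zero]; exact Real.exp_lt_exp.mpr (by linarith))]
    have hr : Real.exp (2 * A - (x i + x i + 2 * ε)) < 1 := by
      rw [← Real.exp_zero]; exact Real.exp_lt_exp.mpr (by linarith [hA i])
    rw [hpsi _ (Real.exp_pos _).le hr]
    have := Real.log_nonpos (show 0 ≤ 1 - Real.exp (2 * A - (x i + x i + 2 * ε)) by linarith)
      (by linarith [Real.exp_pos (2 * A - (x i + x i + 2 * ε))])
    linarith
  refine (Finset.sum_le_sum this).trans ?_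
  simp

/-- the energy inequality -/
theorem energy (hζ : ∀ j, ‖ζ j‖ = 1) (hh : ∀ j, 0 ≤ h j) (hx : ∀ i, x i ≤ h (jj i))
    (hε : 0 < ε) (hκ : 0 < κ)
    (hBi0 : ∀ j, 0 < Bi j) (hBi1 : ∀ j, Bi j ≤ 1) (hBo0 : ∀ j, 0 < Bo j) (hBo1 : ∀ j, Bo j ≤ 1)
    (hTi0 : 0 ≤ Ti) (hTi1 : Ti + ∑ j, Bi j / 3 ≤ 1) (hTo1 : To < 1)
    (hTi : ∀ j, ∀ τ, 0 < τ → τ ≤ h j + κ + ε →
      1 - Real.exp (-τ) ^ 2 ≤ Ti * (Real.exp (-τ) * (Real.pi * Bi j)))
    (hTo : ∀ j, ∀ τ, 0 < τ → τ ≤ h j + ε →
      1 - Real.exp (-τ) ^ 2 ≤ To * (Real.exp (-τ) * (Real.pi * Bo j))) :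
    ∑ i, ∑ k ∈ Finset.univ.erase i, PE ζ jj x ε i k
      ≤ (N : ℝ) ^ 2 * (-(κ * (1 - Ti - ∑ j, Bi j / 3) ^ 2)
          + (∑ j, h j * (Bo j / 3)) / (1 - To) ^ 2)
        + N * (κ - Real.log (1 - Real.exp (-(2 * ε)))) + 1 := by
  set η := 1 - Ti - ∑ j, Bi j / 3 with hη
  set X₀ := κ + ∑ i, |x i| with hX₀
  have hxX : ∀ i, |x i| ≤ X₀ := by
    intro i
    have := Finset.single_le_sum (fun i _ => abs_nonneg (x i)) (Finset.mem_univ i)
      (f := fun i => |x i|)
    linarith
  set A := -(X₀ + N) with hA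
  set H := ∑ j, h j with hH
  have hH0 : 0 ≤ H := Finset.sum_nonneg fun j _ => hh j
  have hhH : ∀ j, h j ≤ H := fun j => Finset.single_le_sum (fun j _ => hh j) (Finset.mem_univ j)
  have hN0 : (0 : ℝ) ≤ N := Nat.cast_nonneg N
  have hAx : ∀ i, A ≤ x i := by
    intro i
    have h1 := hxX i
    have h2 := neg_abs_le (x i)
    rw [hA]; linarith
  have hxH : ∀ i, x i ≤ H := fun i => (hx i).trans (hhH _)
  have hAκ : A ≤ -κ := by
    have : 0 ≤ ∑ i, |x i| := Finset.sum_nonneg fun i _ => abs_nonneg _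
    rw [hA]; linarith
  -- level bounds
  have hcardN : ∀ s, ((Iset x s).card : ℝ) ≤ N := by
    intro s
    have := Finset.card_le_univ (Iset x s)
    simp only [Fintype.card_fin] at this
    exact_mod_cast this
  have L1 : ∀ s, WW ζ jj x ε s ≤ (N : ℝ) ^ 2 - N := by
    intro s
    have h1 := SS_ge (jj := jj) hζ (rr_mem (x := x) (s := s) hε)
    have h2 : ((N - (Iset x s).card : ℕ) : ℝ) ≤ ((N - (Iset x s).card : ℕ) : ℝ) ^ 2 := by
      exact_mod_cast Nat.le_self_pow (by norm_num) _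
    have h3 : (Iset x s).card ≤ N := by exact_mod_cast hcardN s
    rw [Nat.cast_sub h3] at h2
    unfold WW
    nlinarith
  have L2 : ∀ s, -κ ≤ s → WW ζ jj x ε s ≤ (N : ℝ) ^ 2 * (1 - η ^ 2) := by
    intro s hs
    have h1 := level_in (jj := jj) (Bd := Bi) (T := Ti) (J := Finset.univ) hζ hBi0 hBi1
      (rr_mem (x := x) (s := s) hε) (by
        intro i hi
        have hi' : s < x i := by simpa [Iset] using hi
        have := hTi (jj i) (x i - s + ε) (by linarith) (by linarith [hx i])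
        have e : -(x i - s + ε) = s - x i - ε := by ring
        rw [e] at this
        exact this) (fun i _ => Finset.mem_univ _) hTi0 hTi1
    unfold WW
    have : (0 : ℝ) ≤ (Iset x s).card := Nat.cast_nonneg _
    linarith
  have L3 : ∀ s, 0 ≤ s → WW ζ jj x ε s
      ≤ ∑ j, (N : ℝ) ^ 2 / (1 - To) ^ 2 * (if s < h j then Bo j / 3 else 0) := by
    intro s hs
    have h1 := level_out (jj := jj) (Bd := Bo) (T := To)
      (J := Finset.univ.filter (fun j => s < h j)) hζ hBo0 hBo1
      (rr_mem (x := x) (s := s) hε) (by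
        intro i hi
        have hi' : s < x i := by simpa [Iset] using hi
        have := hTo (jj i) (x i - s + ε) (by linarith) (by linarith [hx i])
        have e : -(x i - s + ε) = s - x i - ε := by ring
        rw [e] at this
        exact this) (by
        intro i hi
        have hi' : s < x i := by simpa [Iset] using hi
        simp only [Finset.mem_filter, Finset.mem_univ, true_and]
        exact lt_of_lt_of_le hi' (hx i)) hTo1
    rw [Finset.sum_filter] at h1
    rw [← Finset.mul_sum]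
    unfold WW
    have : (0 : ℝ) ≤ (Iset x s).card := Nat.cast_nonneg _
    have e : (N : ℝ) ^ 2 * ((∑ j, if s < h j then Bo j / 3 else 0) / (1 - To) ^ 2)
        = (N : ℝ) ^ 2 / (1 - To) ^ 2 * (∑ j, if s < h j then Bo j / 3 else 0) := by ring
    rw [e] at h1
    linarith
  -- integral of the level function
  have hW := WW_ii (jj := jj) (x := x) hζ hε
  have I1 : ∫ s in A..(-κ), WW ζ jj x ε s ≤ (-κ - A) * ((N : ℝ) ^ 2 - N) := by
    have := intervalIntegral.integral_mono_on (μ := volume) hAκ (hW A (-κ))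
      (intervalIntegrable_const (c := (N : ℝ) ^ 2 - N)) (fun s _ => L1 s)
    rw [intervalIntegral.integral_const, smul_eq_mul] at this
    exact this
  have I2 : ∫ s in (-κ)..0, WW ζ jj x ε s ≤ κ * ((N : ℝ) ^ 2 * (1 - η ^ 2)) := by
    have := intervalIntegral.integral_mono_on (μ := volume) (show -κ ≤ 0 by linarith)
      (hW (-κ) 0) (intervalIntegrable_const (c := (N : ℝ) ^ 2 * (1 - η ^ 2)))
      (fun s hs => L2 s hs.1)
    rw [intervalIntegral.integral_const, smul_eq_mul, zero_sub, neg_neg] at this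
    exact this
  have I3 : ∫ s in (0)..H, WW ζ jj x ε s
      ≤ (N : ℝ) ^ 2 * ((∑ j, h j * (Bo j / 3)) / (1 - To) ^ 2) := by
    have hii : ∀ j ∈ (Finset.univ : Finset (Fin m)), IntervalIntegrable
        (fun s => (N : ℝ) ^ 2 / (1 - To) ^ 2 * (if s < h j then Bo j / 3 else 0))
        volume 0 H := fun j _ => (ite_int continuous_const _ _ _).const_mul _
    have hii2 : IntervalIntegrable
        (fun s => ∑ j, (N : ℝ) ^ 2 / (1 - To) ^ 2 * (if s < h j then Bo j / 3 else 0))
        volume 0 H := by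
      have := IntervalIntegrable.sum Finset.univ
        (f := fun j s => (N : ℝ) ^ 2 / (1 - To) ^ 2 * (if s < h j then Bo j / 3 else 0))
        (μ := volume) (a := 0) (b := H) hii
      refine this.congr ?_
      intro t _
      simp
    have := intervalIntegral.integral_mono_on (μ := volume) hH0 (hW 0 H) hii2
      (fun s hs => L3 s hs.1)
    refine this.trans (le_of_eq ?_)
    rw [intervalIntegral.integral_finsetSum hii]
    have h1 : ∀ j, ∫ s in (0)..H, (N : ℝ) ^ 2 / (1 - To) ^ 2 * (if s < h j then Bo j / 3 else 0)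
        = (N : ℝ) ^ 2 / (1 - To) ^ 2 * (h j * (Bo j / 3)) := by
      intro j
      rw [intervalIntegral.integral_const_mul, int_ite continuous_const (hh j) (hhH j),
        intervalIntegral.integral_const, smul_eq_mul, sub_zero]
    simp only [h1]
    rw [← Finset.mul_sum]
    ring
  have hWtot : ∫ s in A..H, WW ζ jj x ε s ≤ (-κ - A) * ((N : ℝ) ^ 2 - N)
      + κ * ((N : ℝ) ^ 2 * (1 - η ^ 2))
      + (N : ℝ) ^ 2 * ((∑ j, h j * (Bo j / 3)) / (1 - To) ^ 2) := by
    rw [← intervalIntegral.integral_add_adjacent_intervals (hW A 0) (hW 0 H),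
      ← intervalIntegral.integral_add_adjacent_intervals (hW A (-κ)) (hW (-κ) 0)]
    linarith
  -- the sum over pairs
  have hpair : ∑ i, ∑ k ∈ Finset.univ.erase i, PE ζ jj x ε i k
      = (∫ s in A..H, WW ζ jj x ε s) + (∫ s in A..H, DD ζ jj x ε s)
        + ∑ i : Fin N, ∑ k ∈ Finset.univ.erase i, A
        + ∑ i, ∑ k ∈ Finset.univ.erase i,
          psi (cc ζ jj i k) (Real.exp (2 * A - (x i + x k + 2 * ε))) := by
    have h1 : ∀ i ∈ (Finset.univ : Finset (Fin N)), ∀ k ∈ Finset.univ.erase i,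
        PE ζ jj x ε i k = (∫ s in A..H, (on1 x i s + on1 x k s - Fk ζ jj x ε i k s)) + A
          + psi (cc ζ jj i k) (Real.exp (2 * A - (x i + x k + 2 * ε))) := fun i _ k _ =>
      PE_eq hζ hε (hAx i) (hAx k) (hxH i) (hxH k)
    rw [Finset.sum_congr rfl (fun i hi => Finset.sum_congr rfl (h1 i hi))]
    simp only [Finset.sum_add_distrib]
    congr 2
    have hii : ∀ i k : Fin N, IntervalIntegrable
        (fun s => on1 x i s + on1 x k s - Fk ζ jj x ε i k s) volume A H := fun i k =>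
      ((on1_ii i A H).add (on1_ii k A H)).sub (Fk_ii hζ hε i k A H)
    have h2 : ∀ i ∈ (Finset.univ : Finset (Fin N)),
        ∑ k ∈ Finset.univ.erase i, ∫ s in A..H, (on1 x i s + on1 x k s - Fk ζ jj x ε i k s)
        = ∫ s in A..H, ∑ k ∈ Finset.univ.erase i,
          (on1 x i s + on1 x k s - Fk ζ jj x ε i k s) := by
      intro i _
      rw [intervalIntegral.integral_finsetSum (fun k _ => hii i k)]
    rw [Finset.sum_congr rfl h2, ← intervalIntegral.integral_finsetSum]
    · rw [← intervalIntegral.integral_add (hW A H) (DD_ii hζ hε A H)]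
      apply intervalIntegral.integral_congr
      intro s _
      exact theta_eq hζ s
    · intro i _
      have h3 := IntervalIntegrable.sum (Finset.univ.erase i)
        (f := fun k s => (on1 x i s + on1 x k s - Fk ζ jj x ε i k s))
        (μ := volume) (a := A) (b := H) (fun k _ => hii i k)
      refine h3.congr ?_
      intro t _
      simp
  have hcount : ∑ i : Fin N, ∑ k ∈ Finset.univ.erase i, A = ((N : ℝ) ^ 2 - N) * A := by
    rw [off_diag_sum (fun _ _ => A)]
    simp
    ring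
  have hpsi : ∑ i, ∑ k ∈ Finset.univ.erase i,
      psi (cc ζ jj i k) (Real.exp (2 * A - (x i + x k + 2 * ε))) ≤ 1 := by
    have h1 : ∀ i k : Fin N, psi (cc ζ jj i k) (Real.exp (2 * A - (x i + x k + 2 * ε)))
        ≤ Real.exp (-N) * Real.exp (-N) := by
      intro i k
      have hcabs : |cc ζ jj i k| ≤ 1 := by
        unfold cc
        refine (Complex.abs_re_le_norm _).trans ?_
        rw [norm_mul, RCLike.norm_conj, hζ, hζ, mul_one]
      have hle : 2 * A - (x i + x k + 2 * ε) ≤ -N + -N := by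
        have h2 := hxX i
        have h3 := hxX k
        have h4 := neg_abs_le (x i)
        have h5 := neg_abs_le (x k)
        rw [hA]; linarith
      rw [← Real.exp_add]
      refine (psi_le hcabs (Real.exp_pos _).le ?_).trans (Real.exp_le_exp.mpr hle)
      rw [← Real.exp_zero]; exact Real.exp_lt_exp.mpr (by linarith [hAx i, hAx k])
    calc ∑ i, ∑ k ∈ Finset.univ.erase i,
        psi (cc ζ jj i k) (Real.exp (2 * A - (x i + x k + 2 * ε)))
        ≤ ∑ i : Fin N, ∑ k ∈ Finset.univ.erase i, Real.exp (-N) * Real.exp (-N) :=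
          Finset.sum_le_sum fun i _ => Finset.sum_le_sum fun k _ => h1 i k
      _ ≤ ∑ i : Fin N, ∑ k : Fin N, Real.exp (-N) * Real.exp (-N) := by
          apply Finset.sum_le_sum
          intro i _
          exact Finset.sum_le_sum_of_subset_of_nonneg (Finset.erase_subset _ _)
            (fun _ _ _ => by positivity)
      _ = ((N : ℝ) * Real.exp (-N)) ^ 2 := by simp; ring
      _ ≤ 1 := by
          have h2 : (N : ℝ) * Real.exp (-N) ≤ 1 := by
            rw [Real.exp_neg, ← div_eq_mul_inv, div_le_one (Real.exp_pos _)]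
            linarith [Real.add_one_le_exp (N : ℝ)]
          have h3 : 0 ≤ (N : ℝ) * Real.exp (-N) := by positivity
          nlinarith
  have hD := int_DD (jj := jj) hζ hε hAx hxH
  rw [hpair, hcount]
  nlinarith

end

end Pool.Agent.H25.L2
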