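import Pool.Agent.H25.L2.Hedge2

/-! The capacity of a hedgehog with spikes of unequal lengths, Vandermonde form. -/

set_option autoImplicit false

namespace Pool.Agent.H25.L2

open Complex MeasureTheory Metric Set

/-- the hedgehog with spikes `[0, e^{h j}] ζ j` -/
def hedge {m : ℕ} (ζ : Fin m → ℂ) (h : Fin m → ℝ) : Set ℂ :=
  {z | ∃ j, ∃ t : ℝ, 0 ≤ t ∧ t ≤ Real.exp (h j) ∧ z = t * ζ j}

/-- squared Vandermonde product -/
noncomputable def VV {N : ℕ} (z : Fin N → ℂ) : ℝ :=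
  ∏ i, ∏ k ∈ Finset.univ.erase i, ‖z i - z k‖

lemma VV_continuous (N : ℕ) : Continuous (VV (N := N)) := by
  unfold VV
  exact continuous_finsetProd _ fun i _ => continuous_finsetProd _ fun k _ =>
    ((continuous_apply i).sub (continuous_apply k)).norm

lemma VV_nonneg {N : ℕ} (z : Fin N → ℂ) : 0 ≤ VV z := by
  unfold VV
  exact Finset.prod_nonneg fun i _ => Finset.prod_nonneg fun k _ => norm_nonneg _

lemma exp_tail {τ t : ℝ} (h0 : 0 < τ) (h1 : τ ≤ t) (h2 : t ≤ 1 / 4) :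
    1 - Real.exp (-τ) ^ 2 ≤ (2 + t ^ 2 / 2) * t * Real.exp (-τ) := by
  -- `2 sinh τ ≤ 2 sinh t ≤ (2 + t²/2) t`
  have hneg : Real.exp (-τ) * Real.exp τ = 1 := by rw [← Real.exp_add]; simp
  have hp := Real.exp_pos (-τ)
  have hkey : Real.exp τ - Real.exp (-τ) ≤ (2 + t ^ 2 / 2) * t := by
    have e1 : Real.exp τ - Real.exp (-τ) ≤ Real.exp t - Real.exp (-t) := by
      have a1 := Real.exp_le_exp.mpr h1
      have a2 := Real.exp_le_exp.mpr (show -t ≤ -τ by linarith)
      linarith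
    have ht0 : 0 < t := by linarith
    have b1 : Real.exp t ≤ 1 + t + t ^ 2 / 2 + t ^ 3 / 4 := by
      have := Real.exp_bound' (x := t) ht0.le (by linarith) (n := 3) (by norm_num)
      have hs : ∑ k ∈ Finset.range 3, t ^ k / (k.factorial : ℝ) = 1 + t + t ^ 2 / 2 := by
        simp [Finset.sum_range_succ, Nat.factorial]
      rw [hs] at this
      have h3 : t ^ 3 * ((3 : ℕ) + 1) / (((3 : ℕ).factorial : ℝ) * (3 : ℕ)) ≤ t ^ 3 / 4 := by
        have : ((3 : ℕ).factorial : ℝ) = 6 := by norm_num [Nat.factorial]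
        rw [this]
        have : 0 < t ^ 3 := by positivity
        push_cast
        linarith
      linarith
    have b2 : 1 - t + t ^ 2 / 2 - t ^ 3 / 4 ≤ Real.exp (-t) := by
      have := Real.exp_bound (x := -t) (by rw [abs_neg, abs_of_pos ht0]; linarith) (n := 3)
        (by norm_num)
      have hs : ∑ k ∈ Finset.range 3, (-t) ^ k / (k.factorial : ℝ) = 1 - t + t ^ 2 / 2 := by
        simp [Finset.sum_range_succ, Nat.factorial]; ring
      rw [hs, abs_neg, abs_of_pos ht0] at this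
      have h4 := (abs_le.mp this).1
      have h5 : ((3 : ℕ).succ / ((3 : ℕ).factorial * (3 : ℕ)) : ℝ) = 4 / 18 := by
        norm_num [Nat.factorial]
      have h3 : t ^ 3 * ((3 : ℕ).succ / ((3 : ℕ).factorial * (3 : ℕ)) : ℝ) ≤ t ^ 3 / 4 := by
        rw [h5]
        have : 0 < t ^ 3 := by positivity
        linarith
      linarith
    have : (2 + t ^ 2 / 2) * t = 2 * t + t ^ 3 / 2 := by ring
    rw [this]; linarith
  have : 1 - Real.exp (-τ) ^ 2 = (Real.exp τ - Real.exp (-τ)) * Real.exp (-τ) := by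
    rw [sub_mul, mul_comm (Real.exp τ), hneg]; ring
  rw [this]
  exact mul_le_mul_of_nonneg_right hkey hp.le

/-- numeric core -/
lemma num_core {m : ℕ} (hm : 2 ≤ m) {h : Fin m → ℝ} (hh : ∀ j, 0 ≤ h j)
    (hS : ∑ j, h j ^ 2 ≤ 1 / (40 * m)) :
    (∀ j, h j ≤ 113 / 1000) ∧ ∑ j, h j ≤ 15812 / 100000 := by
  have hm' : (2 : ℝ) ≤ m := by exact_mod_cast hm
  have hm0 : (0 : ℝ) < m := by linarith
  constructor
  · intro j
    have h1 : h j ^ 2 ≤ ∑ j, h j ^ 2 :=
      Finset.single_le_sum (fun j _ => sq_nonneg (h j)) (Finset.mem_univ j)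
    have h2 : 1 / (40 * (m : ℝ)) ≤ 1 / 80 := by
      apply one_div_le_one_div_of_le (by norm_num); linarith
    have h3 : h j ^ 2 ≤ 1 / 80 := by linarith
    by_contra hc
    push Not at hc
    nlinarith
  · have h1 : (∑ j, h j) ^ 2 ≤ m * ∑ j, h j ^ 2 := by
      have := sq_sum_le_card_mul_sum_sq (s := Finset.univ) (f := h)
      simpa using this
    have h2 : (m : ℝ) * ∑ j, h j ^ 2 ≤ 1 / 40 := by
      calc (m : ℝ) * ∑ j, h j ^ 2 ≤ m * (1 / (40 * m)) := mul_le_mul_of_nonneg_left hS hm0.le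
        _ = 1 / 40 := by field_simp
    have h3 : 0 ≤ ∑ j, h j := Finset.sum_nonneg fun j _ => hh j
    by_contra hc
    push Not at hc
    nlinarith

/-- energy bound, numerical form, for points off the origin -/
theorem energy_num {m : ℕ} (hm : 2 ≤ m) {ζ : Fin m → ℂ} (hζ : ∀ j, ‖ζ j‖ = 1) {h : Fin m → ℝ}
    (hh : ∀ j, 0 ≤ h j) (hS : ∑ j, h j ^ 2 ≤ 1 / (40 * m)) :
    ∃ C : ℝ, ∀ (N : ℕ) (jj : Fin N → Fin m) (x : Fin N → ℝ), (∀ i, x i ≤ h (jj i)) →
      (∀ i, ∀ k ∈ Finset.univ.erase i,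
        (Real.exp (x i) : ℂ) * ζ (jj i) ≠ (Real.exp (x k) : ℂ) * ζ (jj k)) →
      ∑ i, ∑ k ∈ Finset.univ.erase i,
        Real.log ‖(Real.exp (x i) : ℂ) * ζ (jj i) - (Real.exp (x k) : ℂ) * ζ (jj k)‖
      ≤ -((N : ℝ) ^ 2 * (1 / (1000 * m))) + N * C + 1 := by
  have hm' : (2 : ℝ) ≤ m := by exact_mod_cast hm
  have hm0 : (0 : ℝ) < m := by linarith
  obtain ⟨hhj, hsum⟩ := num_core hm hh hS
  set ε : ℝ := 1 / (2000 * m) with hε
  set κ : ℝ := 24 / (100 * m) with hκ
  have hε0 : 0 < ε := by positivity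
  have hκ0 : 0 < κ := by positivity
  have hε1 : ε ≤ 1 / 4000 := by
    rw [hε]; apply one_div_le_one_div_of_le (by norm_num); linarith
  have hκ1 : κ ≤ 12 / 100 := by
    rw [hκ, div_le_div_iff₀ (by positivity) (by norm_num)]; linarith
  have hpi : (3.14 : ℝ) < Real.pi := Real.pi_gt_d2
  have hmε : (m : ℝ) * ε = 1 / 2000 := by rw [hε]; field_simp
  have hmκ : (m : ℝ) * κ = 24 / 100 := by rw [hκ]; field_simp
  have hBisum : ∑ j, (5 / 2 * (h j + κ + ε)) / 3 ≤ 33219 / 100000 := by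
    have : ∑ j, (5 / 2 * (h j + κ + ε)) / 3 = 5 / 6 * (∑ j, h j + m * κ + m * ε) := by
      rw [← Finset.sum_div, ← Finset.mul_sum, Finset.sum_add_distrib, Finset.sum_add_distrib]
      simp only [Finset.sum_const, Finset.card_univ, Fintype.card_fin, nsmul_eq_mul]
      ring
    rw [this, hmκ, hmε]; linarith
  refine ⟨κ - Real.log (1 - Real.exp (-(2 * ε))), ?_⟩
  intro N jj x hx hne
  have hE := energy (N := N) (jj := jj) (x := x) (ζ := ζ) (h := h) (ε := ε) (κ := κ)
    (Bi := fun j => 5 / 2 * (h j + κ + ε)) (Bo := fun j => 2 * (h j + ε)) (Ti := 2585 / 10000)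
    (To := 32 / 100) hζ hh hx hε0 hκ0
    (fun j => by have := hh j; positivity)
    (fun j => by have := hhj j; linarith)
    (fun j => by have := hh j; positivity)
    (fun j => by have := hhj j; linarith)
    (by norm_num) (by linarith) (by norm_num)
    (fun j τ h0 h1 => by
      have hj := hhj j
      have hj0 := hh j
      set t := h j + κ + ε with ht
      have ht0 : 0 < t := by linarith
      have ht1 : t ≤ 1 / 4 := by linarith
      refine (exp_tail h0 h1 ht1).trans ?_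
      have hp := Real.exp_pos (-τ)
      have h3 : (2 + t ^ 2 / 2) * t ≤ 2585 / 10000 * (Real.pi * (5 / 2 * t)) := by
        have h4 : 2 + t ^ 2 / 2 ≤ 2.028 := by
          have : t ≤ 0.2333 := by norm_num at hε1 hκ1 hj ⊢; linarith
          nlinarith
        nlinarith
      calc (2 + t ^ 2 / 2) * t * Real.exp (-τ)
          ≤ 2585 / 10000 * (Real.pi * (5 / 2 * t)) * Real.exp (-τ) :=
            mul_le_mul_of_nonneg_right h3 hp.le
        _ = _ := by ring)
    (fun j τ h0 h1 => by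
      have hj := hhj j
      have hj0 := hh j
      set t := h j + ε with ht
      have ht0 : 0 < t := by linarith
      have ht1 : t ≤ 1 / 4 := by linarith
      refine (exp_tail h0 h1 ht1).trans ?_
      have hp := Real.exp_pos (-τ)
      have h3 : (2 + t ^ 2 / 2) * t ≤ 32 / 100 * (Real.pi * (2 * t)) := by
        have h4 : 2 + t ^ 2 / 2 ≤ 2.0075 := by
          have : t ≤ 0.1133 := by norm_num at hε1 hj ⊢; linarith
          nlinarith
        nlinarith
      calc (2 + t ^ 2 / 2) * t * Real.exp (-τ)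
          ≤ 32 / 100 * (Real.pi * (2 * t)) * Real.exp (-τ) :=
            mul_le_mul_of_nonneg_right h3 hp.le
        _ = _ := by ring)
  -- numerical evaluation of the main coefficient
  have hcoef : -(κ * (1 - 2585 / 10000 - ∑ j, (5 / 2 * (h j + κ + ε)) / 3) ^ 2)
      + (∑ j, h j * ((2 * (h j + ε)) / 3)) / (1 - 32 / 100) ^ 2
      ≤ -(1 / (1000 * m)) - 2 * ε := by
    have h1 : (40931 / 100000 : ℝ) ≤ 1 - 2585 / 10000 - ∑ j, (5 / 2 * (h j + κ + ε)) / 3 := by
      linarith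
    have h2 : (40931 / 100000 : ℝ) ^ 2
        ≤ (1 - 2585 / 10000 - ∑ j, (5 / 2 * (h j + κ + ε)) / 3) ^ 2 :=
      pow_le_pow_left₀ (by norm_num) h1 2
    have h3 : ∑ j, h j * ((2 * (h j + ε)) / 3) = 2 / 3 * (∑ j, h j ^ 2 + ε * ∑ j, h j) := by
      rw [Finset.mul_sum, ← Finset.sum_add_distrib, Finset.mul_sum]
      apply Finset.sum_congr rfl
      intro j _; ring
    rw [h3]
    have h4 : κ * (40931 / 100000 : ℝ) ^ 2
        ≤ κ * (1 - 2585 / 10000 - ∑ j, (5 / 2 * (h j + κ + ε)) / 3) ^ 2 :=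
      mul_le_mul_of_nonneg_left h2 hκ0.le
    have h5 : 2 / 3 * (∑ j, h j ^ 2 + ε * ∑ j, h j) / (1 - 32 / 100) ^ 2
        ≤ 2 / 3 * (1 / (40 * m) + ε * (15812 / 100000)) / (1 - 32 / 100) ^ 2 := by
      apply div_le_div_of_nonneg_right _ (by norm_num)
      apply mul_le_mul_of_nonneg_left _ (by norm_num)
      exact add_le_add hS (mul_le_mul_of_nonneg_left hsum hε0.le)
    have h6 : -(κ * (40931 / 100000 : ℝ) ^ 2)
        + 2 / 3 * (1 / (40 * m) + ε * (15812 / 100000)) / (1 - 32 / 100) ^ 2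
        ≤ -(1 / (1000 * m)) - 2 * ε := by
      rw [hκ, hε]
      have e : ∀ a : ℝ, a / (m : ℝ) = a * (1 / m) := fun a => by ring
      have h7 : -(24 / (100 * (m : ℝ)) * (40931 / 100000 : ℝ) ^ 2)
          + 2 / 3 * (1 / (40 * (m : ℝ)) + 1 / (2000 * (m : ℝ)) * (15812 / 100000))
            / (1 - 32 / 100) ^ 2 - (-(1 / (1000 * (m : ℝ))) - 2 * (1 / (2000 * (m : ℝ))))
          = (-(24 / 100 * (40931 / 100000 : ℝ) ^ 2)
          + 2 / 3 * (1 / 40 + 1 / 2000 * (15812 / 100000))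
            / (1 - 32 / 100) ^ 2 + 1 / 1000 + 2 * (1 / 2000)) * (1 / m) := by
        field_simp
        ring
      have h8 : (-(24 / 100 * (40931 / 100000 : ℝ) ^ 2)
          + 2 / 3 * (1 / 40 + 1 / 2000 * (15812 / 100000))
            / (1 - 32 / 100) ^ 2 + 1 / 1000 + 2 * (1 / 2000)) ≤ 0 := by norm_num
      have h9 : (-(24 / 100 * (40931 / 100000 : ℝ) ^ 2)
          + 2 / 3 * (1 / 40 + 1 / 2000 * (15812 / 100000))
            / (1 - 32 / 100) ^ 2 + 1 / 1000 + 2 * (1 / 2000)) * (1 / m) ≤ 0 :=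
        mul_nonpos_of_nonpos_of_nonneg h8 (by positivity)
      linarith
    linarith
  have hq : Real.log (2 / (1 + Real.exp (-(2 * ε)))) ≤ 2 * ε := by
    have h1 := Real.exp_pos (-(2 * ε))
    have h2 : 1 - 2 * ε ≤ Real.exp (-(2 * ε)) := by
      have := Real.add_one_le_exp (-(2 * ε)); linarith
    have h3 := Real.log_le_sub_one_of_pos (show 0 < 2 / (1 + Real.exp (-(2 * ε))) by positivity)
    have h4 : 2 / (1 + Real.exp (-(2 * ε))) ≤ 1 + 2 * ε := by
      rw [div_le_iff₀ (by positivity)]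
      nlinarith
    linarith
  have hpairs : ∑ i, ∑ k ∈ Finset.univ.erase i,
        Real.log ‖(Real.exp (x i) : ℂ) * ζ (jj i) - (Real.exp (x k) : ℂ) * ζ (jj k)‖
      ≤ (∑ i, ∑ k ∈ Finset.univ.erase i, PE ζ jj x ε i k) + (N : ℝ) ^ 2 * (2 * ε) := by
    have h1 : ∀ i ∈ (Finset.univ : Finset (Fin N)), ∀ k ∈ Finset.univ.erase i,
        Real.log ‖(Real.exp (x i) : ℂ) * ζ (jj i) - (Real.exp (x k) : ℂ) * ζ (jj k)‖
        ≤ PE ζ jj x ε i k + 2 * ε := by
      intro i _ k hk
      have := log_norm_sub_le (hζ (jj i)) (hζ (jj k)) hε0 (hne i k hk)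
      unfold PE cc
      linarith
    refine (Finset.sum_le_sum fun i hi => Finset.sum_le_sum (h1 i hi)).trans ?_
    simp only [Finset.sum_add_distrib]
    have h2 : ∑ i : Fin N, ∑ k ∈ Finset.univ.erase i, 2 * ε ≤ (N : ℝ) ^ 2 * (2 * ε) := by
      calc ∑ i : Fin N, ∑ k ∈ Finset.univ.erase i, 2 * ε
          ≤ ∑ i : Fin N, ∑ k : Fin N, 2 * ε := by
            apply Finset.sum_le_sum
            intro i _
            exact Finset.sum_le_sum_of_subset_of_nonneg (Finset.erase_subset _ _)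
              (fun _ _ _ => by positivity)
        _ = (N : ℝ) ^ 2 * (2 * ε) := by simp; ring
    linarith
  have hN2 : (0 : ℝ) ≤ (N : ℝ) ^ 2 := by positivity
  have hmul := mul_le_mul_of_nonneg_left hcoef hN2
  nlinarith

/-- **capacity of the hedgehog**: for some `N` all Vandermonde products of `N` points are small -/
theorem hedge_VV {m : ℕ} (hm : 2 ≤ m) {ζ : Fin m → ℂ} (hζ : ∀ j, ‖ζ j‖ = 1) {h : Fin m → ℝ}
    (hh : ∀ j, 0 ≤ h j) (hS : ∑ j, h j ^ 2 ≤ 1 / (40 * m)) :
    ∃ N : ℕ, ∀ z : Fin N → ℂ, (∀ i, z i ∈ hedge ζ h) → VV z ≤ Real.exp (-1) := by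
  have hm' : (2 : ℝ) ≤ m := by exact_mod_cast hm
  have hm0 : (0 : ℝ) < m := by linarith
  obtain ⟨C, hC⟩ := energy_num hm hζ hh hS
  obtain ⟨N, hN⟩ := exists_nat_ge (max 1 ((|C| + 2) * (1000 * m)))
  have hN1 : (1 : ℝ) ≤ N := (le_max_left _ _).trans hN
  have hN2 : (|C| + 2) * (1000 * m) ≤ N := (le_max_right _ _).trans hN
  refine ⟨N, ?_⟩
  -- points off the origin
  have hoff : ∀ (jj : Fin N → Fin m) (t : Fin N → ℝ), (∀ i, 0 < t i) →
      (∀ i, t i ≤ Real.exp (h (jj i))) → VV (fun i => (t i : ℂ) * ζ (jj i)) ≤ Real.exp (-1) := by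
    intro jj t ht0 ht1
    by_cases hne : ∀ i, ∀ k ∈ Finset.univ.erase i, (t i : ℂ) * ζ (jj i) ≠ (t k : ℂ) * ζ (jj k)
    · set x : Fin N → ℝ := fun i => Real.log (t i) with hx
      have hexp : ∀ i, Real.exp (x i) = t i := fun i => Real.exp_log (ht0 i)
      have h1 := hC N jj x (fun i => by
        have := Real.log_le_log (ht0 i) (ht1 i)
        rwa [Real.log_exp] at this) (by
        intro i k hk
        rw [hexp, hexp]; exact hne i k hk)
      simp only [hexp] at h1
      have hpos : ∀ i ∈ (Finset.univ : Finset (Fin N)), ∀ k ∈ Finset.univ.erase i,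
          ‖(t i : ℂ) * ζ (jj i) - (t k : ℂ) * ζ (jj k)‖ ≠ 0 := by
        intro i _ k hk
        exact (norm_pos_iff.mpr (sub_ne_zero.mpr (hne i k hk))).ne'
      have hlog : Real.log (VV (fun i => (t i : ℂ) * ζ (jj i)))
          = ∑ i, ∑ k ∈ Finset.univ.erase i,
            Real.log ‖(t i : ℂ) * ζ (jj i) - (t k : ℂ) * ζ (jj k)‖ := by
        unfold VV
        rw [Real.log_prod]
        · apply Finset.sum_congr rfl
          intro i hi
          rw [Real.log_prod]
          exact hpos i hi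
        · intro i hi
          exact Finset.prod_ne_zero_iff.mpr (hpos i hi)
      have hVpos : 0 < VV (fun i => (t i : ℂ) * ζ (jj i)) := by
        refine lt_of_le_of_ne (VV_nonneg _) (Ne.symm ?_)
        unfold VV
        exact Finset.prod_ne_zero_iff.mpr fun i hi => Finset.prod_ne_zero_iff.mpr (hpos i hi)
      rw [← Real.log_le_iff_le_exp hVpos, hlog]
      refine h1.trans ?_
      have h2 : (N : ℝ) * (|C| + 2) ≤ (N : ℝ) ^ 2 * (1 / (1000 * m)) := by
        rw [mul_one_div, le_div_iff₀ (by positivity)]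
        nlinarith
      have h3 : (N : ℝ) * C ≤ N * |C| := mul_le_mul_of_nonneg_left (le_abs_self C) (by linarith)
      nlinarith
    · push Not at hne
      obtain ⟨i, k, hk, he⟩ := hne
      have : VV (fun i => (t i : ℂ) * ζ (jj i)) = 0 := by
        unfold VV
        apply Finset.prod_eq_zero (Finset.mem_univ i)
        apply Finset.prod_eq_zero hk
        simp only
        rw [he, sub_self, norm_zero]
      rw [this]; exact (Real.exp_pos _).le
  intro z hz
  choose jj t ht0 ht1 hzt using hz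
  have hzf : z = fun i => (t i : ℂ) * ζ (jj i) := funext hzt
  -- approximate by points off the origin
  have hlim : Filter.Tendsto (fun δ : ℝ => VV (fun i => ((max (t i) δ : ℝ) : ℂ) * ζ (jj i)))
      (nhdsWithin 0 (Ioi 0)) (nhds (VV z)) := by
    have hcont : Continuous (fun δ : ℝ => VV (fun i => ((max (t i) δ : ℝ) : ℂ) * ζ (jj i))) := by
      apply (VV_continuous N).comp
      apply continuous_pi
      intro i
      fun_prop
    have h0 := hcont.tendsto 0
    have e : (fun i => ((max (t i) 0 : ℝ) : ℂ) * ζ (jj i)) = z := by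
      rw [hzf]; ext i; rw [max_eq_left (ht0 i)]
    rw [e] at h0
    exact h0.mono_left nhdsWithin_le_nhds
  refine le_of_tendsto hlim ?_
  have hev : ∀ᶠ δ : ℝ in nhdsWithin 0 (Ioi 0), δ < 1 :=
    nhdsWithin_le_nhds (Iio_mem_nhds one_pos)
  filter_upwards [hev, self_mem_nhdsWithin] with δ hδ1 hδ0
  apply hoff jj (fun i => max (t i) δ)
  · intro i; exact lt_of_lt_of_le hδ0 (le_max_right _ _)
  · intro i
    apply max_le (ht1 i)
    have : (1 : ℝ) ≤ Real.exp (h (jj i)) := by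
      rw [← Real.exp_zero]; exact Real.exp_le_exp.mpr (hh _)
    linarith

end Pool.Agent.H25.L2
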