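import Pool.Agent.H25.L2.Core

/-! The main inequality for irreducible polynomials. -/

set_option autoImplicit false

namespace Pool.Agent.H25.L2

open Complex MeasureTheory Metric Set Polynomial

/-- `∑ (log⁺ |α|)²` over the complex roots -/
noncomputable def Sl (f : ℤ[X]) : ℝ :=
  ((f.map (Int.castRingHom ℂ)).roots.map fun a => (Real.posLog ‖a‖) ^ 2).sum

lemma mem_roots_iff {f : ℤ[X]} (hf : f ≠ 0) (a : ℂ) :
    a ∈ (f.map (Int.castRingHom ℂ)).roots ↔ aeval a f = 0 := by
  rw [mem_roots', IsRoot.def, eval_map, ← algebraMap_int_eq, ← aeval_def]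
  constructor
  · exact fun h => h.2
  · intro h
    refine ⟨?_, h⟩
    rw [algebraMap_int_eq]
    exact (Polynomial.map_ne_zero_iff (RingHom.injective_int _)).mpr hf

lemma dvd_of_root {f : ℤ[X]} (hf : f.Monic) (hirr : Irreducible f) {g : ℤ[X]} {a : ℂ}
    (h1 : aeval a f = 0) (h2 : aeval a g = 0) : f ∣ g := by
  have hint : IsIntegral ℤ a := ⟨f, hf, by rwa [aeval_def] at h1⟩
  have hd : minpoly ℤ a ∣ f := minpoly.isIntegrallyClosed_dvd hint h1
  have hg : minpoly ℤ a ∣ g := minpoly.isIntegrallyClosed_dvd hint h2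
  have hass : Associated (minpoly ℤ a) f := by
    obtain ⟨q, hq⟩ := hd
    rcases hirr.isUnit_or_isUnit hq with h | h
    · exact absurd h (minpoly.not_isUnit ℤ a)
    · obtain ⟨u, hu⟩ := h
      exact ⟨u, by rw [hu]; exact hq.symm⟩
  exact (hass.symm.dvd).trans hg

lemma nodup_roots_irr {f : ℤ[X]} (hf : f.Monic) (hirr : Irreducible f) :
    (f.map (Int.castRingHom ℂ)).roots.Nodup := by
  have h1 : Irreducible (f.map (algebraMap ℤ ℚ)) :=
    (hf.irreducible_iff_irreducible_map_fraction_map (K := ℚ)).mp hirr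
  have h2 := h1.separable.map (f := algebraMap ℚ ℂ)
  rw [Polynomial.map_map] at h2
  have h3 : (algebraMap ℚ ℂ).comp (algebraMap ℤ ℚ) = Int.castRingHom ℂ := RingHom.ext_int _ _
  rw [h3] at h2
  exact nodup_roots h2

lemma aeval_comp_neg (f : ℤ[X]) (a : ℂ) : aeval a (f.comp (-X)) = aeval (-a) f := by
  rw [aeval_comp]; simp

/-- squares of roots never are fourth powers of roots, unless torsion -/
lemma no_coinc {f : ℤ[X]} (hf : f.Monic) (hirr : Irreducible f) {a b : ℂ}
    (ha : aeval a f = 0) (hb : aeval b f = 0) (hab : a ^ 2 = b ^ 4) {c : ℂ} (hc : aeval c f = 0) :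
    c = 0 ∨ ∃ k : ℕ, 0 < k ∧ c ^ k = 1 := by
  set T : Set ℂ := {x | aeval x f = 0 ∨ aeval (-x) f = 0} with hT
  have hfin : T.Finite := by
    have h1 : (f * f.comp (-X)) ≠ 0 := by
      apply mul_ne_zero hf.ne_zero
      intro h0
      have := comp_neg_neg f
      rw [h0, zero_comp] at this
      exact hf.ne_zero this.symm
    apply Set.Finite.subset (s := ((((f * f.comp (-X)).map (Int.castRingHom ℂ)).roots.toFinset :
      Finset ℂ) : Set ℂ)) (Finset.finite_toSet _)
    intro x hx
    simp only [Finset.mem_coe, Multiset.mem_toFinset]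
    rw [mem_roots_iff h1, map_mul, aeval_comp_neg, mul_eq_zero]
    exact hx
  have hsq : ∀ x : ℂ, aeval x f = 0 → aeval (x ^ 2) f = 0 ∨ aeval (-(x ^ 2)) f = 0 := by
    have hq : aeval b (expand ℤ 2 f * expand ℤ 2 (f.comp (-X))) = 0 := by
      rw [map_mul, expand_aeval, expand_aeval, aeval_comp_neg, mul_eq_zero]
      have h2 : (a - b ^ 2) * (a + b ^ 2) = 0 := by linear_combination hab
      rcases mul_eq_zero.mp h2 with h | h
      · left
        rw [← sub_eq_zero.mp h]; exact ha
      · right
        rw [← eq_neg_of_add_eq_zero_left h]; exact ha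
    obtain ⟨q, hq2⟩ := dvd_of_root hf hirr hb hq
    intro x hx
    have h3 : aeval x (expand ℤ 2 f * expand ℤ 2 (f.comp (-X))) = 0 := by
      rw [hq2, map_mul, hx, zero_mul]
    rw [map_mul, expand_aeval, expand_aeval, aeval_comp_neg, mul_eq_zero] at h3
    exact h3
  have hTsq : ∀ x ∈ T, x ^ 2 ∈ T := by
    rintro x (h | h)
    · exact hsq x h
    · have := hsq (-x) h
      rwa [neg_sq] at this
  have hpow : ∀ k : ℕ, c ^ (2 ^ k) ∈ T := by
    intro k
    induction k with
    | zero => simpa [hT] using Or.inl hc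
    | succ k ih => rw [pow_succ, pow_mul]; exact hTsq _ ih
  have : ¬ Function.Injective (fun k : ℕ => c ^ (2 ^ k)) := by
    intro hinj
    exact (Set.infinite_of_injective_forall_mem hinj hpow) hfin
  rw [Function.Injective] at this
  push Not at this
  obtain ⟨i, j, hij, hne⟩ := this
  wlog hlt : i < j generalizing i j
  · exact this j i hij.symm hne.symm (by omega)
  by_cases hc0 : c = 0
  · exact Or.inl hc0
  right
  have h2 : 2 ^ i < 2 ^ j := Nat.pow_lt_pow_right (by norm_num) hlt
  refine ⟨2 ^ j - 2 ^ i, by omega, ?_⟩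
  have h3 : c ^ (2 ^ i) * c ^ (2 ^ j - 2 ^ i) = c ^ (2 ^ i) * 1 := by
    rw [← pow_add, mul_one, show 2 ^ i + (2 ^ j - 2 ^ i) = 2 ^ j by omega]
    exact hij.symm
  exact mul_left_cancel₀ (pow_ne_zero _ hc0) h3

theorem irr (N : ℕ) : ∀ f : ℤ[X], f.natDegree = N → f.Monic → Irreducible f →
    (∃ a : ℂ, aeval a f = 0 ∧ a ≠ 0 ∧ ∀ k : ℕ, 0 < k → a ^ k ≠ 1) →
    1 / (1600 * (f.natDegree : ℝ)) < Sl f := by
  induction N using Nat.strong_induction_on with
  | _ N ih =>
  intro f hN hf hirr hex
  obtain ⟨α, hα, hα0, hαt⟩ := hex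
  have hn : 0 < f.natDegree := by
    rcases Nat.eq_zero_or_pos f.natDegree with h | h
    · rw [hf.natDegree_eq_zero] at h
      rw [h] at hα; simp at hα
    · exact h
  have h0 : ∀ a ∈ (f.map (Int.castRingHom ℂ)).roots, a ≠ 0 := by
    intro a ha ha0
    rw [mem_roots_iff hf.ne_zero, ha0] at ha
    have := dvd_of_root hf hirr ha (g := X) (by simp)
    obtain ⟨q, hq⟩ := this
    have h1 : aeval α (X : ℤ[X]) = 0 := by rw [hq, map_mul, hα, zero_mul]
    rw [aeval_X] at h1
    exact hα0 h1
  have hnd := nodup_roots_irr hf hirr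
  by_cases hsq : ((f.map (Int.castRingHom ℂ)).roots.map (fun a => a ^ 2)).Nodup
  · -- distinct squares
    apply core hf hn h0 hsq
    intro a ha b hb hab
    rw [mem_roots_iff hf.ne_zero] at ha hb
    rcases no_coinc hf hirr ha hb hab hα with h | ⟨k, hk, h⟩
    · exact hα0 h
    · exact hαt k hk h
  · -- `f` is even
    have h1 : ∃ a b : ℂ, aeval a f = 0 ∧ aeval b f = 0 ∧ a ≠ b ∧ a ^ 2 = b ^ 2 := by
      by_contra hcon
      push Not at hcon
      apply hsq
      refine Multiset.Nodup.map_on ?_ hnd
      intro a ha b hb hab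
      rw [mem_roots_iff hf.ne_zero] at ha hb
      by_contra hne
      exact hcon a b ha hb hne hab
    obtain ⟨a, b, ha, hb, hne, hab⟩ := h1
    have hab' : -b = a := by
      rcases sq_eq_sq_iff_eq_or_eq_neg.mp hab with h | h
      · exact absurd h hne
      · exact h.symm
    have hd : f ∣ f.comp (-X) := dvd_of_root hf hirr hb (by rw [aeval_comp_neg, hab']; exact ha)
    have hb0 : b ≠ 0 := h0 b ((mem_roots_iff hf.ne_zero b).mpr hb)
    -- `f(-X) = (-1)^n f(X)`
    have hdeg : (f.comp (-X)).natDegree = f.natDegree := by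
      rw [natDegree_comp]; simp
    have hlead : (f.comp (-X)).leadingCoeff = (-1) ^ f.natDegree := by
      rw [leadingCoeff, hdeg, comp_neg_coeff, hf.coeff_natDegree, mul_one]
    have heq : f.comp (-X) = C ((-1) ^ f.natDegree) * f := by
      obtain ⟨q, hq⟩ := hd
      have hq0 : q.natDegree = 0 := by
        have h3 : (f.comp (-X)) ≠ 0 := by
          intro h4
          rw [h4] at hlead; simp at hlead
          exact absurd hlead.symm (pow_ne_zero _ (by norm_num))
        have h5 : q ≠ 0 := by
          rintro rfl; rw [mul_zero] at hq; exact h3 hq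
        have h6 := hdeg
        rw [hq, hf.natDegree_mul' h5] at h6
        omega
      rw [eq_C_of_natDegree_eq_zero hq0] at hq
      have h7 := hlead
      rw [hq, leadingCoeff_mul, hf.leadingCoeff, one_mul, leadingCoeff_C] at h7
      rw [hq, h7, mul_comm]
    have heven : Even f.natDegree := by
      by_contra hodd
      rw [Nat.not_even_iff_odd] at hodd
      rw [hodd.neg_one_pow] at heq
      have h3 := congrArg (fun p => p.coeff 0) heq
      simp only [comp_neg_coeff, coeff_C_mul] at h3
      have h4 : f.coeff 0 = 0 := by linarith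
      have h5 : aeval (0 : ℂ) f = 0 := by
        rw [← coeff_zero_eq_aeval_zero', h4]; simp
      exact h0 0 ((mem_roots_iff hf.ne_zero 0).mpr h5) rfl
    rw [heven.neg_one_pow, map_one, one_mul] at heq
    set g := contract 2 f with hg
    have hfg : expand ℤ 2 g = f := by
      ext k
      rw [coeff_expand (by norm_num)]
      split_ifs with h
      · rw [hg, coeff_contract (by norm_num), Nat.div_mul_cancel h]
      · exact (coeff_odd_of_even heq h).symm
    have hgd : g.natDegree * 2 = f.natDegree := by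
      rw [← hfg, natDegree_expand]
    have hgm : g.Monic := by
      have h3 := hf
      rw [← hfg] at h3
      exact (Polynomial.monic_expand_iff (by norm_num)).mp h3
    have hgirr : Irreducible g := by
      rw [← hfg] at hirr
      exact of_irreducible_expand (by norm_num) hirr
    have hgα : aeval (α ^ 2) g = 0 := by
      rw [← hfg, expand_aeval] at hα
      exact hα
    have hSg := ih g.natDegree (by omega) g rfl hgm hgirr
      ⟨α ^ 2, hgα, pow_ne_zero _ hα0, fun k hk => by
        rw [← pow_mul]; exact hαt _ (by omega)⟩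
    -- comparison of the sums
    have hgr : gr f = g ^ 2 := by
      apply expand_injective (n := 2) (by norm_num)
      rw [expand_gr, heven.neg_one_pow, map_one, one_mul, heq, map_pow, hfg, pow_two]
    have hroots : (f.map (Int.castRingHom ℂ)).roots.map (fun a => a ^ 2)
        = 2 • (g.map (Int.castRingHom ℂ)).roots := by
      rw [← roots_gr f hf, hgr, Polynomial.map_pow, roots_pow]
    have hSf : Sl f = Sl g / 2 := by
      unfold Sl
      have e1 : (f.map (Int.castRingHom ℂ)).roots.map (fun a => (Real.posLog ‖a‖) ^ 2)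
          = ((f.map (Int.castRingHom ℂ)).roots.map (fun a => a ^ 2)).map
            (fun a => (1 / 4) * (Real.posLog ‖a‖) ^ 2) := by
        rw [Multiset.map_map]
        apply Multiset.map_congr rfl
        intro x _
        simp only [Function.comp_apply, norm_pow, Real.posLog_pow]
        push_cast; ring
      rw [e1, hroots, Multiset.map_nsmul, Multiset.sum_nsmul, Multiset.sum_map_mul_left]
      simp only [nsmul_eq_mul]
      push_cast; ring
    rw [hSf]
    have hgd' : (f.natDegree : ℝ) = 2 * (g.natDegree : ℝ) := by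
      rw [← hgd]; push_cast; ring
    rw [hgd']
    have hgn : (0 : ℝ) < g.natDegree := by
      have : 0 < g.natDegree := by omega
      exact_mod_cast this
    have e2 : 1 / (1600 * (2 * (g.natDegree : ℝ))) = (1 / (1600 * (g.natDegree : ℝ))) / 2 := by
      field_simp
    rw [e2]
    linarith

end Pool.Agent.H25.L2
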