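import Mathlib

/-! Kronecker's rationality criterion: if all large Hankel determinants of a sequence vanish,
the sequence satisfies a linear recurrence. -/

set_option autoImplicit false

namespace Pool.Agent.H25.L2

open Polynomial Finset

variable {K : Type*} [Field K]

/-- action of a polynomial on a sequence by shifts -/
noncomputable def act (A : K[X]) (a : ℕ → K) (i : ℕ) : K :=
  ∑ j ∈ range (A.natDegree + 1), A.coeff j * a (i + j)

lemma act_eq (A : K[X]) (a : ℕ → K) (i n : ℕ) (hn : A.natDegree < n) :
    act A a i = ∑ j ∈ range n, A.coeff j * a (i + j) := by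
  unfold act
  apply Finset.sum_subset
  · intro j hj; simp at hj ⊢; omega
  · intro j _ hj2
    simp at hj2
    rw [coeff_eq_zero_of_natDegree_lt (by omega), zero_mul]

lemma act_comm (A B : K[X]) (a : ℕ → K) (i : ℕ) :
    act A (act B a) i = act B (act A a) i := by
  unfold act
  simp_rw [Finset.mul_sum]
  rw [Finset.sum_comm]
  apply Finset.sum_congr rfl; intro j _
  apply Finset.sum_congr rfl; intro k _
  rw [show i + k + j = i + j + k by ring]
  ring

/-- recurrence step: if `A ≠ 0` kills `b` up to index `M` and `b` vanishes up to `deg A`, then `b`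
vanishes up to `M + deg A` -/
lemma vanish_of_act {A : K[X]} (hA : A ≠ 0) {b : ℕ → K} {M : ℕ}
    (h1 : ∀ i < M, act A b i = 0) (h0 : ∀ i < A.natDegree, b i = 0) :
    ∀ i < M + A.natDegree, b i = 0 := by
  intro i
  induction i using Nat.strong_induction_on with
  | _ i ih =>
    intro hi
    by_cases hd : i < A.natDegree
    · exact h0 i hd
    · push Not at hd
      obtain ⟨k, rfl⟩ := Nat.exists_eq_add_of_le hd
      have hk : k < M := by omega
      have h := h1 k hk
      unfold act at h
      rw [Finset.sum_range_succ] at h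
      have hz : ∑ j ∈ range A.natDegree, A.coeff j * b (k + j) = 0 := by
        apply Finset.sum_eq_zero
        intro j hj
        simp at hj
        rw [ih (k + j) (by omega) (by omega), mul_zero]
      rw [hz, zero_add] at h
      have hlc : A.coeff A.natDegree ≠ 0 := by
        rw [← leadingCoeff]; exact leadingCoeff_ne_zero.mpr hA
      rcases mul_eq_zero.mp h with h | h
      · exact absurd h hlc
      · rw [add_comm]; exact h

lemma exists_of_det_zero (a : ℕ → K) (N : ℕ)
    (h : (Matrix.of fun i j : Fin N => a ((i : ℕ) + j)).det = 0) :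
    ∃ A : K[X], A ≠ 0 ∧ A.natDegree < N ∧ ∀ i < N, act A a i = 0 := by
  obtain ⟨v, hv, hv2⟩ := Matrix.exists_mulVec_eq_zero_iff.mpr h
  have hN : 0 < N := by
    rcases Nat.eq_zero_or_pos N with h0 | h0
    · subst h0; exact absurd (Subsingleton.elim v 0) hv
    · exact h0
  let A : K[X] := ∑ j : Fin N, monomial (j : ℕ) (v j)
  have hcoef : ∀ j : Fin N, A.coeff j = v j := by
    intro j
    simp only [A, finsetSum_coeff, coeff_monomial]
    rw [Finset.sum_eq_single j]
    · simp
    · intro b _ hb; rw [if_neg]; intro h; exact hb (Fin.ext h)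
    · intro h; exact absurd (Finset.mem_univ _) h
  have hdeg : A.natDegree < N := by
    have : A.natDegree ≤ N - 1 := by
      apply natDegree_sum_le_of_forall_le
      intro j _
      exact (natDegree_monomial_le _).trans (by omega)
    omega
  refine ⟨A, ?_, hdeg, ?_⟩
  · intro h0
    apply hv
    ext j
    rw [← hcoef j, h0]; simp
  · intro i hi
    rw [act_eq A a i N hdeg]
    have := congrFun hv2 ⟨i, hi⟩
    simp only [Matrix.mulVec, dotProduct, Matrix.of_apply, Pi.zero_apply] at this
    rw [← this, ← Fin.sum_univ_eq_sum_range (fun j => A.coeff j * a (i + j)) N]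
    apply Finset.sum_congr rfl
    intro j _
    rw [hcoef j]; ring

/-- Kronecker's criterion -/
theorem kronecker (a : ℕ → K) (N₀ : ℕ)
    (h : ∀ N, N₀ ≤ N → (Matrix.of fun i j : Fin N => a ((i : ℕ) + j)).det = 0) :
    ∃ A : K[X], A ≠ 0 ∧ ∀ i, act A a i = 0 := by
  -- step 1: for every `N` there is a nonzero polynomial of degree `< N₀` killing `a` up to `N`
  have step1 : ∀ N, ∃ A : K[X], A ≠ 0 ∧ A.natDegree < N₀ + 1 ∧ ∀ i < N, act A a i = 0 := by
    intro N
    by_contra hcon
    push Not at hcon
    -- minimal degree
    have hex : ∃ d, ∃ A : K[X], A ≠ 0 ∧ A.natDegree = d ∧ ∀ i < max N (N₀ + 1), act A a i = 0 := by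
      obtain ⟨A, h1, _, h3⟩ := exists_of_det_zero a (max N (N₀ + 1)) (h _ (by omega))
      exact ⟨_, A, h1, rfl, h3⟩
    classical
    obtain ⟨A, hA0, hAd, hA⟩ := Nat.find_spec hex
    set d := Nat.find hex with hd
    have hdN : N₀ + 1 ≤ d := by
      by_contra hlt
      push Not at hlt
      obtain ⟨i, hi, hi2⟩ := hcon A hA0 (by omega)
      exact hi2 (hA i (by omega))
    obtain ⟨A', hA'0, hA'd, hA'⟩ := exists_of_det_zero a d (h d (by omega))
    have hdmax : d < max N (N₀ + 1) := by
      obtain ⟨A₁, h1, h2, h3⟩ := exists_of_det_zero a (max N (N₀ + 1)) (h _ (by omega))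
      have : d ≤ A₁.natDegree := Nat.find_min' hex ⟨A₁, h1, rfl, h3⟩
      omega
    have hb : ∀ i < (max N (N₀ + 1) + 1 - d) + A.natDegree, act A' a i = 0 := by
      apply vanish_of_act hA0
      · intro i hi
        rw [act_comm]
        unfold act
        apply Finset.sum_eq_zero
        intro j hj
        simp at hj
        have : act A a (i + j) = 0 := hA _ (by omega)
        unfold act at this
        rw [this, mul_zero]
      · intro i hi
        exact hA' i (by omega)
    have := Nat.find_min' hex ⟨A', hA'0, rfl, fun i hi => hb i (by omega)⟩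
    omega
  obtain ⟨A, hA0, hAd, hA⟩ := step1 (2 * N₀ + 2)
  refine ⟨A, hA0, fun i => ?_⟩
  obtain ⟨B, hB0, hBd, hB⟩ := step1 (i + N₀ + 1 + 1)
  have hb : ∀ k < (i + 1) + B.natDegree, act A a k = 0 := by
    apply vanish_of_act hB0
    · intro k hk
      rw [act_comm]
      unfold act
      apply Finset.sum_eq_zero
      intro j hj
      simp at hj
      have : act B a (k + j) = 0 := hB _ (by omega)
      unfold act at this
      rw [this, mul_zero]
    · intro k hk
      exact hA k (by omega)
  exact hb i (by omega)

end Pool.Agent.H25.L2
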