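import Mathlib

/-! Poisson kernels on the unit circle. -/

set_option autoImplicit false

namespace Pool.Agent.H25.L2

open Complex MeasureTheory Metric

/-- point of the unit circle -/
noncomputable def cu (t : ℝ) : ℂ := Complex.exp (t * I)

lemma norm_cu (t : ℝ) : ‖cu t‖ = 1 := Complex.norm_exp_ofReal_mul_I t

lemma cu_continuous : Continuous cu := by unfold cu; fun_prop

/-- average over the circle -/
noncomputable def av (g : ℝ → ℝ) : ℝ := (2 * Real.pi)⁻¹ * ∫ t in (0)..(2 * Real.pi), g t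

/-- Poisson kernel of `w` on the unit circle -/
noncomputable def pk (w : ℂ) (t : ℝ) : ℝ := (1 - ‖w‖ ^ 2) / ‖cu t - w‖ ^ 2

/-- mutual energy density -/
noncomputable def pp (v : ℂ) : ℝ := (1 - ‖v‖ ^ 2) / ‖1 - v‖ ^ 2

lemma cu_sub_ne {w : ℂ} (hw : ‖w‖ < 1) (t : ℝ) : cu t - w ≠ 0 := by
  intro h
  have : cu t = w := sub_eq_zero.mp h
  rw [← this, norm_cu] at hw
  exact lt_irrefl _ hw

lemma pk_continuous {w : ℂ} (hw : ‖w‖ < 1) : Continuous (pk w) := by
  unfold pk
  refine Continuous.div continuous_const (by have := cu_continuous; fun_prop) fun t => ?_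
  have := cu_sub_ne hw t
  positivity

lemma pk_nonneg {w : ℂ} (hw : ‖w‖ < 1) (t : ℝ) : 0 ≤ pk w t := by
  unfold pk
  apply div_nonneg _ (by positivity)
  have := norm_nonneg w
  nlinarith

lemma av_eq_circleAverage (g : ℂ → ℝ) : Real.circleAverage g 0 1 = av (fun t => g (cu t)) := by
  unfold av Real.circleAverage cu
  simp [circleMap]

lemma re_div {v : ℂ} : ((1 + v) / (1 - v)).re = pp v := by
  unfold pp
  rw [div_re, ← normSq_eq_norm_sq (1 - v), ← add_div]
  congr 1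
  rw [← normSq_eq_norm_sq v, normSq_apply]
  simp only [add_re, one_re, sub_re, add_im, one_im, sub_im]
  ring

lemma av_pk_mul {w w' : ℂ} (hw : ‖w‖ < 1) (hw' : ‖w'‖ < 1) :
    av (fun t => pk w t * pk w' t) = pp (w * (starRingEnd ℂ) w') := by
  have hne : ∀ z : ℂ, ‖z‖ ≤ 1 → 1 - (starRingEnd ℂ) w' * z ≠ 0 := by
    intro z hz h
    have h1 : (starRingEnd ℂ) w' * z = 1 := (sub_eq_zero.mp h).symm
    have h2 : ‖(starRingEnd ℂ) w' * z‖ < 1 := by
      rw [norm_mul, RCLike.norm_conj]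
      have := norm_nonneg z
      have := norm_nonneg w'
      nlinarith
    rw [h1, norm_one] at h2
    exact lt_irrefl _ h2
  have hd : DiffContOnCl ℂ (fun z => (1 + (starRingEnd ℂ) w' * z) / (1 - (starRingEnd ℂ) w' * z))
      (ball 0 1) := by
    apply DifferentiableOn.diffContOnCl
    rw [closure_ball 0 one_ne_zero]
    intro z hz
    have hz' : ‖z‖ ≤ 1 := by simpa using hz
    have := hne z hz'
    fun_prop (disch := assumption)
  have hP := hd.circleAverage_poissonKernel_smul' (w := w) (by simpa using hw)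
  simp only [sub_zero] at hP
  have hint : CircleIntegrable (fun z => ((‖z‖ ^ 2 - ‖w‖ ^ 2) / ‖z - w‖ ^ 2 : ℝ) •
      ((1 + (starRingEnd ℂ) w' * z) / (1 - (starRingEnd ℂ) w' * z))) 0 1 := by
    apply ContinuousOn.circleIntegrable zero_le_one
    intro z hz
    have hz' : ‖z‖ = 1 := by simpa using hz
    apply ContinuousAt.continuousWithinAt
    have h1 := hne z hz'.le
    have h2 : ‖z - w‖ ^ 2 ≠ 0 := by
      have : z - w ≠ 0 := by
        intro h
        rw [sub_eq_zero.mp h] at hz'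
        rw [hz'] at hw; exact lt_irrefl _ hw
      positivity
    fun_prop (disch := assumption)
  have hre : Real.circleAverage (fun z => ((‖z‖ ^ 2 - ‖w‖ ^ 2) / ‖z - w‖ ^ 2 : ℝ) *
      ((1 + (starRingEnd ℂ) w' * z) / (1 - (starRingEnd ℂ) w' * z)).re) 0 1
      = ((1 + (starRingEnd ℂ) w' * w) / (1 - (starRingEnd ℂ) w' * w)).re := by
    rw [← hP]
    have := Complex.reCLM.circleAverage_comp_comm hint
    simp only [Function.comp_def, Complex.reCLM_apply] at this
    rw [← this]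
    congr 1
    ext z
    rw [Complex.smul_re, smul_eq_mul]
  rw [av_eq_circleAverage] at hre
  rw [re_div, mul_comm ((starRingEnd ℂ) w') w] at hre
  rw [← hre]
  unfold av
  congr 1
  apply intervalIntegral.integral_congr
  intro t _
  simp only
  rw [re_div, norm_cu, one_pow]
  have e1 : ‖(starRingEnd ℂ) w' * cu t‖ = ‖w'‖ := by
    rw [norm_mul, RCLike.norm_conj, norm_cu, mul_one]
  have e2 : ‖1 - (starRingEnd ℂ) w' * cu t‖ = ‖cu t - w'‖ := by
    have h1 : (starRingEnd ℂ) (cu t) * cu t = 1 := by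
      rw [mul_comm, Complex.mul_conj, normSq_eq_norm_sq, norm_cu]; simp
    have h2 : 1 - (starRingEnd ℂ) w' * cu t = (starRingEnd ℂ) (cu t - w') * cu t := by
      rw [map_sub, sub_mul, h1]
    rw [h2, norm_mul, RCLike.norm_conj, norm_cu, mul_one]
  unfold pp pk
  rw [e1, e2]

lemma av_pk {w : ℂ} (hw : ‖w‖ < 1) : av (pk w) = 1 := by
  have := av_pk_mul hw (w' := 0) (by simp)
  have h0 : ∀ t, pk 0 t = 1 := by intro t; unfold pk; simp [norm_cu]
  simp only [h0, mul_one] at this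
  rw [map_zero, mul_zero] at this
  unfold pp at this
  simpa using this

/-- far from `ζ`, a Poisson kernel concentrated at `ζ` is dominated by a wider one -/
lemma pk_le_wide {ζ : ℂ} (hζ : ‖ζ‖ = 1) {ρ B : ℝ} (h0 : 0 < ρ) (h1 : ρ < 1) (hB0 : 0 < B)
    (hB1 : B ≤ 1) (t : ℝ) (ht : B ≤ ‖cu t - ζ‖) :
    pk (ρ * ζ) t ≤ (1 - ρ ^ 2) / (ρ * B) * pk ((1 - B : ℝ) * ζ) t := by
  have key : ∀ r : ℝ, 0 ≤ r → ‖cu t - r * ζ‖ ^ 2 = (1 - r) ^ 2 + r * ‖cu t - ζ‖ ^ 2 := by
    intro r _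
    have e : ∀ r : ℝ, ‖cu t - r * ζ‖ ^ 2 = 1 - 2 * r * (cu t * (starRingEnd ℂ) ζ).re + r ^ 2 := by
      intro r
      rw [← normSq_eq_norm_sq, normSq_sub]
      simp only [map_mul, conj_ofReal, normSq_ofReal]
      rw [normSq_eq_norm_sq, normSq_eq_norm_sq, norm_cu, hζ]
      have : (cu t * (↑r * (starRingEnd ℂ) ζ)).re = r * (cu t * (starRingEnd ℂ) ζ).re := by
        rw [← mul_assoc, mul_comm (cu t) (r : ℂ), mul_assoc, re_ofReal_mul]
      rw [this]; ring
    have e1 := e 1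
    simp only [ofReal_one, one_mul] at e1
    rw [e r, e1]; ring
  have hn : ∀ r : ℝ, 0 ≤ r → ‖(r : ℂ) * ζ‖ = r := by
    intro r hr
    rw [norm_mul, hζ, mul_one, norm_real, Real.norm_of_nonneg hr]
  unfold pk
  rw [hn ρ h0.le, hn (1 - B) (by linarith), key ρ h0.le, key (1 - B) (by linarith)]
  set D := ‖cu t - ζ‖ ^ 2 with hD
  have hDB : B ^ 2 ≤ D := pow_le_pow_left₀ hB0.le ht 2
  have hD0 : 0 < D := lt_of_lt_of_le (by positivity) hDB
  have hr1 : 0 < 1 - ρ ^ 2 := by nlinarith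
  have s1 : (1 - ρ ^ 2) / ((1 - ρ) ^ 2 + ρ * D) ≤ (1 - ρ ^ 2) / (ρ * D) := by
    apply div_le_div_of_nonneg_left hr1.le (by positivity)
    nlinarith [sq_nonneg (1 - ρ)]
  have s2 : 1 / D ≤ 1 / B * ((1 - (1 - B) ^ 2) / ((1 - (1 - B)) ^ 2 + (1 - B) * D)) := by
    have hpos : 0 < (1 - (1 - B)) ^ 2 + (1 - B) * D := by
      have : 0 ≤ (1 - B) * D := mul_nonneg (by linarith) hD0.le
      nlinarith [pow_pos hB0 2]
    rw [← mul_div_assoc, div_le_div_iff₀ hD0 hpos]
    have : 1 / B * (1 - (1 - B) ^ 2) = 2 - B := by field_simp; ring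
    rw [this]
    nlinarith
  calc (1 - ρ ^ 2) / ((1 - ρ) ^ 2 + ρ * D) ≤ (1 - ρ ^ 2) / (ρ * D) := s1
    _ = (1 - ρ ^ 2) / ρ * (1 / D) := by field_simp
    _ ≤ (1 - ρ ^ 2) / ρ * (1 / B * ((1 - (1 - B) ^ 2) / ((1 - (1 - B)) ^ 2 + (1 - B) * D))) :=
        mul_le_mul_of_nonneg_left s2 (by positivity)
    _ = _ := by
        have : (1 - ρ ^ 2) / (ρ * B) = (1 - ρ ^ 2) / ρ * (1 / B) := by field_simp
        rw [this]; ring

end Pool.Agent.H25.L2
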