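import Pool.Agent.H25.L2.Graeffe

/-! The integer power series `sqrt (P₂ P₄)`. -/

set_option autoImplicit false

namespace Pool.Agent.H25.L2

open Polynomial

/-- coefficients of the solution of `T + T² = U` -/
noncomputable def tco (u : ℕ → ℤ) : ℕ → ℤ
  | 0 => 0
  | (n + 1) => u (n + 1) - ∑ i : Fin n, tco u (i + 1) * tco u (n - i)
termination_by n => n
decreasing_by
  all_goals omega

lemma exists_T (U : PowerSeries ℤ) (hU : PowerSeries.constantCoeff U = 0) :
    ∃ T : PowerSeries ℤ, PowerSeries.constantCoeff T = 0 ∧ T + T ^ 2 = U := by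
  refine ⟨PowerSeries.mk (tco (fun n => PowerSeries.coeff n U)), ?_, ?_⟩
  · rw [← PowerSeries.coeff_zero_eq_constantCoeff_apply, PowerSeries.coeff_mk, tco]
  · ext n
    rw [map_add, PowerSeries.coeff_mk, pow_two, PowerSeries.coeff_mul]
    simp only [PowerSeries.coeff_mk]
    set u := (fun n => PowerSeries.coeff n U) with hu
    cases n with
    | zero =>
      rw [Finset.Nat.antidiagonal_zero, Finset.sum_singleton]
      have h0 : tco u 0 = 0 := by rw [tco]
      rw [h0]
      have : PowerSeries.coeff 0 U = 0 := by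
        rw [PowerSeries.coeff_zero_eq_constantCoeff_apply, hU]
      rw [this]; ring
    | succ n =>
      have h0 : tco u 0 = 0 := by rw [tco]
      rw [Finset.Nat.sum_antidiagonal_eq_sum_range_succ (fun i j => tco u i * tco u j) (n + 1)]
      rw [Finset.sum_range_succ, Finset.sum_range_succ', h0]
      simp only [Nat.sub_self, h0, mul_zero, zero_mul, add_zero]
      rw [tco, ← Fin.sum_univ_eq_sum_range (fun i => tco u (i + 1) * tco u (n + 1 - (i + 1))) n]
      have : ∀ i : Fin n, n + 1 - ((i : ℕ) + 1) = n - i := by intro i; omega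
      simp only [this]
      simp [hu]

lemma reverse_prod_X_sub_C (s : Multiset ℂ) :
    (s.map (fun a => X - C a)).prod.reverse = (s.map (fun a => 1 - C a * X)).prod := by
  induction s using Multiset.induction_on with
  | empty =>
    rw [Multiset.map_zero, Multiset.prod_zero, Multiset.map_zero, Multiset.prod_zero]
    have := reverse_C (1 : ℂ)
    rwa [C_1] at this
  | cons a s ih =>
    rw [Multiset.map_cons, Multiset.prod_cons, reverse_mul_of_domain, ih, Multiset.map_cons,
      Multiset.prod_cons]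
    congr 1
    rw [reverse, natDegree_X_sub_C]
    ext n
    rw [coeff_reflect]
    rcases n with _ | _ | n
    · simp [revAt_le]
    · simp [revAt_le, coeff_X, coeff_one]
    · rw [revAt_eq_self_of_lt (by omega)]
      simp [coeff_X, coeff_one]

/-- `F ∈ ℤ⟦X⟧` with `F² = ∏ (1 - a² X)(1 - a⁴ X)` over the roots of a monic integer polynomial -/
theorem exists_F (f : ℤ[X]) (hf : f.Monic) : ∃ F : PowerSeries ℤ,
    PowerSeries.constantCoeff F = 1 ∧
    (F.map (Int.castRingHom ℂ)) ^ 2
      = ((((f.map (Int.castRingHom ℂ)).roots.map (fun a => 1 - C (a ^ 2) * X)).prod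
        * ((f.map (Int.castRingHom ℂ)).roots.map (fun a => 1 - C (a ^ 4) * X)).prod : ℂ[X])
        : PowerSeries ℂ) := by
  set g₂ := gr f with hg2
  set g₄ := gr g₂ with hg4
  have hm2 : g₂.Monic := gr_monic f hf
  have hm4 : g₄.Monic := gr_monic g₂ hm2
  have hd2 : g₂.natDegree = f.natDegree := gr_natDegree f hf
  have hd4 : g₄.natDegree = f.natDegree := by rw [hg4, gr_natDegree g₂ hm2, hd2]
  obtain ⟨Q, hQ⟩ := four_dvd_gr_gr_sub f hf
  set P₂ := g₂.reverse with hP2
  set P₄ := g₄.reverse with hP4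
  have hrel : P₄ = P₂ + C 4 * reflect f.natDegree Q := by
    have h1 : P₄ - P₂ = reflect f.natDegree (g₄ - g₂) := by
      rw [reflect_sub, hP4, hP2, reverse, reverse, hd4, hd2]
    rw [hQ, reflect_C_mul] at h1
    linear_combination h1
  have hc2 : P₂.coeff 0 = 1 := by rw [hP2, coeff_zero_reverse, hm2.leadingCoeff]
  have hc4 : P₄.coeff 0 = 1 := by rw [hP4, coeff_zero_reverse, hm4.leadingCoeff]
  set Q' := reflect f.natDegree Q with hQ'
  have hQ0 : Q'.coeff 0 = 0 := by
    have := congrArg (fun p => p.coeff 0) hrel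
    simp only [coeff_add, coeff_C_mul, hc2, hc4] at this
    linarith
  -- inverse of `P₂`
  obtain ⟨V, hV⟩ : ∃ V : PowerSeries ℤ, (P₂ : PowerSeries ℤ) * V = 1 := by
    have hu : IsUnit (P₂ : PowerSeries ℤ) := by
      rw [PowerSeries.isUnit_iff_constantCoeff]
      rw [Polynomial.constantCoeff_coe, hc2]; exact isUnit_one
    obtain ⟨u, hu⟩ := hu
    exact ⟨(u⁻¹ : (PowerSeries ℤ)ˣ), by rw [← hu]; simp⟩
  obtain ⟨T, hT0, hT⟩ := exists_T ((Q' : PowerSeries ℤ) * V) (by
    rw [map_mul, Polynomial.constantCoeff_coe, hQ0, zero_mul])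
  refine ⟨(P₂ : PowerSeries ℤ) * (1 + 2 * T), ?_, ?_⟩
  · rw [map_mul, Polynomial.constantCoeff_coe, hc2, map_add, map_mul, hT0]; simp
  · have h1 : ((P₂ : PowerSeries ℤ) * (1 + 2 * T)) ^ 2 = ((P₂ * P₄ : ℤ[X]) : PowerSeries ℤ) := by
      rw [hrel]
      have hC : ((C (4 : ℤ) : ℤ[X]) : PowerSeries ℤ) = 4 := by
        rw [Polynomial.coe_C]; simp
      rw [Polynomial.coe_mul, Polynomial.coe_add, Polynomial.coe_mul, hC]
      linear_combination (4 * (P₂ : PowerSeries ℤ) ^ 2) * hT
        + (4 * (P₂ : PowerSeries ℤ) * (Q' : PowerSeries ℤ)) * hV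
    have hmc : ∀ p : ℤ[X], (p : PowerSeries ℤ).map (Int.castRingHom ℂ)
        = ((p.map (Int.castRingHom ℂ) : ℂ[X]) : PowerSeries ℂ) := by
      intro p
      ext k
      simp
    rw [← map_pow, h1, hmc]
    congr 1
    rw [Polynomial.map_mul]
    have hr2 : P₂.map (Int.castRingHom ℂ) = (g₂.map (Int.castRingHom ℂ)).reverse := by
      rw [hP2, reverse, reverse, hm2.natDegree_map, reflect_map]
    have hr4 : P₄.map (Int.castRingHom ℂ) = (g₄.map (Int.castRingHom ℂ)).reverse := by
      rw [hP4, reverse, reverse, hm4.natDegree_map, reflect_map]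
    rw [hr2, hr4]
    have e2 : (g₂.map (Int.castRingHom ℂ))
        = (((f.map (Int.castRingHom ℂ)).roots.map (fun a => a ^ 2)).map
          (fun a => X - C a)).prod := by
      rw [hg2, gr_map f hf, Multiset.map_map]; rfl
    have e4 : (g₄.map (Int.castRingHom ℂ))
        = (((f.map (Int.castRingHom ℂ)).roots.map (fun a => a ^ 4)).map
          (fun a => X - C a)).prod := by
      rw [hg4, gr_map g₂ hm2, hg2, roots_gr f hf, Multiset.map_map, Multiset.map_map]
      congr 1
      apply Multiset.map_congr rfl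
      intro a _
      simp only [Function.comp_apply]
      rw [← pow_mul]
    rw [e2, e4, reverse_prod_X_sub_C, reverse_prod_X_sub_C, Multiset.map_map, Multiset.map_map]
    rfl

end Pool.Agent.H25.L2
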