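import Pool.Agent.H25.L2.Contour
import Pool.Agent.H25.L2.Hankel
import Pool.Agent.H25.L2.Kron
import Pool.Agent.H25.L2.SqrtSer

/-! Rationality of the square root when the hedgehog is small. -/

set_option autoImplicit false

namespace Pool.Agent.H25.L2

open Complex MeasureTheory Metric Set Polynomial

/-- product with the reversed recurrence polynomial is a polynomial -/
lemma exists_mul_eq {A : ℂ[X]} (G : PowerSeries ℂ)
    (hA : ∀ i, act A (fun k => PowerSeries.coeff (k + 1) G) i = 0) :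
    ∃ B : ℂ[X], (A.reverse : PowerSeries ℂ) * G = (B : PowerSeries ℂ) := by
  set d := A.natDegree with hd
  refine ⟨PowerSeries.trunc (d + 1) ((A.reverse : PowerSeries ℂ) * G), ?_⟩
  ext n
  rw [Polynomial.coeff_coe, PowerSeries.coeff_trunc]
  split_ifs with hn
  · rfl
  · push Not at hn
    rw [PowerSeries.coeff_mul, Finset.Nat.sum_antidiagonal_eq_sum_range_succ_mk]
    simp only [Polynomial.coeff_coe, Nat.succ_eq_add_one]
    have h1 : ∑ k ∈ Finset.range (n + 1), A.reverse.coeff k * PowerSeries.coeff (n - k) G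
        = ∑ k ∈ Finset.range (d + 1), A.reverse.coeff k * PowerSeries.coeff (n - k) G := by
      symm
      apply Finset.sum_subset
      · intro k hk; simp at hk ⊢; omega
      · intro k _ hk
        simp at hk
        rw [coeff_eq_zero_of_natDegree_lt (lt_of_le_of_lt (reverse_natDegree_le A) (by omega)),
          zero_mul]
    rw [h1, ← Finset.sum_range_reflect]
    have h2 := hA (n - d - 1)
    unfold act at h2
    rw [← hd] at h2
    rw [← h2]
    apply Finset.sum_congr rfl
    intro j hj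
    simp at hj
    rw [coeff_reverse, ← hd, revAt_le (by omega)]
    congr 2
    · omega
    · congr 1; omega

/-- rationality -/
theorem exists_poly {m : ℕ} (hm : 2 ≤ m) (a : Fin m → ℂ) (ha : ∀ j, a j ≠ 0)
    (hS : ∑ j, (Real.posLog ‖a j‖) ^ 2 ≤ 1 / (40 * m)) (F : PowerSeries ℤ)
    (hF0 : PowerSeries.constantCoeff F = 1)
    (hF : (F.map (Int.castRingHom ℂ)) ^ 2
      = ∏ j, (1 - PowerSeries.C (a j) * PowerSeries.X)) :
    ∃ U B : ℂ[X], U ≠ 0 ∧
      (U : PowerSeries ℂ) * F.map (Int.castRingHom ℂ) = (B : PowerSeries ℂ) := by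
  set r : Fin m → ℝ := fun j => ‖a j‖ with hr
  set ζ : Fin m → ℂ := fun j => a j / (‖a j‖ : ℂ) with hζ
  set h : Fin m → ℝ := fun j => Real.posLog ‖a j‖ with hh
  have hr0 : ∀ j, 0 < r j := fun j => norm_pos_iff.mpr (ha j)
  have hζ1 : ∀ j, ‖ζ j‖ = 1 := by
    intro j
    rw [hζ]
    simp only
    rw [norm_div, Complex.norm_real, norm_norm]
    exact div_self (hr0 j).ne'
  have hh0 : ∀ j, 0 ≤ h j := fun j => Real.posLog_nonneg
  have hrh : ∀ j, r j ≤ Real.exp (h j) := by
    intro j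
    calc r j = Real.exp (Real.log (r j)) := (Real.exp_log (hr0 j)).symm
      _ ≤ _ := Real.exp_le_exp.mpr (le_max_right _ _)
  have hra : (fun j => (r j : ℂ) * ζ j) = a := by
    ext j
    rw [hζ, hr]
    have : (‖a j‖ : ℂ) ≠ 0 := by
      rw [Complex.ofReal_ne_zero]; exact (hr0 j).ne'
    field_simp
  obtain ⟨N, ε, hε, hVV⟩ := exists_thick hm hζ1 hh0 hS
  obtain ⟨Γ, hΓc, hΓn, hΓt, C₀, hC0, hL⟩ := contour (by omega) hζ1 hh0 hε
    (fun j => (hr0 j).le) hrh
  rw [hra] at hL
  obtain ⟨p, hp, hpd, ρ, hρ0, hρ1, hpΓ⟩ := exists_monic_small hΓc hΓn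
    (fun z hz => hVV z fun i => hΓt (hz i))
  obtain ⟨R, hR⟩ := hΓc.isBounded.exists_norm_le
  obtain ⟨N₀, hN₀⟩ := hankel_small hp hpd hρ0 hρ1 hpΓ (le_max_left 1 R)
    (fun z hz => (hR z hz).trans (le_max_right _ _))
    (fun k => PowerSeries.coeff (k + 1) (Tay (sqf a))) hC0 hL
  set G : PowerSeries ℂ := F.map (Int.castRingHom ℂ) with hG
  have hG0 : PowerSeries.constantCoeff G = 1 := by
    rw [hG, ← PowerSeries.coeff_zero_eq_constantCoeff_apply, PowerSeries.coeff_map,
      PowerSeries.coeff_zero_eq_constantCoeff_apply, hF0, map_one]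
  have hGT : G = Tay (sqf a) := eq_Tay_of_sq a hG0 hF
  rw [← hGT] at hN₀
  have hdet : ∀ N, N₀ ≤ N →
      (Matrix.of fun i j : Fin N => PowerSeries.coeff ((i : ℕ) + j + 1) G).det = 0 := by
    intro N hN
    have h1 := hN₀ N hN
    set D : Matrix (Fin N) (Fin N) ℤ :=
      Matrix.of fun i j : Fin N => PowerSeries.coeff ((i : ℕ) + j + 1) F with hD
    have h2 : (Matrix.of fun i j : Fin N => PowerSeries.coeff ((i : ℕ) + j + 1) G)
        = D.map (Int.castRingHom ℂ) := by
      ext i j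
      rw [hD, hG]
      simp [PowerSeries.coeff_map]
    have h3 : (Matrix.of fun i j : Fin N => PowerSeries.coeff ((i : ℕ) + j + 1) G).det
        = ((D.det : ℤ) : ℂ) := by
      rw [h2]
      exact (RingHom.map_det (Int.castRingHom ℂ) D).symm
    rw [h3] at h1 ⊢
    rw [Complex.norm_intCast] at h1
    have h4 : D.det = 0 := by
      have : |D.det| < 1 := by exact_mod_cast h1
      exact Int.abs_lt_one_iff.mp this
    rw [h4]; simp
  obtain ⟨A, hA0, hA⟩ := kronecker (fun k => PowerSeries.coeff (k + 1) G) N₀ hdet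
  obtain ⟨B, hB⟩ := exists_mul_eq G hA
  exact ⟨A.reverse, B, by simpa using hA0, hB⟩

/-- even multiplicities -/
lemma even_count {U P B : ℂ[X]} (hU : U ≠ 0) (hP : P ≠ 0) (h : U ^ 2 * P = B ^ 2) (x : ℂ) :
    Even (P.roots.count x) := by
  have hB : B ^ 2 ≠ 0 := by
    rw [← h]; exact mul_ne_zero (pow_ne_zero _ hU) hP
  have h1 : (U ^ 2 * P).roots.count x = (B ^ 2).roots.count x := by rw [h]
  rw [roots_mul (by rw [h]; exact hB), Multiset.count_add, roots_pow, roots_pow,
    Multiset.count_nsmul, Multiset.count_nsmul] at h1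
  rw [Nat.even_iff]; omega

lemma roots_one_sub {c : ℂ} (hc : c ≠ 0) : (1 - C c * X : ℂ[X]).roots = {c⁻¹} := by
  have : (1 - C c * X : ℂ[X]) = C (-c) * (X - C c⁻¹) := by
    rw [mul_sub, ← C_mul, neg_mul, mul_inv_cancel₀ hc]
    simp; ring
  rw [this, roots_C_mul _ (neg_ne_zero.mpr hc), roots_X_sub_C]

lemma roots_prod_one_sub (s : Multiset ℂ) (g : ℂ → ℂ) (hg : ∀ a ∈ s, g a ≠ 0) :
    (s.map (fun a => 1 - C (g a) * X)).prod ≠ 0 ∧
    (s.map (fun a => 1 - C (g a) * X)).prod.roots = s.map fun a => (g a)⁻¹ := by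
  induction s using Multiset.induction_on with
  | empty => simp
  | cons a s ih =>
    obtain ⟨h1, h2⟩ := ih fun b hb => hg b (Multiset.mem_cons_of_mem hb)
    have hga : g a ≠ 0 := hg a (Multiset.mem_cons_self a s)
    have h3 : (1 - C (g a) * X : ℂ[X]) ≠ 0 := by
      intro h0
      have := roots_one_sub hga
      rw [h0] at this; simp at this
    rw [Multiset.map_cons, Multiset.prod_cons, Multiset.map_cons]
    refine ⟨mul_ne_zero h3 h1, ?_⟩
    rw [roots_mul (mul_ne_zero h3 h1), roots_one_sub hga, h2, Multiset.singleton_add]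

end Pool.Agent.H25.L2
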